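import Pool.Agent.Lib.MP_26a019_lc.LG.Spec

set_option autoImplicit false

/-!
# Basic facts on soft list colourings
-/

open Finset Classical Pool.Agent.Kempe Pool.Agent.KempeMix

namespace Pool.Agent.KempeLG

section

variable {V C : Type} [Fintype V] [Fintype C] {H : SimpleGraph V} {φ : V → C → ℝ}

lemma wt_nonneg_of_good (hg : Good H φ) (f : V → C) : 0 ≤ wt H φ f := by
  unfold wt
  split_ifs
  · exact prod_nonneg (fun v _ => hg.nonneg v _)
  · exact le_rfl

lemma Zp_pos_of_good (h : GreedyStmt) (hg : Good H φ) : 0 < Zp H φ := by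
  have hc : ∀ v, ∃ c, 0 < φ v c := by
    intro v
    by_contra hcon
    push Not at hcon
    have := hg.pos v
    have h2 : ∑ c, φ v c ≤ 0 := sum_nonpos (fun c _ => hcon c)
    linarith
  choose p hp using hc
  have hcard : ∀ u, ∑ c, φ u c ≤ ((univ.filter (fun c => 0 < φ u c)).card : ℝ) := by
    intro u
    calc ∑ c, φ u c ≤ ∑ c, (if 0 < φ u c then (1 : ℝ) else 0) := by
          refine sum_le_sum (fun c _ => ?_)
          split_ifs with h0
          · exact hg.le_one u c
          · exact not_lt.mp h0
      _ = ((univ.filter (fun c => 0 < φ u c)).card : ℝ) := by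
          rw [sum_boole]
  obtain ⟨f, hf, -, hf2⟩ := h V C H (fun v => univ.filter (fun c => 0 < φ v c)) ∅ p
    (by simp) (by
      intro u _
      rcases Nat.eq_zero_or_pos (dg H u) with h0 | h0
      · rw [h0, card_pos]
        exact ⟨p u, by simp [hp u]⟩
      · have h1 := hg.slack u h0
        have h2 := hcard u
        have h3 : (dg H u : ℝ) < ((univ.filter (fun c => 0 < φ u c)).card : ℝ) := by linarith
        exact_mod_cast h3)
  have hw : 0 < wt H φ f := by
    unfold wt
    rw [if_pos hf]
    refine prod_pos (fun v _ => ?_)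
    have := hf2 v (by simp)
    simpa using this
  unfold Zp
  exact lt_of_lt_of_le hw
    (single_le_sum (f := fun f => wt H φ f) (fun g _ => wt_nonneg_of_good hg g) (mem_univ f))

lemma dg_cut_le (T : Finset V) (v : V) : dg (cut H T) v ≤ dg H v := by
  unfold dg nb
  refine card_le_card (fun u hu => ?_)
  simp only [mem_filter, mem_univ, true_and] at hu ⊢
  exact hu.1

lemma good_cut (hg : Good H φ) (T : Finset V) : Good (cut H T) φ where
  nonneg := hg.nonneg
  le_one := hg.le_one
  pos := hg.pos
  slack := by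
    intro v hv
    have h1 := dg_cut_le (H := H) T v
    have h2 := hg.slack v (lt_of_lt_of_le hv h1)
    have h3 : (dg (cut H T) v : ℝ) ≤ (dg H v : ℝ) := by exact_mod_cast h1
    linarith

lemma mg_nonneg_of_good (h : GreedyStmt) (hg : Good H φ) (v : V) (z : C) : 0 ≤ mg H φ v z := by
  unfold mg Ex
  refine div_nonneg (sum_nonneg (fun f _ => ?_)) (Zp_pos_of_good h hg).le
  refine mul_nonneg (wt_nonneg_of_good hg f) ?_
  dsimp only
  split_ifs <;> norm_num

lemma mg_mul_cEx (h : GreedyStmt) (hg : Good H φ) (v : V) (z : C) (F : (V → C) → ℝ) :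
    mg H φ v z * cEx H φ v z F = Ex H φ (fun f => (if f v = z then 1 else 0) * F f) := by
  by_cases h0 : mg H φ v z = 0
  · rw [h0, zero_mul]
    have hZ := Zp_pos_of_good h hg
    have h1 : ∑ f, wt H φ f * (if f v = z then (1 : ℝ) else 0) = 0 := by
      have h2 : (∑ f, wt H φ f * (if f v = z then (1 : ℝ) else 0)) / Zp H φ = 0 := h0
      rcases div_eq_zero_iff.mp h2 with h3 | h3
      · exact h3
      · exact absurd h3 hZ.ne'
    have h2 : ∀ f : V → C, wt H φ f * (if f v = z then (1 : ℝ) else 0) = 0 := by
      intro f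
      refine (sum_eq_zero_iff_of_nonneg (fun g _ => ?_)).mp h1 f (mem_univ f)
      refine mul_nonneg (wt_nonneg_of_good hg g) ?_
      split_ifs <;> norm_num
    unfold Ex
    symm
    rw [div_eq_zero_iff]
    left
    refine sum_eq_zero (fun f _ => ?_)
    rw [← mul_assoc, h2 f, zero_mul]
  · unfold cEx
    rw [mul_div_cancel₀ _ h0]

lemma sum_Ex_ite (v : V) (F : (V → C) → ℝ) :
    ∑ c, Ex H φ (fun f => (if f v = c then 1 else 0) * F f) = Ex H φ F := by
  unfold Ex
  rw [← sum_div]
  congr 1
  rw [sum_comm]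
  refine sum_congr rfl (fun f _ => ?_)
  rw [← mul_sum, ← sum_mul]
  simp

end

/-- The basic facts on partition functions, marginals and conditional expectations. -/
theorem basic (h : GreedyStmt) : BasicStmt := by
  intro V C _ _ H φ hg
  have hZ := Zp_pos_of_good h hg
  refine ⟨hZ, fun v z => mg_nonneg_of_good h hg v z, ?_, fun T => good_cut hg T,
    fun v z F => mg_mul_cEx h hg v z F, ?_⟩
  · intro v
    have h1 := sum_Ex_ite (H := H) (φ := φ) v (fun _ => 1)
    have h2 : Ex H φ (fun _ => 1) = 1 := by
      unfold Ex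
      simp only [mul_one]
      exact div_self hZ.ne'
    rw [h2] at h1
    rw [← h1]
    refine sum_congr rfl (fun z _ => ?_)
    unfold mg
    simp
  · intro v F
    rw [← sum_Ex_ite (H := H) (φ := φ) v F]
    exact sum_congr rfl (fun c _ => mg_mul_cEx h hg v c F)

end Pool.Agent.KempeLG
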