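import Pool.Agent.Lib.MP_26a019_lc.LG.Spec

set_option autoImplicit false

/-!
# Glauber dynamics with `Δ + 2` colours: the Cauchy-Schwarz part of one step
-/

open Finset Classical

namespace Pool.Agent.KempeLG

open Pool.Agent.Kempe Pool.Agent.KempeMix

namespace CSaux

theorem le_mx {C : Type} [Fintype C] (p : C → ℝ) (z : C) : p z ≤ mx p :=
  le_ciSup (Set.finite_range p).bddAbove z

theorem mx_le {C : Type} [Fintype C] [Nonempty C] (p : C → ℝ) {a : ℝ} (h : ∀ z, p z ≤ a) :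
    mx p ≤ a := ciSup_le h

theorem nonempty_of_sum {C : Type} [Fintype C] (p : C → ℝ) (h : ∑ z, p z = 1) : Nonempty C := by
  by_contra hne
  rw [not_nonempty_iff] at hne
  simp at h

/-- the part of one index -/
theorem one_index (hB : ScalBStmt) {C : Type} [Fintype C] (p F : C → ℝ) (K : ℝ)
    (hp0 : ∀ z, 0 ≤ p z) (hp1 : ∑ z, p z = 1) (hp3 : ∀ z, p z ≤ 1 / 3) (hn : nrm p F ≤ K)
    (hK : 0 ≤ K) :
    ∑ z, (1 / ((1 - mx p) ^ 2 * (1 + mx p / 2)) * p z * (F z - ∑ c, p c * F c) ^ 2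
      + K * (-Real.log (1 - p z))) ≤ 2 * K := by
  haveI := nonempty_of_sum p hp1
  have hP3 : mx p ≤ 1 / 3 := mx_le p hp3
  have hP0 : 0 ≤ mx p := by
    obtain ⟨z⟩ := nonempty_of_sum p hp1
    exact (hp0 z).trans (le_mx p z)
  set P := mx p with hPdef
  have h1 : 0 < 1 - P := by linarith
  have h2 : 0 < 1 + P / 2 := by linarith
  set V := ∑ z, p z * (F z - ∑ c, p c * F c) ^ 2 with hV
  have hn' : 1 / ((1 - P) ^ 3 * (1 + P / 2) ^ 2) * V ≤ K := hn
  have hV2 : V ≤ K * ((1 - P) ^ 3 * (1 + P / 2) ^ 2) := by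
    rw [one_div, ← div_eq_inv_mul, div_le_iff₀ (by positivity)] at hn'
    exact hn'
  have hlog : ∑ z, (-Real.log (1 - p z)) ≤ 1 + P / 2 + P ^ 2 / 2 := by
    calc ∑ z, (-Real.log (1 - p z)) ≤ ∑ z, p z * (1 + P / 2 + P ^ 2 / 2) :=
          Finset.sum_le_sum fun z _ => hB (p z) P (hp0 z) (le_mx p z) hP3
      _ = 1 + P / 2 + P ^ 2 / 2 := by rw [← Finset.sum_mul, hp1, one_mul]
  rw [Finset.sum_add_distrib, ← Finset.mul_sum]
  have e1 : ∑ z, 1 / ((1 - P) ^ 2 * (1 + P / 2)) * p z * (F z - ∑ c, p c * F c) ^ 2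
      = 1 / ((1 - P) ^ 2 * (1 + P / 2)) * V := by
    rw [hV, Finset.mul_sum]
    exact Finset.sum_congr rfl fun z _ => by ring
  rw [e1]
  have e2 : 1 / ((1 - P) ^ 2 * (1 + P / 2)) * V ≤ K * ((1 - P) * (1 + P / 2)) := by
    rw [one_div, ← div_eq_inv_mul, div_le_iff₀ (by positivity)]
    refine hV2.trans (le_of_eq ?_)
    ring
  have e3 : K * ∑ z, (-Real.log (1 - p z)) ≤ K * (1 + P / 2 + P ^ 2 / 2) :=
    mul_le_mul_of_nonneg_left hlog hK
  have e4 : K * ((1 - P) * (1 + P / 2)) + K * (1 + P / 2 + P ^ 2 / 2) = 2 * K := by ring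
  linarith

end CSaux

theorem cs (hA : ScalAStmt) (hB : ScalBStmt) : CSStmt := by
  intro ι C _ _ p F K hp0 hp1 hp3 hn hK
  set μ : ι → ℝ := fun i => 1 / ((1 - mx (p i)) ^ 2 * (1 + mx (p i) / 2)) with hμ
  have hbound : ∀ i, 0 ≤ mx (p i) ∧ mx (p i) ≤ 1 / 3 := by
    intro i
    haveI := CSaux.nonempty_of_sum (p i) (hp1 i)
    obtain ⟨z⟩ := CSaux.nonempty_of_sum (p i) (hp1 i)
    exact ⟨(hp0 i z).trans (CSaux.le_mx (p i) z), CSaux.mx_le (p i) (hp3 i)⟩
  have hμpos : ∀ i, 0 < μ i := by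
    intro i
    obtain ⟨h0, h3⟩ := hbound i
    have h1 : 0 < 1 - mx (p i) := by linarith
    have h2 : 0 < 1 + mx (p i) / 2 := by linarith
    simp only [hμ]
    positivity
  refine ⟨fun z => ∑ i, μ i * p i z * (F i z - ∑ c, p i c * F i c) ^ 2, ?_, ?_, ?_⟩
  · intro z
    refine Finset.sum_nonneg fun i _ => ?_
    have := (hμpos i).le
    have := hp0 i z
    positivity
  · intro z
    have hg0 : ∀ i, 0 ≤ p i z / (μ i * (1 - p i z) ^ 2) := by
      intro i
      have := (hμpos i).le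
      have := hp0 i z
      positivity
    have hcs := Finset.sum_sq_le_sum_mul_sum_of_sq_eq_mul (s := (Finset.univ : Finset ι))
      (r := fun i => p i z / (1 - p i z) * (F i z - ∑ c, p i c * F i c))
      (f := fun i => μ i * p i z * (F i z - ∑ c, p i c * F i c) ^ 2)
      (g := fun i => p i z / (μ i * (1 - p i z) ^ 2))
      (fun i _ => by
        have := (hμpos i).le
        have := hp0 i z
        positivity)
      (fun i _ => hg0 i)
      (fun i _ => by
        have h1 := (hμpos i).ne'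
        have h2 : (1 - p i z) ≠ 0 := by
          have := hp3 i z
          linarith
        field_simp)
    refine hcs.trans ?_
    refine mul_le_mul_of_nonneg_left ?_ ?_
    · refine Finset.sum_le_sum fun i _ => ?_
      have h1 := hA (p i z) (mx (p i)) (hp0 i z) (CSaux.le_mx (p i) z) (hbound i).2
      have h2 := hμpos i
      have h3 : p i z / (1 - p i z) ^ 2 ≤ μ i * (-Real.log (1 - p i z)) := h1
      have h4 : p i z / (μ i * (1 - p i z) ^ 2) = (p i z / (1 - p i z) ^ 2) / μ i := by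
        rw [div_div, mul_comm]
      rw [h4, div_le_iff₀ h2, mul_comm _ (μ i)]
      exact h3
    · refine Finset.sum_nonneg fun i _ => ?_
      have := (hμpos i).le
      have := hp0 i z
      positivity
  · have e1 : ∑ z, ((∑ i, μ i * p i z * (F i z - ∑ c, p i c * F i c) ^ 2)
        + K * ∑ i, -Real.log (1 - p i z))
        = ∑ i, ∑ z, (μ i * p i z * (F i z - ∑ c, p i c * F i c) ^ 2
          + K * (-Real.log (1 - p i z))) := by
      rw [Finset.sum_comm]
      refine Finset.sum_congr rfl fun z _ => ?_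
      rw [Finset.sum_add_distrib, Finset.mul_sum]
    rw [e1]
    have e2 : ∀ i ∈ (Finset.univ : Finset ι), ∑ z, (μ i * p i z * (F i z - ∑ c, p i c * F i c) ^ 2
          + K * (-Real.log (1 - p i z))) ≤ 2 * K := fun i _ =>
      CSaux.one_index hB (p i) (F i) K (hp0 i) (hp1 i) (hp3 i) (hn i) hK
    refine (Finset.sum_le_sum e2).trans (le_of_eq ?_)
    rw [Finset.sum_const, Finset.card_univ, nsmul_eq_mul]
    ring

end Pool.Agent.KempeLG
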