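import Pool.Agent.Lib.MP_26a019_lc.LG.Spec

set_option autoImplicit false

/-!
# Influences multiply along a separating vertex
-/

open Finset Classical

namespace Pool.Agent.KempeLG

open Pool.Agent.Kempe Pool.Agent.KempeMix

variable {V C : Type} [Fintype V] [Fintype C]

theorem chain_mem_Om {G : SimpleGraph V} {T : Finset V} {p f : V → C} :
    f ∈ Om G T p ↔ Proper G f ∧ ∀ z ∈ T, f z = p z := by
  simp [Om]

theorem chain_Om_filter (G : SimpleGraph V) (T : Finset V) (p f0 : V → C) (x : V)
    (h0 : f0 ∈ Om G T p) :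
    (Om G T p).filter (fun f => f x = f0 x) = Om G (insert x T) f0 := by
  have h1 := (chain_mem_Om.1 h0).2
  ext f
  rw [Finset.mem_filter, chain_mem_Om, chain_mem_Om]
  constructor
  · rintro ⟨⟨hp, hT⟩, hx⟩
    refine ⟨hp, ?_⟩
    intro z hz
    rcases Finset.mem_insert.1 hz with rfl | hz
    · exact hx
    · rw [hT z hz, h1 z hz]
  · rintro ⟨hp, hT⟩
    refine ⟨⟨hp, fun z hz => ?_⟩, hT x (Finset.mem_insert_self _ _)⟩
    rw [hT z (Finset.mem_insert_of_mem hz), h1 z hz]

theorem chain_Om_congr (G : SimpleGraph V) (T : Finset V) (p q : V → C)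
    (h : ∀ z ∈ T, p z = q z) : Om G T p = Om G T q := by
  ext f
  rw [chain_mem_Om, chain_mem_Om]
  constructor
  · rintro ⟨hp, hT⟩
    exact ⟨hp, fun z hz => by rw [hT z hz, h z hz]⟩
  · rintro ⟨hp, hT⟩
    exact ⟨hp, fun z hz => by rw [hT z hz, h z hz]⟩

theorem chain_pr_congr (G : SimpleGraph V) (T : Finset V) (p q : V → C)
    (h : ∀ z ∈ T, p z = q z) (w : V) (c : C) : pr G T p w c = pr G T q w c := by
  unfold pr
  rw [chain_Om_congr G T p q h]

/-- independence: pinning `v` does not change the law of `f w` -/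
theorem chain_indep (h2 : IndepStmt) (h3 : PinStmt) (G : SimpleGraph V) (S : Finset V)
    (q : V → C) (v w : V) (hd : ∀ v, dg G v + 2 ≤ Fintype.card C) (hq : q ∈ PC G C)
    (hr : ¬ (cut G S).Reachable v w) (c : C) :
    pr G (insert v S) q w c = pr G S q w c := by
  obtain ⟨-, hwt, -⟩ := h3 V C G S q hd hq
  have hind := h2 V C (cut G S) (lst G S q) {u | (cut G S).Reachable v u}
    (fun f => if f v = q v then 1 else 0) (fun f => if f w = c then 1 else 0)
    (by
      intro u u' huu
      constructor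
      · intro hu
        exact hu.trans huu.reachable
      · intro hu
        exact hu.trans huu.symm.reachable)
    (by
      intro f f' hff
      have : f v = f' v := hff v (SimpleGraph.Reachable.refl v)
      simp only [this])
    (by
      intro f f' hff
      have : f w = f' w := hff w hr
      simp only [this])
  have hqm : q ∈ Om G S q := chain_mem_Om.2 ⟨(Finset.mem_filter.1 hq).2, fun _ _ => rfl⟩
  have e0 : ∀ F : (V → C) → ℝ, ∑ f, wt (cut G S) (lst G S q) f * F f = ∑ f ∈ Om G S q, F f := by
    intro F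
    have : ∀ f, wt (cut G S) (lst G S q) f * F f = if f ∈ Om G S q then F f else 0 := by
      intro f
      rw [hwt f]
      split_ifs <;> simp
    rw [Finset.sum_congr rfl (fun f _ => this f), ← Finset.sum_filter]
    congr 1
    ext f
    simp
  have eZ : Zp (cut G S) (lst G S q) = ((Om G S q).card : ℝ) := by
    have := e0 (fun _ => 1)
    simp only [mul_one] at this
    unfold Zp
    rw [this]
    simp
  have e1 : ∑ f ∈ Om G S q, (if f v = q v then (1 : ℝ) else 0) =
      ((Om G (insert v S) q).card : ℝ) := by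
    rw [← chain_Om_filter G S q q v hqm, Finset.card_filter]
    push_cast
    rfl
  have e2 : ∑ f ∈ Om G S q, (if f w = c then (1 : ℝ) else 0) =
      (((Om G S q).filter (fun f => f w = c)).card : ℝ) := by
    rw [Finset.card_filter]
    push_cast
    rfl
  have e3 : ∑ f ∈ Om G S q, ((if f v = q v then (1 : ℝ) else 0) *
      (if f w = c then (1 : ℝ) else 0)) =
      (((Om G (insert v S) q).filter (fun f => f w = c)).card : ℝ) := by
    rw [← chain_Om_filter G S q q v hqm, Finset.filter_filter, Finset.card_filter]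
    push_cast
    refine Finset.sum_congr rfl (fun f _ => ?_)
    by_cases ha : f v = q v <;> by_cases hb : f w = c <;> simp [ha, hb]
  rw [e0, e0, e0, eZ, e1, e2, e3] at hind
  have hpos1 : (0 : ℝ) < ((Om G S q).card : ℝ) := by
    exact_mod_cast Finset.card_pos.2 ⟨q, hqm⟩
  have hpos2 : (0 : ℝ) < ((Om G (insert v S) q).card : ℝ) := by
    have : q ∈ Om G (insert v S) q :=
      chain_mem_Om.2 ⟨(Finset.mem_filter.1 hq).2, fun _ _ => rfl⟩
    exact_mod_cast Finset.card_pos.2 ⟨q, this⟩
  unfold pr
  rw [div_eq_div_iff (ne_of_gt hpos2) (ne_of_gt hpos1), hind]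
  ring

/-- the conditional law of `f w` given `f x = d` -/
noncomputable def chainR (G : SimpleGraph V) (T : Finset V) (p : V → C) (x w : V)
    (d c : C) : ℝ :=
  if h : ∃ q ∈ Om G T p, q x = d then pr G (insert x T) h.choose w c else 0

theorem chainR_eq {G : SimpleGraph V} {T : Finset V} {p q : V → C} {x w : V} {d c : C}
    (hq : q ∈ Om G T p) (hx : q x = d) :
    chainR G T p x w d c = pr G (insert x T) q w c := by
  have h : ∃ q ∈ Om G T p, q x = d := ⟨q, hq, hx⟩
  unfold chainR
  rw [dif_pos h]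
  apply chain_pr_congr
  intro z hz
  obtain ⟨h1, h2⟩ := h.choose_spec
  rcases Finset.mem_insert.1 hz with rfl | hz
  · rw [h2, hx]
  · rw [(chain_mem_Om.1 h1).2 z hz, (chain_mem_Om.1 hq).2 z hz]

/-- joint law -/
theorem chain_joint (h2 : IndepStmt) (h3 : PinStmt) (G : SimpleGraph V) (T : Finset V)
    (p pa : V → C) (v x w : V) (hd : ∀ v, dg G v + 2 ≤ Fintype.card C)
    (hpa : pa ∈ Om G T p) (hr : ¬ (cut G (insert x T)).Reachable v w) (d c : C) :
    (((Om G (insert v T) pa).filter (fun f => f x = d ∧ f w = c)).card : ℝ) =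
      (((Om G (insert v T) pa).filter (fun f => f x = d)).card : ℝ) *
        chainR G T p x w d c := by
  by_cases he : ∃ f ∈ Om G (insert v T) pa, f x = d
  · obtain ⟨f0, hf0, hx0⟩ := he
    have hf0' := chain_mem_Om.1 hf0
    have hf0p : f0 ∈ Om G T p := by
      refine chain_mem_Om.2 ⟨hf0'.1, fun z hz => ?_⟩
      rw [hf0'.2 z (Finset.mem_insert_of_mem hz), (chain_mem_Om.1 hpa).2 z hz]
    have hpc : f0 ∈ PC G C := Finset.mem_filter.2 ⟨Finset.mem_univ _, hf0'.1⟩
    rw [chainR_eq hf0p hx0, ← chain_indep h2 h3 G (insert x T) f0 v w hd hpc hr c]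
    have e1 : (Om G (insert v T) pa).filter (fun f => f x = d) =
        Om G (insert v (insert x T)) f0 := by
      rw [← hx0, chain_Om_filter G (insert v T) pa f0 x hf0, Finset.insert_comm]
    rw [← Finset.filter_filter, e1]
    unfold pr
    have hpos : (0 : ℝ) < ((Om G (insert v (insert x T)) f0).card : ℝ) := by
      have : f0 ∈ Om G (insert v (insert x T)) f0 := chain_mem_Om.2 ⟨hf0'.1, fun _ _ => rfl⟩
      exact_mod_cast Finset.card_pos.2 ⟨f0, this⟩
    field_simp
  · have e1 : (Om G (insert v T) pa).filter (fun f => f x = d) = ∅ := by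
      apply Finset.filter_eq_empty_iff.2
      intro f hf hx
      exact he ⟨f, hf, hx⟩
    rw [← Finset.filter_filter, e1]
    simp

/-- law of total probability -/
theorem chain_total (h2 : IndepStmt) (h3 : PinStmt) (G : SimpleGraph V) (T : Finset V)
    (p pa : V → C) (v x w : V) (hd : ∀ v, dg G v + 2 ≤ Fintype.card C)
    (hpa : pa ∈ Om G T p) (hr : ¬ (cut G (insert x T)).Reachable v w) (c : C) :
    pr G (insert v T) pa w c = ∑ d, pr G (insert v T) pa x d * chainR G T p x w d c := by
  have h : (((Om G (insert v T) pa).filter (fun f => f w = c)).card : ℝ) =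
      ∑ d, (((Om G (insert v T) pa).filter (fun f => f x = d)).card : ℝ) *
        chainR G T p x w d c := by
    rw [Finset.sum_congr rfl (fun d _ =>
      (chain_joint h2 h3 G T p pa v x w hd hpa hr d c).symm)]
    rw [Finset.card_eq_sum_card_fiberwise (f := fun f : V → C => f x) (t := Finset.univ)
      (fun f _ => Finset.mem_coe.2 (Finset.mem_univ _))]
    push_cast
    refine Finset.sum_congr rfl (fun d _ => ?_)
    rw [Finset.filter_filter]
    congr 2
    ext f
    simp only [Finset.mem_filter]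
    tauto
  unfold pr
  rw [h, Finset.sum_div]
  refine Finset.sum_congr rfl (fun d _ => ?_)
  ring

theorem chain_pr_sum (G : SimpleGraph V) (T : Finset V) (pa : V → C) (v x : V)
    (hpa : Proper G pa) : ∑ d, pr G (insert v T) pa x d = 1 := by
  have hm : pa ∈ Om G (insert v T) pa := chain_mem_Om.2 ⟨hpa, fun _ _ => rfl⟩
  have hpos : (0 : ℝ) < ((Om G (insert v T) pa).card : ℝ) := by
    exact_mod_cast Finset.card_pos.2 ⟨pa, hm⟩
  have h : ((Om G (insert v T) pa).card : ℝ) =
      ∑ d, (((Om G (insert v T) pa).filter (fun f => f x = d)).card : ℝ) := by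
    rw [Finset.card_eq_sum_card_fiberwise (f := fun f : V → C => f x) (t := Finset.univ)
      (fun f _ => Finset.mem_coe.2 (Finset.mem_univ _))]
    push_cast
    rfl
  unfold pr
  rw [← Finset.sum_div, ← h, div_self (ne_of_gt hpos)]

theorem chain_le_infl (G : SimpleGraph V) (T : Finset V) (p : V → C) (v w : V)
    {pa pb : V → C} (ha : pa ∈ Om G T p) (hb : pb ∈ Om G T p) :
    del G T v w pa pb ≤ infl G T p v w := by
  have hfin : Finite {x : (V → C) × (V → C) // x.1 ∈ Om G T p ∧ x.2 ∈ Om G T p} := by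
    haveI : Finite (V → C) := inferInstance
    infer_instance
  have := le_ciSup (f := fun x : {x : (V → C) × (V → C) // x.1 ∈ Om G T p ∧ x.2 ∈ Om G T p} =>
    del G T v w x.1.1 x.1.2) (Set.finite_range _).bddAbove ⟨(pa, pb), ha, hb⟩
  exact this

theorem chain_del_nonneg (G : SimpleGraph V) (T : Finset V) (v w : V) (pa pb : V → C) :
    0 ≤ del G T v w pa pb := by
  unfold del
  have : 0 ≤ ∑ c, |pr G (insert v T) pa w c - pr G (insert v T) pb w c| :=
    Finset.sum_nonneg (fun c _ => abs_nonneg _)
  linarith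

theorem chain_infl_nonneg (G : SimpleGraph V) (T : Finset V) (p : V → C) (v w : V)
    (hp : p ∈ PC G C) : 0 ≤ infl G T p v w := by
  have hm : p ∈ Om G T p := chain_mem_Om.2 ⟨(Finset.mem_filter.1 hp).2, fun _ _ => rfl⟩
  exact le_trans (chain_del_nonneg G T v w p p) (chain_le_infl G T p v w hm hm)

theorem chain_pr_pos {G : SimpleGraph V} {T : Finset V} {p pa : V → C} {v x : V} {d : C}
    (hpa : pa ∈ Om G T p) (h : pr G (insert v T) pa x d ≠ 0) :
    ∃ q ∈ Om G T p, q x = d := by
  unfold pr at h
  have h1 : (((Om G (insert v T) pa).filter (fun f => f x = d)).card : ℝ) ≠ 0 := by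
    intro h0
    apply h
    rw [h0, zero_div]
  have h2 : ((Om G (insert v T) pa).filter (fun f => f x = d)).Nonempty := by
    rw [← Finset.card_pos]
    rcases Nat.eq_zero_or_pos ((Om G (insert v T) pa).filter (fun f => f x = d)).card with h0 | h0
    · exact absurd (by exact_mod_cast h0) h1
    · exact h0
  obtain ⟨q, hq⟩ := h2
  obtain ⟨hq1, hq2⟩ := Finset.mem_filter.1 hq
  refine ⟨q, chain_mem_Om.2 ⟨(chain_mem_Om.1 hq1).1, fun z hz => ?_⟩, hq2⟩
  rw [(chain_mem_Om.1 hq1).2 z (Finset.mem_insert_of_mem hz), (chain_mem_Om.1 hpa).2 z hz]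

theorem chain (h1 : TvStmt) (h2 : IndepStmt) (h3 : PinStmt) : ChainStmt := by
  intro V C _ _ G T p v x w hd hp hvT hvx hwx hr
  have hm : p ∈ Om G T p := chain_mem_Om.2 ⟨(Finset.mem_filter.1 hp).2, fun _ _ => rfl⟩
  haveI : Nonempty {x : (V → C) × (V → C) // x.1 ∈ Om G T p ∧ x.2 ∈ Om G T p} :=
    ⟨⟨(p, p), hm, hm⟩⟩
  show (⨆ x : {x : (V → C) × (V → C) // x.1 ∈ Om G T p ∧ x.2 ∈ Om G T p},
    del G T v w x.1.1 x.1.2) ≤ _
  refine ciSup_le ?_
  rintro ⟨⟨pa, pb⟩, ha, hb⟩
  simp only at ha hb ⊢
  have hsum : ∑ d, (pr G (insert v T) pa x d - pr G (insert v T) pb x d) = 0 := by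
    rw [Finset.sum_sub_distrib, chain_pr_sum G T pa v x (chain_mem_Om.1 ha).1,
      chain_pr_sum G T pb v x (chain_mem_Om.1 hb).1, sub_self]
  have hex : ∀ d, pr G (insert v T) pa x d - pr G (insert v T) pb x d ≠ 0 →
      ∃ q ∈ Om G T p, q x = d := by
    intro d hne
    by_cases h0 : pr G (insert v T) pa x d = 0
    · have : pr G (insert v T) pb x d ≠ 0 := by
        intro h0'
        apply hne
        rw [h0, h0', sub_self]
      exact chain_pr_pos hb this
    · exact chain_pr_pos ha h0
  have hR : ∀ d d', pr G (insert v T) pa x d - pr G (insert v T) pb x d ≠ 0 →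
      pr G (insert v T) pa x d' - pr G (insert v T) pb x d' ≠ 0 →
      ∑ e, |chainR G T p x w d e - chainR G T p x w d' e| ≤ 2 * infl G T p x w := by
    intro d d' hne hne'
    obtain ⟨q, hq, hqx⟩ := hex d hne
    obtain ⟨q', hq', hqx'⟩ := hex d' hne'
    have := chain_le_infl G T p x w hq hq'
    unfold del at this
    have e : ∑ e, |chainR G T p x w d e - chainR G T p x w d' e| =
        ∑ c, |pr G (insert x T) q w c - pr G (insert x T) q' w c| := by
      refine Finset.sum_congr rfl (fun c _ => ?_)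
      rw [chainR_eq hq hqx, chainR_eq hq' hqx']
    rw [e]
    linarith
  have hmain := h1 C C (fun d => pr G (insert v T) pa x d - pr G (insert v T) pb x d)
    (fun d e => chainR G T p x w d e) (2 * infl G T p x w) hsum hR
  have e1 : ∀ c, ∑ d, (pr G (insert v T) pa x d - pr G (insert v T) pb x d) *
      chainR G T p x w d c = pr G (insert v T) pa w c - pr G (insert v T) pb w c := by
    intro c
    rw [chain_total h2 h3 G T p pa v x w hd ha hr c, chain_total h2 h3 G T p pb v x w hd hb hr c,
      ← Finset.sum_sub_distrib]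
    exact Finset.sum_congr rfl (fun d _ => by ring)
  simp only [e1] at hmain
  have e2 : (1 / 2) * ∑ d, |pr G (insert v T) pa x d - pr G (insert v T) pb x d| =
      del G T v x pa pb := rfl
  rw [e2] at hmain
  have h4 : del G T v x pa pb ≤ infl G T p v x := chain_le_infl G T p v x ha hb
  have h5 : 0 ≤ infl G T p x w := chain_infl_nonneg G T p x w hp
  have h6 : infl G T p x w * del G T v x pa pb ≤ infl G T p x w * infl G T p v x :=
    mul_le_mul_of_nonneg_left h4 h5
  unfold del
  linarith

end Pool.Agent.KempeLG
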