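import Pool.Agent.Lib.MP_26a019_lc.LG.Spec

set_option autoImplicit false

/-!
# Choice of the constants
-/

open Finset Classical

namespace Pool.Agent.KempeLG

open Pool.Agent.Kempe Pool.Agent.KempeMix

theorem const_err (q : ℕ) (hq : 1 ≤ q) (ε : ℝ) (hε : 0 < ε) : ∃ k : ℕ, err q k ≤ ε := by
  have hq' : (1 : ℝ) ≤ (q : ℝ) := by exact_mod_cast hq
  have h40 : (0 : ℝ) < 40 * (q : ℝ) := by linarith
  have hx1 : 1 - 1 / (40 * (q : ℝ)) < 1 := by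
    have : 0 < 1 / (40 * (q : ℝ)) := by positivity
    linarith
  have hx0 : 0 ≤ 1 - 1 / (40 * (q : ℝ)) := by
    have : 1 / (40 * (q : ℝ)) ≤ 1 := by
      rw [div_le_one h40]
      linarith
    linarith
  have hlim := tendsto_pow_atTop_nhds_zero_of_lt_one hx0 hx1
  set K : ℝ := 4 * (q : ℝ) ^ 2 * (40 * q * (20 * q + 1) * (36 * q)) with hK
  have hKpos : 0 < K := by
    rw [hK]
    positivity
  have hpos : 0 < ε ^ 2 / K := by positivity
  obtain ⟨k, hk⟩ := ((hlim.eventually (gt_mem_nhds hpos)).exists)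
  refine ⟨k, ?_⟩
  unfold err
  rw [show ε = Real.sqrt (ε ^ 2) from (Real.sqrt_sq hε.le).symm]
  apply Real.sqrt_le_sqrt
  have h1 : (1 - 1 / (40 * (q : ℝ))) ^ k * K ≤ ε ^ 2 := by
    have := (lt_div_iff₀ hKpos).1 hk
    exact this.le
  calc 4 * (q : ℝ) ^ 2 * (1 - 1 / (40 * q)) ^ k * (40 * q * (20 * q + 1) * (36 * q))
      = (1 - 1 / (40 * (q : ℝ))) ^ k * K := by rw [hK]; ring
    _ ≤ ε ^ 2 := h1

theorem const : ConstStmt := by
  intro q hq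
  have hq' : (1 : ℝ) ≤ (q : ℝ) := by exact_mod_cast hq
  have hq0 : (0 : ℝ) < (q : ℝ) := by linarith
  obtain ⟨k1, hk1⟩ := const_err q hq (1 / (4 * (q : ℝ) ^ 2)) (by positivity)
  obtain ⟨k2, hk2⟩ := const_err q hq (1 / (4 * (q : ℝ) ^ (k1 + 1 + 2))) (by positivity)
  obtain ⟨J, hJ⟩ := ((tendsto_pow_atTop_nhds_zero_of_lt_one (show (0 : ℝ) ≤ 1 / 2 by norm_num)
    (show (1 / 2 : ℝ) < 1 by norm_num)).eventually
      (gt_mem_nhds (show (0 : ℝ) < 1 / (8 * (q : ℝ) ^ (k2 + 2 + 1)) by positivity))).exists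
  obtain ⟨k3, hk3⟩ := const_err q hq
    (1 / (16 * (q : ℝ) * (q : ℝ) ^ (J * (k1 + 1) + (k2 + 2) + 1))) (by positivity)
  refine ⟨k1 + 1, k2 + 2, J, k3 + 2, by omega, by omega, by omega, by omega, ?_, ?_, ?_⟩
  · have e1 : k1 + 1 - 1 = k1 := by omega
    have e2 : k2 + 2 - 2 = k2 := by omega
    rw [e1, e2]
    have h1 : (q : ℝ) ^ 2 * err q k1 ≤ 1 / 4 := by
      calc (q : ℝ) ^ 2 * err q k1 ≤ (q : ℝ) ^ 2 * (1 / (4 * (q : ℝ) ^ 2)) :=
            mul_le_mul_of_nonneg_left hk1 (by positivity)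
        _ = 1 / 4 := by field_simp
    have h2 : (q : ℝ) ^ (k1 + 1 + 2) * err q k2 ≤ 1 / 4 := by
      calc (q : ℝ) ^ (k1 + 1 + 2) * err q k2
          ≤ (q : ℝ) ^ (k1 + 1 + 2) * (1 / (4 * (q : ℝ) ^ (k1 + 1 + 2))) :=
            mul_le_mul_of_nonneg_left hk2 (by positivity)
        _ = 1 / 4 := by field_simp
    linarith
  · have h1 : (1 / 2 : ℝ) ^ J * (q : ℝ) ^ (k2 + 2 + 1) ≤
        1 / (8 * (q : ℝ) ^ (k2 + 2 + 1)) * (q : ℝ) ^ (k2 + 2 + 1) :=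
      mul_le_mul_of_nonneg_right hJ.le (by positivity)
    have h2 : 1 / (8 * (q : ℝ) ^ (k2 + 2 + 1)) * (q : ℝ) ^ (k2 + 2 + 1) = 1 / 8 := by
      field_simp
    linarith
  · have e2 : k3 + 2 - 2 = k3 := by omega
    rw [e2]
    have h1 : (q : ℝ) ^ (J * (k1 + 1) + (k2 + 2) + 1) * (2 * q * err q k3) ≤
        (q : ℝ) ^ (J * (k1 + 1) + (k2 + 2) + 1) * (2 * q *
          (1 / (16 * (q : ℝ) * (q : ℝ) ^ (J * (k1 + 1) + (k2 + 2) + 1)))) := by
      apply mul_le_mul_of_nonneg_left _ (by positivity)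
      exact mul_le_mul_of_nonneg_left hk3 (by positivity)
    have h2 : (q : ℝ) ^ (J * (k1 + 1) + (k2 + 2) + 1) * (2 * q *
          (1 / (16 * (q : ℝ) * (q : ℝ) ^ (J * (k1 + 1) + (k2 + 2) + 1)))) = 1 / 8 := by
      field_simp
      norm_num
    linarith

end Pool.Agent.KempeLG
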