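import Pool.Agent.Lib.MP_26a019_lc.LG.Spec

set_option autoImplicit false

/-!
# Number of vertices near a vertex
-/

open Finset Classical

namespace Pool.Agent.KempeLG

open Pool.Agent.Kempe Pool.Agent.KempeMix

private theorem count_nat {V : Type} [Fintype V] (G : SimpleGraph V) (q : ℕ)
    (hq : ∀ v, dg G v + 2 ≤ q) : ∀ (k : ℕ) (v : V),
    (univ.filter (fun u => near G v k u)).card ≤ q ^ k := by
  intro k
  induction k with
  | zero =>
    intro v
    have : univ.filter (fun u => near G v 0 u) = ∅ := by
      rw [Finset.filter_eq_empty_iff]
      rintro u _ ⟨w, hw⟩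
      omega
    rw [this]
    simp
  | succ k ih =>
    intro v
    have hsub : univ.filter (fun u => near G v (k + 1) u)
        ⊆ {v} ∪ (nb G v).biUnion (fun x => univ.filter (fun u => near G x k u)) := by
      intro u hu
      simp only [Finset.mem_filter, Finset.mem_univ, true_and] at hu
      obtain ⟨w, hw⟩ := hu
      cases w with
      | nil => simp
      | cons h w' =>
        rename_i x
        rw [SimpleGraph.Walk.length_cons] at hw
        rw [Finset.mem_union]
        right
        rw [Finset.mem_biUnion]
        refine ⟨x, ?_, ?_⟩
        · simp only [nb, Finset.mem_filter, Finset.mem_univ, true_and]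
          exact h
        · simp only [Finset.mem_filter, Finset.mem_univ, true_and]
          exact ⟨w', by omega⟩
    have h1 := Finset.card_le_card hsub
    have h2 := Finset.card_union_le ({v} : Finset V)
      ((nb G v).biUnion (fun x => univ.filter (fun u => near G x k u)))
    have h3 : ((nb G v).biUnion (fun x => univ.filter (fun u => near G x k u))).card
        ≤ (nb G v).card * q ^ k :=
      Finset.card_biUnion_le_card_mul _ _ _ fun x _ => ih x
    rw [Finset.card_singleton] at h2
    have h4 : (nb G v).card + 2 ≤ q := hq v
    have h5 : 1 ≤ q ^ k := Nat.one_le_pow _ _ (by omega)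
    have h6 : (nb G v).card * q ^ k + 2 * q ^ k ≤ q * q ^ k := by
      rw [← add_mul]
      exact Nat.mul_le_mul_right _ h4
    rw [pow_succ']
    omega

theorem count : CountStmt := by
  intro V _ G q hq v k
  exact_mod_cast count_nat G q hq k v

end Pool.Agent.KempeLG
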