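import Pool.Agent.Lib.MP_26a019_lc.Mix.MDefs

set_option autoImplicit false

/-!
# Glauber dynamics with `Δ + 2` colours on graphs of large girth: definitions

Soft list colourings: `φ v c` is the activity of the colour `c` at the vertex `v`.
-/

open Finset Classical

namespace Pool.Agent.KempeLG

open Pool.Agent.Kempe Pool.Agent.KempeMix

/-! ## norms on functions of one colour -/

/-- weight of the norm, `P` is the largest probability -/
noncomputable def eta (P : ℝ) : ℝ := 1 / ((1 - P) ^ 3 * (1 + P / 2) ^ 2)

/-- maximum of a function on a finite type -/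
noncomputable def mx {C : Type} (p : C → ℝ) : ℝ := ⨆ c, p c

/-- `eta (max p) * Var_p F` -/
noncomputable def nrm {C : Type} [Fintype C] (p F : C → ℝ) : ℝ :=
  eta (mx p) * ∑ z, p z * (F z - ∑ c, p c * F c) ^ 2

/-- exponentially small error -/
noncomputable def err (q k : ℕ) : ℝ :=
  Real.sqrt (4 * (q : ℝ) ^ 2 * (1 - 1 / (40 * q)) ^ k * (40 * q * (20 * q + 1) * (36 * q)))

variable {V C : Type} [Fintype V] [Fintype C]

/-- neighbours -/
noncomputable def nb (H : SimpleGraph V) (v : V) : Finset V := univ.filter (fun u => H.Adj v u)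

/-- degree -/
noncomputable def dg (H : SimpleGraph V) (v : V) : ℕ := (nb H v).card

/-- delete all edges which touch `T` -/
def cut {V : Type} (H : SimpleGraph V) (T : Finset V) : SimpleGraph V where
  Adj u w := H.Adj u w ∧ u ∉ T ∧ w ∉ T
  symm := ⟨fun _ _ h => ⟨h.1.symm, h.2.2, h.2.1⟩⟩
  loopless := ⟨fun u h => H.loopless.irrefl u h.1⟩

/-- `u` can be reached from `v` by a walk with less than `k` edges -/
def near {V : Type} (H : SimpleGraph V) (v : V) (k : ℕ) (u : V) : Prop :=
  ∃ w : H.Walk v u, w.length < k

/-- vertices at distance exactly `k` from `v` -/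
noncomputable def sph (H : SimpleGraph V) (v : V) (k : ℕ) : Finset V :=
  univ.filter (fun u => near H v (k + 1) u ∧ ¬ near H v k u)

/-! ## soft list colourings -/

/-- weight of a configuration -/
noncomputable def wt (H : SimpleGraph V) (φ : V → C → ℝ) (f : V → C) : ℝ :=
  if Proper H f then ∏ v, φ v (f v) else 0

/-- partition function -/
noncomputable def Zp (H : SimpleGraph V) (φ : V → C → ℝ) : ℝ := ∑ f, wt H φ f

/-- expectation -/
noncomputable def Ex (H : SimpleGraph V) (φ : V → C → ℝ) (F : (V → C) → ℝ) : ℝ :=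
  (∑ f, wt H φ f * F f) / Zp H φ

/-- marginal probability of `f v = z` -/
noncomputable def mg (H : SimpleGraph V) (φ : V → C → ℝ) (v : V) (z : C) : ℝ :=
  Ex H φ (fun f => if f v = z then 1 else 0)

/-- conditional expectation given `f v = z` (zero if this has probability zero) -/
noncomputable def cEx (H : SimpleGraph V) (φ : V → C → ℝ) (v : V) (z : C)
    (F : (V → C) → ℝ) : ℝ :=
  Ex H φ (fun f => (if f v = z then 1 else 0) * F f) / mg H φ v z

/-- Soft lists in `[0,1]`, with slack two on the vertices which are not isolated. -/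
structure Good (H : SimpleGraph V) (φ : V → C → ℝ) : Prop where
  nonneg : ∀ v c, 0 ≤ φ v c
  le_one : ∀ v c, φ v c ≤ 1
  pos : ∀ v, 0 < ∑ c, φ v c
  slack : ∀ v, 0 < dg H v → (dg H v : ℝ) + 2 ≤ ∑ c, φ v c

/-! ## the path between two families of soft lists -/

/-- reparametrisation of time -/
noncomputable def tt (s : ℝ) : ℝ := 3 * s ^ 2 - 2 * s ^ 3

/-- derivative of `tt` -/
noncomputable def tt' (s : ℝ) : ℝ := 6 * s - 6 * s ^ 2

/-- the soft lists at time `s` -/
noncomputable def Phi (φ ψ : V → C → ℝ) (s : ℝ) : V → C → ℝ :=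
  fun u c => (1 - tt s) * φ u c + tt s * ψ u c

/-- logarithmic derivative of `Phi` -/
noncomputable def hh (φ ψ : V → C → ℝ) (s : ℝ) : V → C → ℝ :=
  fun u c => tt' s * (ψ u c - φ u c) / Phi φ ψ s u c

/-! ## pinned uniform colourings -/

/-- the lists of the colourings of `G` which agree with `p` on `T` -/
noncomputable def lst (G : SimpleGraph V) (T : Finset V) (p : V → C) : V → C → ℝ :=
  fun u z => if u ∈ T then (if z = p u then 1 else 0) else
    (if ∀ w ∈ T, G.Adj u w → p w ≠ z then 1 else 0)

/-- probability of `f w = c` for a uniform proper colouring which agrees with `p` on `T` -/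
noncomputable def pr (G : SimpleGraph V) (T : Finset V) (p : V → C) (w : V) (c : C) : ℝ :=
  (((Om G T p).filter (fun f => f w = c)).card : ℝ) / ((Om G T p).card : ℝ)

/-- total variation distance of the laws of `f w` when `v` is pinned by `pa` or by `pb` -/
noncomputable def del (G : SimpleGraph V) (T : Finset V) (v w : V) (pa pb : V → C) : ℝ :=
  (1 / 2) * ∑ c, |pr G (insert v T) pa w c - pr G (insert v T) pb w c|

/-- influence of `v` on `w` given the pinning of `T` by `p` -/
noncomputable def infl (G : SimpleGraph V) (T : Finset V) (p : V → C) (v w : V) : ℝ :=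
  ⨆ x : {x : (V → C) × (V → C) // x.1 ∈ Om G T p ∧ x.2 ∈ Om G T p}, del G T v w x.1.1 x.1.2

/-- total influence of `v` -/
noncomputable def tot (G : SimpleGraph V) (T : Finset V) (v : V) (pa pb : V → C) : ℝ :=
  ∑ u, ∑ c, |pr G (insert v T) pa u c - pr G (insert v T) pb u c|

end Pool.Agent.KempeLG
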