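import Pool.Agent.Lib.MP_26a019_lc.LG.Spec

set_option autoImplicit false

open Finset Classical

namespace Pool.Agent.KempeLG

open Pool.Agent.Kempe Pool.Agent.KempeMix

section DelTree

variable {V C : Type} [Fintype V] [Fintype C]

theorem dt_mem_Om (G : SimpleGraph V) (S : Finset V) (p f : V → C) :
    f ∈ Om G S p ↔ Proper G f ∧ ∀ z ∈ S, f z = p z := by
  unfold Om; simp

/-- tower property of the conditional laws -/
theorem dt_tower (G : SimpleGraph V) (S S' : Finset V) (hSS : S ⊆ S') (p : V → C) (w : V) (c : C) :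
    ∑ x ∈ Om G S p, pr G S' x w c = (((Om G S p).filter (fun f => f w = c)).card : ℝ) := by
  -- the class of `x` inside `Om G S p`
  have hcls : ∀ x ∈ Om G S p, ∀ f : V → C, f ∈ Om G S' x ↔
      (f ∈ Om G S p ∧ ∀ z ∈ S', f z = x z) := by
    intro x hx f
    rw [dt_mem_Om] at hx
    rw [dt_mem_Om, dt_mem_Om]
    constructor
    · rintro ⟨h1, h2⟩
      exact ⟨⟨h1, fun z hz => (h2 z (hSS hz)).trans (hx.2 z hz)⟩, h2⟩
    · rintro ⟨⟨h1, _⟩, h2⟩
      exact ⟨h1, h2⟩
  have hcard : ∀ x f : V → C, (∀ z ∈ S', f z = x z) → Om G S' x = Om G S' f := by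
    intro x f h
    ext g
    rw [dt_mem_Om, dt_mem_Om]
    constructor
    · rintro ⟨h1, h2⟩
      exact ⟨h1, fun z hz => (h2 z hz).trans (h z hz).symm⟩
    · rintro ⟨h1, h2⟩
      exact ⟨h1, fun z hz => (h2 z hz).trans (h z hz)⟩
  have e1 : ∀ x ∈ Om G S p, pr G S' x w c =
      ∑ f ∈ Om G S p, if ((∀ z ∈ S', f z = x z) ∧ f w = c) then
        (1 / ((Om G S' f).card : ℝ)) else 0 := by
    intro x hx
    unfold pr
    rw [← Finset.sum_filter]
    have : (Om G S p).filter (fun f => (∀ z ∈ S', f z = x z) ∧ f w = c) =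
        (Om G S' x).filter (fun f => f w = c) := by
      ext f
      rw [Finset.mem_filter, Finset.mem_filter, hcls x hx f]
      tauto
    rw [this]
    rw [Finset.sum_congr rfl (g := fun _ => 1 / ((Om G S' x).card : ℝ))]
    · rw [Finset.sum_const, nsmul_eq_mul]; ring
    · intro f hf
      rw [Finset.mem_filter, dt_mem_Om] at hf
      rw [hcard x f hf.1.2]
  rw [Finset.sum_congr rfl e1, Finset.sum_comm]
  have e2 : ∀ f ∈ Om G S p, (∑ x ∈ Om G S p, if ((∀ z ∈ S', f z = x z) ∧ f w = c) then
        (1 / ((Om G S' f).card : ℝ)) else 0) = if f w = c then 1 else 0 := by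
    intro f hf
    by_cases hfc : f w = c
    · rw [if_pos hfc]
      rw [← Finset.sum_filter]
      have : (Om G S p).filter (fun x => (∀ z ∈ S', f z = x z) ∧ f w = c) = Om G S' f := by
        ext x
        rw [Finset.mem_filter, hcls f hf x]
        constructor
        · rintro ⟨h1, h2, _⟩
          exact ⟨h1, fun z hz => (h2 z hz).symm⟩
        · rintro ⟨h1, h2⟩
          exact ⟨h1, fun z hz => (h2 z hz).symm, hfc⟩
      rw [this, Finset.sum_const, nsmul_eq_mul]
      have hne : ((Om G S' f).card : ℝ) ≠ 0 := by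
        have : f ∈ Om G S' f := by
          rw [dt_mem_Om] at hf ⊢
          exact ⟨hf.1, fun _ _ => rfl⟩
        have := Finset.card_pos.2 ⟨f, this⟩
        exact_mod_cast this.ne'
      field_simp
    · rw [if_neg hfc]
      apply Finset.sum_eq_zero
      intro x _
      rw [if_neg]
      exact fun h => hfc h.2
  rw [Finset.sum_congr rfl e2, ← Finset.sum_filter, Finset.sum_const, nsmul_eq_mul, mul_one]

theorem dt_cmp (G : SimpleGraph V) (S S' : Finset V) (hSS : S ⊆ S') (p1 p2 : V → C)
    (hp1 : p1 ∈ PC G C) (w : V) (c : C) (ε : ℝ)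
    (h : ∀ x ∈ Om G S p1, |pr G S' x w c - pr G S' p2 w c| ≤ ε) :
    |pr G S p1 w c - pr G S' p2 w c| ≤ ε := by
  have hmem : p1 ∈ Om G S p1 := by
    rw [dt_mem_Om]
    refine ⟨?_, fun _ _ => rfl⟩
    unfold PC at hp1
    exact (Finset.mem_filter.1 hp1).2
  have hN : (0 : ℝ) < ((Om G S p1).card : ℝ) := by
    exact_mod_cast Finset.card_pos.2 ⟨p1, hmem⟩
  have e : pr G S p1 w c - pr G S' p2 w c =
      (∑ x ∈ Om G S p1, (pr G S' x w c - pr G S' p2 w c)) / ((Om G S p1).card : ℝ) := by
    rw [Finset.sum_sub_distrib, dt_tower G S S' hSS p1 w c, Finset.sum_const, nsmul_eq_mul]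
    unfold pr
    field_simp
  rw [e, abs_div, abs_of_pos hN, div_le_iff₀ hN]
  calc |∑ x ∈ Om G S p1, (pr G S' x w c - pr G S' p2 w c)|
      ≤ ∑ x ∈ Om G S p1, |pr G S' x w c - pr G S' p2 w c| := Finset.abs_sum_le_sum_abs _ _
    _ ≤ ∑ _x ∈ Om G S p1, ε := Finset.sum_le_sum h
    _ = ε * ((Om G S p1).card : ℝ) := by rw [Finset.sum_const, nsmul_eq_mul]; ring

end DelTree

theorem delTree (h1 : PinSsmStmt) (h2 : GreedyStmt) (h3 : InflStmt) : DelTreeStmt := by
  intro V C _ _ G B T v w R r' pa pb hdg hr' hR hB hac hv hpa hpb hw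
  have hpaP : Proper G pa := (Finset.mem_filter.1 hpa).2
  have hpb' := (dt_mem_Om G T pa pb).1 hpb
  have hpbPC : pb ∈ PC G C := by
    unfold PC; exact Finset.mem_filter.2 ⟨Finset.mem_univ _, hpb'.1⟩
  have hnearw : near G v (R + 1) w := (Finset.mem_filter.1 hw).2.1
  have hmemB : ∀ u, u ∈ B ↔ ¬ near G v (R + r' + 1) u := by
    intro u; rw [hB]; simp
  -- vertices near `w` are not in `B`
  have hnotB : ∀ u, near G w r' u → u ∉ B := by
    intro u hu hub
    rw [hmemB] at hub
    obtain ⟨q1, hq1⟩ := hnearw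
    obtain ⟨q2, hq2⟩ := hu
    apply hub
    refine ⟨q1.append q2, ?_⟩
    rw [SimpleGraph.Walk.length_append]
    omega
  -- neighbours of `v` are not in `B`
  have hnbB : ∀ u, G.Adj v u → u ∉ B := by
    intro u hu hub
    rw [hmemB] at hub
    apply hub
    refine ⟨SimpleGraph.Walk.cons hu SimpleGraph.Walk.nil, ?_⟩
    rw [SimpleGraph.Walk.length_cons, SimpleGraph.Walk.length_nil]
    omega
  have hvB : v ∉ B := by
    intro hvb
    rw [hmemB] at hvb
    exact hvb ⟨SimpleGraph.Walk.nil, by rw [SimpleGraph.Walk.length_nil]; omega⟩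
  set S := insert v T with hS
  set S' := insert v (T ∪ B) with hS'
  have hSS : S ⊆ S' := Finset.insert_subset_insert v Finset.subset_union_left
  have hacS' : (cut G S').IsAcyclic := by
    refine hac.anti ?_
    intro x y hxy
    refine ⟨hxy.1, fun hx => hxy.2.1 ?_, fun hy => hxy.2.2 ?_⟩
    · exact Finset.mem_insert_of_mem (Finset.mem_union_right _ hx)
    · exact Finset.mem_insert_of_mem (Finset.mem_union_right _ hy)
  -- existence of `pb'`
  have hg := h2 V C G (fun _ => Finset.univ) S' (fun u => if u = v then pb v else pa u) (by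
      intro u hu x hx hadj
      have hrestr : ∀ z ∈ S', z ≠ v → G.Adj v z → pa z = pb z := by
        intro z hz hzv hz2
        rcases Finset.mem_insert.1 hz with h | h
        · exact absurd h hzv
        · rcases Finset.mem_union.1 h with h | h
          · exact (hpb'.2 z h).symm
          · exact absurd h (hnbB z hz2)
      by_cases huv : u = v
      · by_cases hxv : x = v
        · rw [huv, hxv] at hadj
          exact absurd hadj (G.loopless.irrefl v)
        · simp only [if_pos huv, if_neg hxv]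
          rw [huv] at hadj
          rw [hrestr x hx hxv hadj]
          exact hpb'.1 v x hadj
      · by_cases hxv : x = v
        · simp only [if_neg huv, if_pos hxv]
          rw [hxv] at hadj
          rw [hrestr u hu huv hadj.symm]
          exact hpb'.1 u v hadj
        · simp only [if_neg huv, if_neg hxv]
          exact hpaP u x hadj) (by
      intro u _
      have := hdg u
      rw [Finset.card_univ]
      omega)
  obtain ⟨pc, hpcP, hpcS, _⟩ := hg
  have hpcPC : pc ∈ PC G C := by
    unfold PC; exact Finset.mem_filter.2 ⟨Finset.mem_univ _, hpcP⟩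
  have hpcv : pc v = pb v := by
    have := hpcS v (Finset.mem_insert_self _ _)
    simpa using this
  have hpcTB : ∀ u ∈ T ∪ B, pc u = pa u := by
    intro u hu
    have huv : u ≠ v := by
      rintro rfl
      rcases Finset.mem_union.1 hu with h | h
      · exact hv h
      · exact hvB h
    have := hpcS u (Finset.mem_insert_of_mem hu)
    simpa [if_neg huv] using this
  have hpcOm : pc ∈ Om G (T ∪ B) pa := (dt_mem_Om _ _ _ _).2 ⟨hpcP, hpcTB⟩
  have hpaOm : pa ∈ Om G (T ∪ B) pa := (dt_mem_Om _ _ _ _).2 ⟨hpaP, fun _ _ => rfl⟩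
  -- the comparison
  have hcmp : ∀ p1 ∈ PC G C, ∀ p2 ∈ PC G C, (∀ u ∈ S, p1 u = p2 u) → ∀ c : C,
      |pr G S p1 w c - pr G S' p2 w c| ≤ err (Fintype.card C) (r' - 2) := by
    intro p1 hp1 p2 hp2 hagree c
    apply dt_cmp G S S' hSS p1 p2 hp1 w c
    intro x hx
    rw [dt_mem_Om] at hx
    have hxPC : x ∈ PC G C := by
      unfold PC; exact Finset.mem_filter.2 ⟨Finset.mem_univ _, hx.1⟩
    apply h1 V C G S' S' x p2 w c r' hr' hdg hxPC hp2 hacS' hacS'
    intro u hu
    refine ⟨Iff.rfl, fun huS => ?_⟩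
    have huB := hnotB u hu
    have huS2 : u ∈ S := by
      rcases Finset.mem_insert.1 huS with h | h
      · rw [h]; exact Finset.mem_insert_self _ _
      · rcases Finset.mem_union.1 h with h | h
        · exact Finset.mem_insert_of_mem h
        · exact absurd h huB
    rw [hx.2 u huS2, hagree u huS2]
  have hA := hcmp pa hpa pa hpa (fun _ _ => rfl)
  have hBb := hcmp pb hpbPC pc hpcPC (by
    intro u hu
    rcases Finset.mem_insert.1 hu with h | h
    · rw [h, hpcv]
    · rw [hpcTB u (Finset.mem_union_left _ h), hpb'.2 u h])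
  have hinf := (h3 V C G (T ∪ B) pa v w hdg hpa).2.2.2.2 pa hpaOm pc hpcOm
  set ε := err (Fintype.card C) (r' - 2) with hε
  have hsum : ∑ c, |pr G S pa w c - pr G S pb w c| ≤
      ∑ c, (|pr G S' pa w c - pr G S' pc w c| + 2 * ε) := by
    apply Finset.sum_le_sum
    intro c _
    have a1 := hA c
    have a2 := hBb c
    have e : pr G S pa w c - pr G S pb w c = (pr G S pa w c - pr G S' pa w c) +
        (pr G S' pa w c - pr G S' pc w c) - (pr G S pb w c - pr G S' pc w c) := by ring
    rw [e]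
    have t1 := abs_sub ((pr G S pa w c - pr G S' pa w c) +
        (pr G S' pa w c - pr G S' pc w c)) (pr G S pb w c - pr G S' pc w c)
    have t2 := abs_add_le (pr G S pa w c - pr G S' pa w c) (pr G S' pa w c - pr G S' pc w c)
    linarith
  rw [Finset.sum_add_distrib, Finset.sum_const, Finset.card_univ, nsmul_eq_mul] at hsum
  have hε0 : 0 ≤ ε := Real.sqrt_nonneg _
  have hq0 : (0 : ℝ) ≤ (Fintype.card C : ℝ) := Nat.cast_nonneg _
  have hprod := mul_nonneg hq0 hε0
  unfold del at hinf ⊢
  rw [← hS]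
  rw [← hS'] at hinf
  nlinarith [hsum, hinf, hprod]

end Pool.Agent.KempeLG
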