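import Pool.Agent.Lib.MP_26a019_lc.LG.Spec

set_option autoImplicit false

/-!
# Derivative of the marginals along a path of soft lists
-/

open Finset Classical

namespace Pool.Agent.KempeLG

open Pool.Agent.Kempe Pool.Agent.KempeMix

namespace Deriv

lemma tt_nonneg {s : ℝ} (h0 : 0 ≤ s) (h1 : s ≤ 1) : 0 ≤ tt s := by
  have : tt s = s ^ 2 * (3 - 2 * s) := by
    unfold tt
    ring
  rw [this]
  apply mul_nonneg (sq_nonneg _)
  linarith

lemma tt_le_one {s : ℝ} (h0 : 0 ≤ s) (_h1 : s ≤ 1) : tt s ≤ 1 := by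
  have : 1 - tt s = (1 - s) ^ 2 * (1 + 2 * s) := by
    unfold tt
    ring
  have h2 : 0 ≤ (1 - s) ^ 2 * (1 + 2 * s) := by
    apply mul_nonneg (sq_nonneg _)
    linarith
  linarith

lemma sq_le_tt {s : ℝ} (_h0 : 0 ≤ s) (h1 : s ≤ 1) : s ^ 2 ≤ tt s := by
  have : tt s = s ^ 2 * (3 - 2 * s) := by
    unfold tt
    ring
  rw [this]
  apply le_mul_of_one_le_right (sq_nonneg _)
  linarith

lemma sq_le_one_sub_tt {s : ℝ} (h0 : 0 ≤ s) : (1 - s) ^ 2 ≤ 1 - tt s := by
  have : 1 - tt s = (1 - s) ^ 2 * (1 + 2 * s) := by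
    unfold tt
    ring
  rw [this]
  apply le_mul_of_one_le_right (sq_nonneg _)
  linarith

variable {V C : Type} [Fintype V] [Fintype C] {H : SimpleGraph V} {φ ψ : V → C → ℝ}

lemma good (hφ : Good H φ) (hψ : Good H ψ) {s : ℝ} (h0 : 0 ≤ s) (h1 : s ≤ 1) :
    Good H (Phi φ ψ s) := by
  have ht0 := tt_nonneg h0 h1
  have ht1 := tt_le_one h0 h1
  have ht1' : 0 ≤ 1 - tt s := by linarith
  have hsum : ∀ v, ∑ c, Phi φ ψ s v c = (1 - tt s) * ∑ c, φ v c + tt s * ∑ c, ψ v c := by
    intro v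
    unfold Phi
    rw [Finset.sum_add_distrib, Finset.mul_sum, Finset.mul_sum]
  refine ⟨?_, ?_, ?_, ?_⟩
  · intro v c
    have h2 := hφ.nonneg v c
    have h3 := hψ.nonneg v c
    unfold Phi
    positivity
  · intro v c
    have h2 := mul_le_mul_of_nonneg_left (hφ.le_one v c) ht1'
    have h3 := mul_le_mul_of_nonneg_left (hψ.le_one v c) ht0
    unfold Phi
    linarith
  · intro v
    rw [hsum]
    have h2 := hφ.pos v
    have h3 := hψ.pos v
    rcases ht0.lt_or_eq with h | h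
    · have : 0 ≤ (1 - tt s) * ∑ c, φ v c := by positivity
      have : 0 < tt s * ∑ c, ψ v c := by positivity
      linarith
    · rw [← h]
      simpa using h2
  · intro v hv
    rw [hsum]
    have h2 := mul_le_mul_of_nonneg_left (hφ.slack v hv) ht1'
    have h3 := mul_le_mul_of_nonneg_left (hψ.slack v hv) ht0
    nlinarith

lemma hasDeriv_tt (s : ℝ) : HasDerivAt tt (tt' s) s := by
  have h1 : HasDerivAt (fun s : ℝ => 3 * s ^ 2 - 2 * s ^ 3)
      (3 * (2 * s) - 2 * (3 * s ^ 2)) s := by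
    have a1 := (hasDerivAt_pow 2 s).const_mul (3 : ℝ)
    have a2 := (hasDerivAt_pow 3 s).const_mul (2 : ℝ)
    have a3 := a1.sub a2
    refine a3.congr_deriv ?_
    norm_num
  refine h1.congr_deriv ?_
  unfold tt'
  ring

lemma hasDeriv_Phi (u : V) (c : C) (s : ℝ) :
    HasDerivAt (fun s => Phi φ ψ s u c) (tt' s * (ψ u c - φ u c)) s := by
  have h1 := ((hasDeriv_tt s).const_sub 1).mul_const (φ u c)
  have h2 := (hasDeriv_tt s).mul_const (ψ u c)
  have h3 := h1.add h2
  refine h3.congr_deriv ?_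
  ring

lemma Phi_mul_hh (hφ : Good H φ) (hψ : Good H ψ) {s : ℝ} (h0 : 0 < s) (h1 : s < 1)
    (u : V) (c : C) : Phi φ ψ s u c * hh φ ψ s u c = tt' s * (ψ u c - φ u c) := by
  by_cases h : Phi φ ψ s u c = 0
  · have a1 : 0 < tt s := lt_of_lt_of_le (by positivity) (sq_le_tt h0.le h1.le)
    have a2 : 0 < 1 - tt s := by
      have : 0 < 1 - s := by linarith
      exact lt_of_lt_of_le (by positivity) (sq_le_one_sub_tt h0.le)
    have b1 := hφ.nonneg u c
    have b2 := hψ.nonneg u c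
    have h' : (1 - tt s) * φ u c + tt s * ψ u c = 0 := h
    have c1 : 0 ≤ (1 - tt s) * φ u c := by positivity
    have c2 : 0 ≤ tt s * ψ u c := by positivity
    have d1 : φ u c = 0 := by
      have : (1 - tt s) * φ u c = 0 := by linarith
      exact (mul_eq_zero.mp this).resolve_left a2.ne'
    have d2 : ψ u c = 0 := by
      have : tt s * ψ u c = 0 := by linarith
      exact (mul_eq_zero.mp this).resolve_left a1.ne'
    rw [h, d1, d2]
    ring
  · unfold hh
    rw [mul_div_cancel₀ _ h]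

lemma hasDeriv_wt (hφ : Good H φ) (hψ : Good H ψ) {s : ℝ} (h0 : 0 < s) (h1 : s < 1)
    (f : V → C) : HasDerivAt (fun s => wt H (Phi φ ψ s) f)
      (wt H (Phi φ ψ s) f * ∑ u, hh φ ψ s u (f u)) s := by
  unfold wt
  by_cases hf : Proper H f
  · simp only [if_pos hf]
    have h2 := HasDerivAt.fun_finset_prod (u := (Finset.univ : Finset V))
      (f := fun u s => Phi φ ψ s u (f u))
      (f' := fun u => tt' s * (ψ u (f u) - φ u (f u))) (x := s)
      (fun u _ => hasDeriv_Phi u (f u) s)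
    refine h2.congr_deriv ?_
    rw [Finset.mul_sum]
    refine Finset.sum_congr rfl (fun u hu => ?_)
    rw [← Phi_mul_hh hφ hψ h0 h1, smul_eq_mul, ← mul_assoc, Finset.prod_erase_mul _ _ hu]
  · simp only [if_neg hf, zero_mul]
    exact hasDerivAt_const s 0

lemma continuous_wt (f : V → C) : Continuous (fun s => wt H (Phi φ ψ s) f) := by
  unfold wt
  by_cases hf : Proper H f
  · simp only [if_pos hf]
    refine continuous_finsetProd _ (fun u _ => ?_)
    exact continuous_iff_continuousAt.mpr (fun s => (hasDeriv_Phi u (f u) s).continuousAt)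
  · simp only [if_neg hf]
    exact continuous_const

lemma bound (hφ : Good H φ) (hψ : Good H ψ) {s : ℝ} (h0 : 0 < s) (h1 : s < 1)
    (u : V) (c : C) : Phi φ ψ s u c * (hh φ ψ s u c) ^ 2 ≤ 36 := by
  have g := good hφ hψ h0.le h1.le
  have hP := g.nonneg u c
  rcases hP.lt_or_eq with h | h
  swap
  · rw [← h]
    norm_num
  have hne : Phi φ ψ s u c ≠ 0 := h.ne'
  have e1 : Phi φ ψ s u c * (hh φ ψ s u c) ^ 2
      = (tt' s * (ψ u c - φ u c)) ^ 2 / Phi φ ψ s u c := by
    unfold hh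
    field_simp
  rw [e1, div_le_iff₀ h]
  have b1 := hφ.nonneg u c
  have b2 := hψ.nonneg u c
  have b3 := hφ.le_one u c
  have b4 := hψ.le_one u c
  have t0 := tt_nonneg h0.le h1.le
  have t1 := tt_le_one h0.le h1.le
  have t1' : 0 ≤ 1 - tt s := by linarith
  have ht' : tt' s = 6 * (s * (1 - s)) := by
    unfold tt'
    ring
  have hs1 : 0 < 1 - s := by linarith
  have hP' : Phi φ ψ s u c = (1 - tt s) * φ u c + tt s * ψ u c := rfl
  rcases le_total (φ u c) (ψ u c) with hle | hle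
  · have e2 : (ψ u c - φ u c) ^ 2 ≤ ψ u c := by nlinarith
    have e3 : (tt' s) ^ 2 ≤ 36 * tt s := by
      have k1 := sq_le_tt h0.le h1.le
      have k2 : (s * (1 - s)) ^ 2 ≤ s ^ 2 := by
        apply pow_le_pow_left₀ (by positivity)
        nlinarith
      rw [ht']
      nlinarith
    calc (tt' s * (ψ u c - φ u c)) ^ 2 = (tt' s) ^ 2 * (ψ u c - φ u c) ^ 2 := by ring
      _ ≤ (36 * tt s) * ψ u c := by gcongr
      _ ≤ 36 * Phi φ ψ s u c := by
        rw [hP']
        have : 0 ≤ (1 - tt s) * φ u c := by positivity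
        linarith
  · have e2 : (ψ u c - φ u c) ^ 2 ≤ φ u c := by nlinarith
    have e3 : (tt' s) ^ 2 ≤ 36 * (1 - tt s) := by
      have k1 := sq_le_one_sub_tt h0.le
      have k2 : (s * (1 - s)) ^ 2 ≤ (1 - s) ^ 2 := by
        apply pow_le_pow_left₀ (by positivity)
        nlinarith
      rw [ht']
      nlinarith
    calc (tt' s * (ψ u c - φ u c)) ^ 2 = (tt' s) ^ 2 * (ψ u c - φ u c) ^ 2 := by ring
      _ ≤ (36 * (1 - tt s)) * φ u c := by gcongr
      _ ≤ 36 * Phi φ ψ s u c := by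
        rw [hP']
        have : 0 ≤ tt s * ψ u c := by positivity
        linarith

end Deriv

theorem deriv (h : BasicStmt) : DerivStmt := by
  intro V C _ _ H φ ψ v z hφ hψ
  have hgood : ∀ s, 0 ≤ s → s ≤ 1 → Good H (Phi φ ψ s) := fun s h0 h1 => Deriv.good hφ hψ h0 h1
  have hZ : ∀ s, 0 ≤ s → s ≤ 1 → 0 < Zp H (Phi φ ψ s) :=
    fun s h0 h1 => (h V C H _ (hgood s h0 h1)).1
  refine ⟨hgood, ?_, ?_, ?_, ?_, ?_⟩
  · unfold mg Ex
    apply ContinuousOn.div
    · apply Continuous.continuousOn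
      exact continuous_finsetSum _ (fun f _ => (Deriv.continuous_wt f).mul continuous_const)
    · apply Continuous.continuousOn
      unfold Zp
      exact continuous_finsetSum _ (fun f _ => Deriv.continuous_wt f)
    · intro s hs
      exact (hZ s hs.1 hs.2).ne'
  · intro s h0 h1
    have hb := h V C H _ (hgood s h0.le h1.le)
    have hZs := hZ s h0.le h1.le
    have hN : HasDerivAt (fun s => ∑ f, wt H (Phi φ ψ s) f * (if f v = z then (1 : ℝ) else 0))
        (∑ f, wt H (Phi φ ψ s) f * (∑ u, hh φ ψ s u (f u)) * (if f v = z then (1 : ℝ) else 0))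
        s :=
      HasDerivAt.fun_sum (fun f _ => (Deriv.hasDeriv_wt hφ hψ h0 h1 f).mul_const _)
    have hZd : HasDerivAt (fun s => Zp H (Phi φ ψ s))
        (∑ f, wt H (Phi φ ψ s) f * (∑ u, hh φ ψ s u (f u))) s := by
      unfold Zp
      exact HasDerivAt.fun_sum (fun f _ => Deriv.hasDeriv_wt hφ hψ h0 h1 f)
    have hd := hN.div hZd hZs.ne'
    refine HasDerivAt.congr_deriv hd ?_
    rw [mul_sub, hb.2.2.2.2.1]
    have e1 : ∑ f, wt H (Phi φ ψ s) f * (∑ u, hh φ ψ s u (f u)) * (if f v = z then (1 : ℝ) else 0)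
        = ∑ f, wt H (Phi φ ψ s) f * ((if f v = z then (1 : ℝ) else 0)
          * ∑ u, hh φ ψ s u (f u)) := by
      refine Finset.sum_congr rfl (fun f _ => ?_)
      ring
    rw [e1]
    unfold mg Ex
    field_simp
  · intro s h0 h1 u
    calc ∑ c, Phi φ ψ s u c * (hh φ ψ s u c) ^ 2 ≤ ∑ _c : C, (36 : ℝ) :=
          Finset.sum_le_sum (fun c _ => Deriv.bound hφ hψ h0 h1 u c)
      _ = 36 * (Fintype.card C : ℝ) := by
          rw [Finset.sum_const, Finset.card_univ, nsmul_eq_mul, mul_comm]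
  · funext u c
    unfold Phi tt
    norm_num
  · funext u c
    unfold Phi tt
    norm_num

end Pool.Agent.KempeLG
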