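import Pool.Agent.Lib.MP_26a019_lc.LG.Spec

set_option autoImplicit false

/-!
# Glauber dynamics with `Δ + 2` colours: the entropy part of the one step inequality
-/

open Finset Classical

namespace Pool.Agent.KempeLG

open Pool.Agent.Kempe Pool.Agent.KempeMix

namespace EntropyAux

/-- tangent inequality -/
theorem tangent {l Z a : ℝ} (hl : 0 < l) (hZ : 0 < Z) :
    a + l * Real.log (Z / l) ≤ Z * Real.exp (a / l - 1) := by
  have ht : 0 < Z / l * Real.exp (a / l - 1) := by positivity
  have h := Real.log_le_sub_one_of_pos ht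
  rw [Real.log_mul (by positivity) (by positivity), Real.log_exp] at h
  have h2 := mul_le_mul_of_nonneg_left h hl.le
  have e1 : l * (Real.log (Z / l) + (a / l - 1)) = a + l * Real.log (Z / l) - l := by
    field_simp
    ring
  have e2 : l * (Z / l * Real.exp (a / l - 1) - 1) = Z * Real.exp (a / l - 1) - l := by
    field_simp
  rw [e1, e2] at h2
  linarith

theorem tan1 {x c : ℝ} (hc : 0 < c) : -x ≤ Real.exp (-x) / c - 1 + Real.log c := by
  have ht : 0 < Real.exp (-x) / c := by positivity
  have h := Real.log_le_sub_one_of_pos ht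
  rw [Real.log_div (by positivity) hc.ne', Real.log_exp] at h
  linarith

theorem xexp (x : ℝ) : x * Real.exp (-x) ≤ Real.exp (-1) := by
  have h := Real.add_one_le_exp (x - 1)
  have h2 : x ≤ Real.exp (x - 1) := by linarith
  have h3 := mul_le_mul_of_nonneg_right h2 (Real.exp_pos (-x)).le
  rw [← Real.exp_add] at h3
  have e : x - 1 + -x = -1 := by ring
  rw [e] at h3
  exact h3

theorem tansum {C : Type} (s : Finset C) (φ Λ : C → ℝ) (hφ : ∀ z, 0 ≤ φ z) {c : ℝ}
    (hc : 0 < c) :
    -(∑ z ∈ s, φ z * Λ z) ≤
      (∑ z ∈ s, φ z * Real.exp (-Λ z)) / c + (∑ z ∈ s, φ z) * (Real.log c - 1) := by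
  rw [Finset.sum_div, Finset.sum_mul, ← Finset.sum_add_distrib, ← Finset.sum_neg_distrib]
  apply Finset.sum_le_sum
  intro z _
  have h := mul_le_mul_of_nonneg_left (tan1 (x := Λ z) hc) (hφ z)
  have e : φ z * (Real.exp (-Λ z) / c - 1 + Real.log c)
      = φ z * Real.exp (-Λ z) / c + φ z * (Real.log c - 1) := by ring
  rw [e] at h
  linarith

end EntropyAux

open EntropyAux in
theorem entropy (hC : ScalCStmt) (hD : ScalDStmt) : EntropyStmt := by
  intro C _ φ Λ b Y r m K hm hK hφ0 hφ1 hl hΛ hb hsum hΛs hY hr hr3
  set l : ℝ := ∑ z, φ z with hl_def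
  have hl4 : 4 ≤ l := by linarith
  have hl0 : 0 < l := by linarith
  set Z : ℝ := ∑ c, φ c * Real.exp (-Λ c) with hZ_def
  have hZ0 : 0 < Z := by
    have hnn : ∀ c ∈ univ, 0 ≤ φ c * Real.exp (-Λ c) := fun c _ =>
      mul_nonneg (hφ0 c) (Real.exp_pos _).le
    rcases (Finset.sum_nonneg hnn).lt_or_eq with h | h
    · exact h
    · exfalso
      have h0 := (Finset.sum_eq_zero_iff_of_nonneg hnn).mp h.symm
      have : l = 0 := by
        rw [hl_def]
        apply Finset.sum_eq_zero
        intro c hc
        have := h0 c hc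
        rcases mul_eq_zero.mp this with h1 | h1
        · exact h1
        · exact absurd h1 (Real.exp_pos _).ne'
      linarith
  have hne : Nonempty C := by
    by_contra hcon
    rw [not_nonempty_iff] at hcon
    have : l = 0 := by rw [hl_def]; simp
    linarith
  -- the probabilities
  have hr0 : ∀ z, 0 ≤ r z := by
    intro z
    by_contra hcon
    push Not at hcon
    have h1 := hr z
    have h2 : r z * Z < 0 := mul_neg_of_neg_of_pos hcon hZ0
    have h3 := mul_nonneg (hφ0 z) (Real.exp_pos (-Λ z)).le
    linarith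
  obtain ⟨z0, hz0⟩ : ∃ z0, r z0 = mx r := exists_eq_ciSup_of_finite
  set P : ℝ := mx r with hP_def
  have hP0 : 0 ≤ P := by rw [← hz0]; exact hr0 z0
  have hP3 : P ≤ 1 / 3 := by rw [← hz0]; exact hr3 z0
  have hetapos : 0 < eta P := by
    unfold eta
    have : 0 < 1 - P := by linarith
    positivity
  have hq : l ≤ (Fintype.card C : ℝ) := by
    rw [hl_def]
    calc ∑ z, φ z ≤ ∑ _z : C, (1 : ℝ) := Finset.sum_le_sum fun z _ => hφ1 z
      _ = (Fintype.card C : ℝ) := by simp
  set S : ℝ := ∑ z, φ z * Λ z with hS_def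
  clear_value l Z P S
  -- (a)
  have hA1 : ∑ z, r z * Y z ^ 2 ≤ Real.exp (-1) / Z * ∑ z, φ z * b z := by
    rw [Finset.mul_sum]
    apply Finset.sum_le_sum
    intro z _
    have h1 : r z = φ z * Real.exp (-Λ z) / Z := by
      rw [eq_div_iff hZ0.ne']; exact hr z
    have h2 : r z * Y z ^ 2 ≤ r z * (b z * Λ z) := mul_le_mul_of_nonneg_left (hY z) (hr0 z)
    refine h2.trans ?_
    rw [h1]
    have h3 : φ z * Real.exp (-Λ z) / Z * (b z * Λ z)
        = (φ z * b z / Z) * (Λ z * Real.exp (-Λ z)) := by ring
    have h4 : Real.exp (-1) / Z * (φ z * b z) = (φ z * b z / Z) * Real.exp (-1) := by ring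
    rw [h3, h4]
    apply mul_le_mul_of_nonneg_left (xexp (Λ z))
    exact div_nonneg (mul_nonneg (hφ0 z) (hb z)) hZ0.le
  have hA2 : ∑ z, φ z * b z ≤ K * (2 * m - S) := by
    have h1 : ∑ z, φ z * (b z + K * Λ z) ≤ ∑ z, (b z + K * Λ z) := by
      apply Finset.sum_le_sum
      intro z _
      have : 0 ≤ b z + K * Λ z := add_nonneg (hb z) (mul_nonneg hK (hΛ z))
      nlinarith [hφ1 z]
    have h2 : ∑ z, φ z * (b z + K * Λ z) = ∑ z, φ z * b z + K * S := by
      rw [hS_def, Finset.mul_sum, ← Finset.sum_add_distrib]
      apply Finset.sum_congr rfl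
      intro z _
      ring
    rw [h2] at h1
    linarith
  -- (b)
  have hB : -S ≤ l * Real.log (Z / l) := by
    have hc : 0 < Z / l := by positivity
    have h1 := tansum univ φ Λ hφ0 hc
    rw [← hS_def, ← hZ_def, ← hl_def] at h1
    have h4 : Z / (Z / l) = l := by field_simp
    rw [h4] at h1
    linarith
  have hS_le : S ≤ 11 / 9 * m := by
    refine le_trans ?_ hΛs
    rw [hS_def]
    apply Finset.sum_le_sum
    intro z _
    nlinarith [hφ1 z, hΛ z]
  -- the main claim
  have hmain : eta P * (2 * m - S) ≤ Z * Real.exp (1 - 1 / (10 * (Fintype.card C : ℝ))) := by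
    have hq' : 1 / (10 * (Fintype.card C : ℝ)) ≤ 1 / (10 * l) := by
      apply one_div_le_one_div_of_le (by positivity)
      linarith
    have hgen : ∀ D : ℝ, -S ≤ l * Real.log (Z / l) + D →
        2 * P + 2.3 * P ^ 2 + (2 * m + D) / l - 2 ≤ - (1 / (10 * l)) →
        eta P * (2 * m - S) ≤ Z * Real.exp (1 - 1 / (10 * (Fintype.card C : ℝ))) := by
      intro D h1 h2
      have h3 := tangent (a := 2 * m + D) hl0 hZ0
      have h4 : 2 * m - S ≤ Z * Real.exp ((2 * m + D) / l - 1) := by linarith
      calc eta P * (2 * m - S) ≤ eta P * (Z * Real.exp ((2 * m + D) / l - 1)) :=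
            mul_le_mul_of_nonneg_left h4 hetapos.le
        _ ≤ Real.exp (2 * P + 2.3 * P ^ 2) * (Z * Real.exp ((2 * m + D) / l - 1)) :=
            mul_le_mul_of_nonneg_right (hC P hP0 hP3) (by positivity)
        _ = Z * Real.exp (2 * P + 2.3 * P ^ 2 + ((2 * m + D) / l - 1)) := by
            rw [Real.exp_add (2 * P + 2.3 * P ^ 2) ((2 * m + D) / l - 1)]; ring
        _ ≤ Z * Real.exp (1 - 1 / (10 * (Fintype.card C : ℝ))) := by
            apply mul_le_mul_of_nonneg_left _ hZ0.le
            apply Real.exp_le_exp.mpr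
            linarith
    rcases le_or_gt P (1 / l) with hcase | hcase
    · apply hgen 0 (by linarith)
      have h1 : P ^ 2 ≤ 1 / l * (1 / 4) := by
        have h2 : P * P ≤ 1 / l * (1 / 4) := by
          apply mul_le_mul hcase _ hP0 (by positivity)
          refine hcase.trans ?_
          apply one_div_le_one_div_of_le (by norm_num) hl4
        nlinarith
      have h2 : (2 * m + 0) / l ≤ 2 - 6 * (1 / l) := by
        rw [div_le_iff₀ hl0]
        have : (2 - 6 * (1 / l)) * l = 2 * l - 6 := by field_simp
        rw [this]; linarith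
      have h3 : 1 / (10 * l) = 1 / l * (1 / 10) := by field_simp
      have h4 : 0 < 1 / l := by positivity
      have h5 : (2.3 : ℝ) = 23 / 10 := by norm_num
      rw [h3, h5]
      linarith
    · have hPpos : 0 < P := lt_trans (by positivity) hcase
      obtain ⟨ρ, hρ⟩ : ∃ ρ, ρ = l * P := ⟨_, rfl⟩
      have hρ1 : 1 < ρ := by
        rw [hρ]
        rw [div_lt_iff₀ hl0] at hcase
        linarith
      have hrz0 : φ z0 * Real.exp (-Λ z0) = P * Z := by
        rw [← hz0]; exact (hr z0).symm
      have hc1 : 0 < P * Z := by positivity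
      have h1P : 0 < 1 - P := by linarith
      have hl1 : 0 < l - 1 := by linarith
      have hc2 : 0 < (1 - P) * Z / (l - 1) := by positivity
      -- sum over z different from z0
      have hlsplit : l = φ z0 + ∑ z ∈ univ.erase z0, φ z := by
        rw [hl_def, Finset.add_sum_erase univ φ (mem_univ z0)]
      have hZsplit : Z = P * Z + ∑ z ∈ univ.erase z0, φ z * Real.exp (-Λ z) := by
        rw [← hrz0, Finset.add_sum_erase univ (fun z => φ z * Real.exp (-Λ z)) (mem_univ z0)]
        exact hZ_def
      have hSsplit : S = φ z0 * Λ z0 + ∑ z ∈ univ.erase z0, φ z * Λ z := by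
        rw [hS_def, Finset.add_sum_erase univ (fun z => φ z * Λ z) (mem_univ z0)]
      have hI1 : -(φ z0 * Λ z0) ≤ 1 - φ z0 + φ z0 * Real.log (P * Z) := by
        have h := mul_le_mul_of_nonneg_left (tan1 (x := Λ z0) hc1) (hφ0 z0)
        have e : φ z0 * (Real.exp (-Λ z0) / (P * Z) - 1 + Real.log (P * Z))
            = φ z0 * Real.exp (-Λ z0) / (P * Z) - φ z0 + φ z0 * Real.log (P * Z) := by ring
        rw [e, hrz0, div_self hc1.ne'] at h
        linarith
      have hI2 : -(∑ z ∈ univ.erase z0, φ z * Λ z) ≤
          (l - 1) - (l - φ z0) + (l - φ z0) * Real.log ((1 - P) * Z / (l - 1)) := by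
        have h1 := tansum (univ.erase z0) φ Λ hφ0 hc2
        have h4 : ∑ z ∈ univ.erase z0, φ z * Real.exp (-Λ z) = (1 - P) * Z := by linarith
        have h5 : ∑ z ∈ univ.erase z0, φ z = l - φ z0 := by linarith
        rw [h4, h5] at h1
        have h6 : (1 - P) * Z / ((1 - P) * Z / (l - 1)) = l - 1 := by
          field_simp
        rw [h6] at h1
        linarith
      have hlogle : Real.log ((1 - P) * Z / (l - 1)) ≤ Real.log (P * Z) := by
        apply Real.log_le_log hc2
        rw [div_le_iff₀ hl1]
        have h1 := mul_pos hZ0 (sub_pos.mpr hρ1)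
        rw [hρ] at h1
        linarith
      have hlog1 : Real.log (P * Z) = Real.log (Z / l) + Real.log ρ := by
        rw [← Real.log_mul (by positivity) (by positivity)]
        congr 1
        rw [hρ]
        field_simp
      have hlog2 : (l - 1) * Real.log ((1 - P) * Z / (l - 1))
          ≤ (l - 1) * Real.log (Z / l) + (1 - ρ) := by
        have hpos : 0 < (1 - P) * l / (l - 1) := by positivity
        have e : (1 - P) * Z / (l - 1) = Z / l * ((1 - P) * l / (l - 1)) := by
          field_simp
        rw [e, Real.log_mul (by positivity) hpos.ne']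
        have h := Real.log_le_sub_one_of_pos hpos
        have h2 : (l - 1) * ((1 - P) * l / (l - 1) - 1) = 1 - ρ := by
          rw [hρ]
          field_simp
          ring
        have h3 := mul_le_mul_of_nonneg_left h hl1.le
        rw [h2] at h3
        linarith
      apply hgen (Real.log ρ + 1 - ρ)
      · have h1 : φ z0 * Real.log (P * Z) + (l - φ z0) * Real.log ((1 - P) * Z / (l - 1))
            ≤ Real.log (P * Z) + (l - 1) * Real.log ((1 - P) * Z / (l - 1)) := by
          have := mul_nonneg (sub_nonneg.mpr (hφ1 z0)) (sub_nonneg.mpr hlogle)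
          linarith
        have h2 : -S ≤ φ z0 * Real.log (P * Z) +
            (l - φ z0) * Real.log ((1 - P) * Z / (l - 1)) := by
          rw [hSsplit]; linarith
        rw [hlog1] at h1 h2
        linarith
      · -- use ScalD
        have hρle : ρ ≤ Real.exp (11 / 9 * (1 - 3 / l)) := by
          have h1 : P * Z ≤ 1 := by
            rw [← hrz0]
            have he : Real.exp (-Λ z0) ≤ 1 := Real.exp_le_one_iff.mpr (by linarith [hΛ z0])
            have := mul_le_mul (hφ1 z0) he (Real.exp_pos _).le (by norm_num)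
            linarith
          have h2 : ρ ≤ l / Z := by
            rw [hρ, le_div_iff₀ hZ0]
            calc l * P * Z = l * (P * Z) := by ring
              _ ≤ l * 1 := mul_le_mul_of_nonneg_left h1 hl0.le
              _ = l := mul_one l
          have h3 : Real.log (l / Z) ≤ S / l := by
            have e : Real.log (l / Z) = - Real.log (Z / l) := by
              rw [← Real.log_inv]
              congr 1
              rw [inv_div]
            rw [e, le_div_iff₀ hl0]
            linarith
          have h4 : l / Z ≤ Real.exp (S / l) := by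
            rw [← Real.log_le_iff_le_exp (by positivity)]
            exact h3
          refine h2.trans (h4.trans ?_)
          apply Real.exp_le_exp.mpr
          rw [div_le_iff₀ hl0]
          have e : 11 / 9 * (1 - 3 / l) * l = 11 / 9 * (l - 3) := by field_simp
          rw [e]
          linarith
        have hDD := hD l ρ hl4 (by linarith) hρle
        have hPρ : P = ρ / l := by rw [hρ]; field_simp
        have e1 : 2 * P + 2.3 * P ^ 2 + (2 * m + (Real.log ρ + 1 - ρ)) / l - 2
            = (ρ + Real.log ρ + 2.3 * ρ ^ 2 / l + 1 + 2 * m - 2 * l) / l := by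
          rw [hPρ]
          field_simp
          ring
        have e2 : -(1 / (10 * l)) = (-(1 / 10)) / l := by field_simp
        rw [e1, e2]
        apply div_le_div_of_nonneg_right _ hl0.le
        have h5 : (2.3 : ℝ) = 23 / 10 := by norm_num
        have h6 : (4.9 : ℝ) = 49 / 10 := by norm_num
        rw [h5, h6] at hDD
        rw [h5]
        linarith
  -- conclusion
  have hexp : Real.exp (-1) / Z * (K * (Z * Real.exp (1 - 1 / (10 * (Fintype.card C : ℝ)))))
      = Real.exp (-1 / (10 * (Fintype.card C : ℝ))) * K := by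
    have e : Real.exp (-1 / (10 * (Fintype.card C : ℝ)))
        = Real.exp (-1) * Real.exp (1 - 1 / (10 * (Fintype.card C : ℝ))) := by
      rw [← Real.exp_add]
      congr 1
      ring
    rw [e]
    field_simp
  calc eta P * ∑ z, r z * Y z ^ 2
      ≤ eta P * (Real.exp (-1) / Z * (K * (2 * m - S))) := by
        apply mul_le_mul_of_nonneg_left _ hetapos.le
        refine hA1.trans ?_
        exact mul_le_mul_of_nonneg_left hA2 (by positivity)
    _ = Real.exp (-1) / Z * (K * (eta P * (2 * m - S))) := by ring
    _ ≤ Real.exp (-1) / Z * (K * (Z * Real.exp (1 - 1 / (10 * (Fintype.card C : ℝ))))) := by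
        apply mul_le_mul_of_nonneg_left _ (by positivity)
        exact mul_le_mul_of_nonneg_left hmain hK
    _ = Real.exp (-1 / (10 * (Fintype.card C : ℝ))) * K := hexp

end Pool.Agent.KempeLG
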