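import Pool.Agent.Lib.MP_26a019_lc.LG.Spec

set_option autoImplicit false

/-!
# No influence outside a pinned sphere
-/

open Finset Classical

namespace Pool.Agent.KempeLG

open Pool.Agent.Kempe Pool.Agent.KempeMix

namespace Far

variable {V C : Type} [Fintype V] [Fintype C]

lemma mem_Om {G : SimpleGraph V} {W : Finset V} {p f : V → C} :
    f ∈ Om G W p ↔ Proper G f ∧ (∀ z ∈ W, f z = p z) := by
  unfold Om
  simp

/-- the open ball of radius `R` is closed up to vertices of the sphere -/
lemma near_step {G : SimpleGraph V} {v x y : V} {R : ℕ} (hx : near G v R x) (h : G.Adj x y) :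
    near G v (R + 1) y := by
  obtain ⟨w, hw⟩ := hx
  refine ⟨w.concat h, ?_⟩
  rw [SimpleGraph.Walk.length_concat]
  omega

/-- `f` on `A`, `g` outside -/
noncomputable def swp (A : V → Prop) (f g : V → C) : V → C := fun x => if A x then f x else g x

lemma swp_swp (A : V → Prop) (f g : V → C) : swp A (swp A f g) (swp A g f) = f := by
  funext x
  unfold swp
  by_cases h : A x <;> simp [h]

lemma swp_mem {G : SimpleGraph V} {T : Finset V} {v : V} {A : V → Prop} {pa pb f g : V → C}
    (hab : ∀ z ∈ T, pb z = pa z) (hA : ∀ x y, A x → ¬ A y → G.Adj x y → y ∈ T) (hv : A v)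
    (hf : f ∈ Om G (insert v T) pa) (hg : g ∈ Om G (insert v T) pb) :
    swp A f g ∈ Om G (insert v T) pa := by
  rw [mem_Om] at hf hg ⊢
  have hfT : ∀ z ∈ T, f z = pa z := fun z hz => hf.2 z (Finset.mem_insert_of_mem hz)
  have hgT : ∀ z ∈ T, g z = pa z := fun z hz => by
    rw [hg.2 z (Finset.mem_insert_of_mem hz), hab z hz]
  refine ⟨?_, ?_⟩
  · intro x y hxy
    unfold swp
    by_cases hx : A x <;> by_cases hy : A y
    · simp only [hx, hy, if_true]
      exact hf.1 x y hxy
    · simp only [hx, hy, if_true, if_false]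
      have hyT := hA x y hx hy hxy
      rw [hgT y hyT, ← hfT y hyT]
      exact hf.1 x y hxy
    · simp only [hx, hy, if_true, if_false]
      have hxT := hA y x hy hx hxy.symm
      rw [hgT x hxT, ← hfT x hxT]
      exact hf.1 x y hxy
    · simp only [hx, hy, if_false]
      exact hg.1 x y hxy
  · intro z hz
    rcases Finset.mem_insert.mp hz with h | h
    · subst h
      unfold swp
      rw [if_pos hv]
      exact hf.2 z (Finset.mem_insert_self _ _)
    · unfold swp
      by_cases hz : A z
      · rw [if_pos hz]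
        exact hfT z h
      · rw [if_neg hz]
        exact hgT z h

lemma card_eq {G : SimpleGraph V} {T : Finset V} {v u : V} {A : V → Prop} {pa pb : V → C}
    (hab : ∀ z ∈ T, pb z = pa z) (hA : ∀ x y, A x → ¬ A y → G.Adj x y → y ∈ T) (hv : A v)
    (hu : ¬ A u) (c : C) :
    ((Om G (insert v T) pa).filter (fun f => f u = c)).card * (Om G (insert v T) pb).card
      = (Om G (insert v T) pa).card
        * ((Om G (insert v T) pb).filter (fun f => f u = c)).card := by
  rw [← Finset.card_product, ← Finset.card_product]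
  refine Finset.card_bij' (fun x _ => (swp A x.1 x.2, swp A x.2 x.1))
    (fun x _ => (swp A x.1 x.2, swp A x.2 x.1)) ?_ ?_ ?_ ?_
  · intro x hx
    rw [Finset.mem_product, Finset.mem_filter] at hx
    rw [Finset.mem_product, Finset.mem_filter]
    refine ⟨swp_mem hab hA hv hx.1.1 hx.2,
      swp_mem (fun z hz => (hab z hz).symm) hA hv hx.2 hx.1.1, ?_⟩
    show (if A u then x.2 u else x.1 u) = c
    rw [if_neg hu]
    exact hx.1.2
  · intro x hx
    rw [Finset.mem_product, Finset.mem_filter] at hx
    rw [Finset.mem_product, Finset.mem_filter]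
    refine ⟨⟨swp_mem hab hA hv hx.1 hx.2.1, ?_⟩,
      swp_mem (fun z hz => (hab z hz).symm) hA hv hx.2.1 hx.1⟩
    show (if A u then x.1 u else x.2 u) = c
    rw [if_neg hu]
    exact hx.2.2
  · intro x _
    exact Prod.ext (swp_swp A _ _) (swp_swp A _ _)
  · intro x _
    exact Prod.ext (swp_swp A _ _) (swp_swp A _ _)

lemma pr_nonneg (G : SimpleGraph V) (T : Finset V) (p : V → C) (w : V) (c : C) :
    0 ≤ pr G T p w c := by
  unfold pr
  positivity

lemma sum_pr_le (G : SimpleGraph V) (T : Finset V) (p : V → C) (w : V) :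
    ∑ c, pr G T p w c ≤ 1 := by
  unfold pr
  rw [← Finset.sum_div]
  have h1 : (Om G T p).card = ∑ c, ((Om G T p).filter (fun f => f w = c)).card :=
    Finset.card_eq_sum_card_fiberwise (fun _ _ => Finset.mem_coe.mpr (Finset.mem_univ _))
  rw [← Nat.cast_sum, ← h1]
  exact div_self_le_one _

end Far

theorem far (_h1 : PinStmt) (_h2 : IndepStmt) : FarStmt := by
  intro V C _ _ G T v R pa pb _ hvT hpa hpb hsph hR
  have hpaP : Proper G pa := by
    unfold PC at hpa
    simpa using hpa
  rw [Far.mem_Om] at hpb
  have hAv : near G v R v := ⟨SimpleGraph.Walk.nil, hR⟩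
  have hA : ∀ x y, near G v R x → ¬ near G v R y → G.Adj x y → y ∈ T := by
    intro x y hx hy hxy
    apply hsph
    unfold sph
    rw [Finset.mem_filter]
    exact ⟨Finset.mem_univ _, Far.near_step hx hxy, hy⟩
  have hNa : (0 : ℝ) < ((Om G (insert v T) pa).card : ℝ) := by
    have : pa ∈ Om G (insert v T) pa := Far.mem_Om.mpr ⟨hpaP, fun z _ => rfl⟩
    exact_mod_cast Finset.card_pos.mpr ⟨_, this⟩
  have hNb : (0 : ℝ) < ((Om G (insert v T) pb).card : ℝ) := by
    have : pb ∈ Om G (insert v T) pb := Far.mem_Om.mpr ⟨hpb.1, fun z _ => rfl⟩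
    exact_mod_cast Finset.card_pos.mpr ⟨_, this⟩
  have hfar : ∀ u, ¬ near G v R u → ∀ c,
      pr G (insert v T) pa u c = pr G (insert v T) pb u c := by
    intro u hu c
    have h3 := Far.card_eq (u := u) hpb.2 hA hAv hu c
    have h4 : (((Om G (insert v T) pa).filter (fun f => f u = c)).card : ℝ)
        * ((Om G (insert v T) pb).card : ℝ) = ((Om G (insert v T) pa).card : ℝ)
        * (((Om G (insert v T) pb).filter (fun f => f u = c)).card : ℝ) := by
      exact_mod_cast h3
    unfold pr
    rw [div_eq_div_iff hNa.ne' hNb.ne', h4, mul_comm]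
  have hterm : ∀ u, ∑ c, |pr G (insert v T) pa u c - pr G (insert v T) pb u c|
      ≤ if near G v R u then 2 else 0 := by
    intro u
    by_cases hu : near G v R u
    · rw [if_pos hu]
      have e1 : ∑ c, |pr G (insert v T) pa u c - pr G (insert v T) pb u c|
          ≤ ∑ c, (pr G (insert v T) pa u c + pr G (insert v T) pb u c) := by
        refine Finset.sum_le_sum (fun c _ => ?_)
        rw [abs_le]
        have := Far.pr_nonneg G (insert v T) pa u c
        have := Far.pr_nonneg G (insert v T) pb u c
        constructor <;> linarith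
      rw [Finset.sum_add_distrib] at e1
      have := Far.sum_pr_le G (insert v T) pa u
      have := Far.sum_pr_le G (insert v T) pb u
      linarith
    · rw [if_neg hu]
      apply le_of_eq
      refine Finset.sum_eq_zero (fun c _ => ?_)
      rw [hfar u hu c, sub_self, abs_zero]
  unfold tot
  calc ∑ u, ∑ c, |pr G (insert v T) pa u c - pr G (insert v T) pb u c|
      ≤ ∑ u, (if near G v R u then (2 : ℝ) else 0) := Finset.sum_le_sum (fun u _ => hterm u)
    _ = 2 * ((univ.filter (fun u => near G v R u)).card : ℝ) := by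
      rw [← Finset.sum_filter, Finset.sum_const, nsmul_eq_mul, mul_comm]

end Pool.Agent.KempeLG
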