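import Pool.Agent.Lib.MP_26a019_lc.LG.Spec
import Pool.Agent.Lib.MP_26a019_lc.Mix.MMain
import Pool.Agent.Lib.MP_26a019_lc.Mix.MInfl

set_option autoImplicit false

/-!
Bounded total influence gives polynomial mixing: assembly.
-/

open Finset Classical

namespace Pool.Agent.KempeLG

open Pool.Agent.Kempe Pool.Agent.KempeMix

section

variable {V C : Type} [Fintype V] [Fintype C]

theorem filter_om_eq (G : SimpleGraph V) (W : Finset V) (p pa : V → C) (v : V)
    (hpa : pa ∈ Om G W p) :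
    (Om G W p).filter (fun f => f v = pa v) = Om G (insert v W) pa := by
  have h1 : ∀ z ∈ W, pa z = p z := (mem_filter.1 hpa).2.2
  ext f
  simp only [Om, mem_filter, mem_univ, true_and, mem_insert]
  constructor
  · rintro ⟨⟨hf, h2⟩, h3⟩
    refine ⟨hf, ?_⟩
    rintro z (rfl | hz)
    · exact h3
    · rw [h2 z hz, h1 z hz]
  · rintro ⟨hf, h2⟩
    refine ⟨⟨hf, fun z hz => ?_⟩, h2 v (Or.inl rfl)⟩
    rw [h2 z (Or.inr hz), h1 z hz]

theorem cp_eq_pr (G : SimpleGraph V) (W : Finset V) (p pa : V → C) (v u : V) (c : C)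
    (hpa : pa ∈ Om G W p) :
    cp (Om G W p) v (pa v) u c = pr G (insert v W) pa u c := by
  unfold cp pr
  rw [← filter_om_eq G W p pa v hpa, filter_filter]

theorem vr_nonneg' (A : Finset (V → C)) (g : (V → C) → ℝ) : 0 ≤ vr A g := by
  unfold vr ev
  exact div_nonneg (sum_nonneg (fun _ _ => sq_nonneg _)) (Nat.cast_nonneg _)

theorem mem_pc_of_om (G : SimpleGraph V) (W : Finset V) (p pa : V → C) (hpa : pa ∈ Om G W p) :
    pa ∈ PC G C := by
  have := (mem_filter.1 hpa).2.1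
  simp [PC, this]

theorem mem_om_of_om (G : SimpleGraph V) (W : Finset V) (p pa pb : V → C) (hpa : pa ∈ Om G W p)
    (hpb : pb ∈ Om G W p) : pb ∈ Om G W pa := by
  have e1 := (mem_filter.1 hpa).2.2
  have e2 := (mem_filter.1 hpb).2
  simp only [Om, mem_filter, mem_univ, true_and]
  exact ⟨e2.1, fun z hz => by rw [e2.2 z hz, e1 z hz]⟩

theorem si_of_tot (G : SimpleGraph V) (Γ : ℝ)
    (H : ∀ (T : Finset V) (v : V) (pa pb : V → C), v ∉ T → pa ∈ PC G C → pb ∈ Om G T pa →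
      tot G T v pa pb ≤ Γ) (W : Finset V) (p : V → C) (h : V → C → ℝ) :
    vr (Om G W p) (fun f => ∑ v ∈ Wᶜ, h v (f v)) ≤
      (Γ + 2) * ∑ v ∈ Wᶜ, vr (Om G W p) (fun f => h v (f v)) := by
  have hsi := si_of_influence (Om G W p) Wᶜ (Γ / 2) ?_ h
  · refine hsi.trans (le_of_eq ?_)
    ring
  · intro v hv a b ha hb
    obtain ⟨pa, hpa, rfl⟩ := ha
    obtain ⟨pb, hpb, rfl⟩ := hb
    have hvW : v ∉ W := mem_compl.1 hv
    have hT := H W v pa pb hvW (mem_pc_of_om G W p pa hpa) (mem_om_of_om G W p pa pb hpa hpb)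
    have e3 : ∀ u c, cp (Om G W p) v (pa v) u c = pr G (insert v W) pa u c :=
      fun u c => cp_eq_pr G W p pa v u c hpa
    have e4 : ∀ u c, cp (Om G W p) v (pb v) u c = pr G (insert v W) pb u c :=
      fun u c => cp_eq_pr G W p pb v u c hpb
    calc ∑ u ∈ (Wᶜ).erase v, ∑ c, |cp (Om G W p) v (pa v) u c - cp (Om G W p) v (pb v) u c|
        = ∑ u ∈ (Wᶜ).erase v, ∑ c, |pr G (insert v W) pa u c - pr G (insert v W) pb u c| := by
          refine sum_congr rfl (fun u _ => sum_congr rfl (fun c _ => ?_))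
          rw [e3, e4]
      _ ≤ tot G W v pa pb := by
          unfold tot
          exact sum_le_sum_of_subset_of_nonneg (subset_univ _)
            (fun _ _ _ => sum_nonneg (fun _ _ => abs_nonneg _))
      _ ≤ 2 * (Γ / 2) := by linarith

theorem mixing_of_tot [Nonempty V] (G : SimpleGraph V) (Γ : ℝ) (K : ℕ) (hK1 : Γ + 2 ≤ (K : ℝ))
    (hΓ : 0 ≤ Γ) (hdeg : ∀ v, (univ.filter (fun u => G.Adj v u)).card + 2 ≤ Fintype.card C)
    (H : ∀ (T : Finset V) (v : V) (pa pb : V → C), v ∉ T → pa ∈ PC G C → pb ∈ Om G T pa →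
      tot G T v pa pb ≤ Γ) (t : ℕ) (ht : 2 * (Fintype.card C : ℝ) ^ (3 * K + 1) *
      ((Fintype.card V : ℝ) + 1) ^ (K + 1) ≤ t)
    (f0 : {f : V → C // f ∈ PC G C}) : tvd G C t f0 ≤ 1 / 4 := by
  have hK2 : 1 ≤ K := by
    have : (2 : ℝ) ≤ (K : ℝ) := by linarith
    have h2 : 2 ≤ K := by exact_mod_cast this
    omega
  have hq : Fintype.card C - 2 + 2 ≤ Fintype.card C := by
    obtain ⟨v⟩ := (inferInstance : Nonempty V)
    have := hdeg v
    omega
  refine mixing_of_si (Fintype.card C - 2) hq K hK2 G ?_ ?_ t ht f0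
  · intro v
    have := hdeg v
    omega
  · intro W p _ _ h
    refine (si_of_tot G Γ H W p h).trans ?_
    refine mul_le_mul_of_nonneg_right hK1 ?_
    exact sum_nonneg (fun _ _ => vr_nonneg' _ _)

end

theorem final (h1 : TotStmt) : FinalStmt := by
  intro q
  obtain ⟨g, Γ, hΓ, H⟩ := h1 q
  refine ⟨g, 2 * q ^ (3 * ⌈Γ + 2⌉₊ + 1), ⌈Γ + 2⌉₊ + 1, ?_⟩
  intro V _ _ G hdeg hg t ht f0
  have hcard : Fintype.card (Fin q) = q := Fintype.card_fin q
  refine mixing_of_tot G Γ ⌈Γ + 2⌉₊ (Nat.le_ceil _) hΓ ?_ ?_ t ?_ f0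
  · intro v
    rw [hcard]
    exact hdeg v
  · exact H V (Fin q) G hcard (fun v => by rw [hcard]; exact hdeg v) hg
  · rw [hcard]
    have h3 : ((2 * q ^ (3 * ⌈Γ + 2⌉₊ + 1) * (Fintype.card V + 1) ^ (⌈Γ + 2⌉₊ + 1) : ℕ) : ℝ) ≤
        (t : ℝ) := by
      exact_mod_cast ht
    push_cast at h3
    exact h3

end Pool.Agent.KempeLG
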