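import Pool.Agent.Lib.MP_26a019_lc.LG.Spec

set_option autoImplicit false

/-!
# The tree recursion for marginals and conditional expectations of soft list colourings
-/

open Finset Classical

namespace Pool.Agent.KempeLG

open Pool.Agent.Kempe Pool.Agent.KempeMix

namespace ForestAux

/-! ## graph facts -/

section graph

variable {V : Type}

lemma not_mem_support {H : SimpleGraph V} {v : V} : ∀ {i j : V} (w : (cut H {v}).Walk i j),
    i ≠ v → v ∉ w.support := by
  intro i j w
  induction w with
  | nil =>
    intro h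
    simp [h.symm]
  | cons h p ih =>
    intro hi
    have hk := h.2.2
    rw [Finset.mem_singleton] at hk
    simp only [SimpleGraph.Walk.support_cons, List.mem_cons, not_or]
    exact ⟨hi.symm, ih hk⟩

lemma not_reach_root {H : SimpleGraph V} {v i : V} (hi : i ≠ v) :
    ¬ (cut H {v}).Reachable i v := by
  rintro ⟨w⟩
  exact not_mem_support w hi w.end_mem_support

lemma cut_le (H : SimpleGraph V) (T : Finset V) : cut H T ≤ H := fun _ _ h => h.1

lemma not_reach {H : SimpleGraph V} (hH : H.IsAcyclic) {v i j : V} (hi : H.Adj v i)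
    (hj : H.Adj v j) (hij : i ≠ j) : ¬ (cut H {v}).Reachable i j := by
  rintro ⟨w0⟩
  have hiv : i ≠ v := hi.ne'
  have hjv : j ≠ v := hj.ne'
  set w := w0.bypass with hw
  have hwp : w.IsPath := w0.bypass_isPath
  have hv : v ∉ w.support := not_mem_support w hiv
  let p : H.Path i j := ⟨w.mapLe (cut_le H {v}), by
    rw [SimpleGraph.Walk.mapLe_isPath]; exact hwp⟩
  let q : H.Path i j := ⟨SimpleGraph.Walk.cons hi.symm (SimpleGraph.Walk.cons hj
    SimpleGraph.Walk.nil), by
      simp [SimpleGraph.Walk.isPath_def, hiv, hjv.symm, hij]⟩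
  have hpq := hH.path_unique p q
  have hvq : v ∈ (q : H.Walk i j).support := by simp [q]
  rw [← hpq] at hvq
  apply hv
  simpa [p] using hvq

lemma closed_reach (G : SimpleGraph V) (i : V) (u w : V) (h : G.Adj u w) :
    u ∈ {x | G.Reachable i x} ↔ w ∈ {x | G.Reachable i x} :=
  ⟨fun hu => hu.trans h.reachable, fun hw => hw.trans h.symm.reachable⟩

end graph

/-! ## expectations -/

variable {V C : Type} [Fintype V] [Fintype C]

lemma Ex_sum {ι : Type} (H : SimpleGraph V) (φ : V → C → ℝ) (s : Finset ι)
    (F : ι → (V → C) → ℝ) :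
    Ex H φ (fun f => ∑ i ∈ s, F i f) = ∑ i ∈ s, Ex H φ (F i) := by
  simp only [Ex]
  rw [← Finset.sum_div, Finset.sum_comm]
  congr 1
  exact Finset.sum_congr rfl fun f _ => Finset.mul_sum _ _ _

lemma Ex_add (H : SimpleGraph V) (φ : V → C → ℝ) (F G : (V → C) → ℝ) :
    Ex H φ (fun f => F f + G f) = Ex H φ F + Ex H φ G := by
  simp only [Ex, mul_add, Finset.sum_add_distrib, add_div]

lemma Ex_sub (H : SimpleGraph V) (φ : V → C → ℝ) (F G : (V → C) → ℝ) :
    Ex H φ (fun f => F f - G f) = Ex H φ F - Ex H φ G := by
  simp only [Ex, mul_sub, Finset.sum_sub_distrib, sub_div]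

lemma Ex_mul (H : SimpleGraph V) (φ : V → C → ℝ) (c : ℝ) (F : (V → C) → ℝ) :
    Ex H φ (fun f => c * F f) = c * Ex H φ F := by
  simp only [Ex]
  rw [mul_div_assoc', Finset.mul_sum]
  congr 1
  exact Finset.sum_congr rfl fun f _ => by ring

lemma Ex_one {H : SimpleGraph V} {φ : V → C → ℝ} (hZ : 0 < Zp H φ) :
    Ex H φ (fun _ => 1) = 1 := by
  simp only [Ex, mul_one]
  exact div_self hZ.ne'

lemma Ex_indep (h1 : IndepStmt) {H : SimpleGraph V} {φ : V → C → ℝ} (hZ : 0 < Zp H φ)
    (A : Set V) (g₁ g₂ : (V → C) → ℝ)
    (hA : ∀ u w, H.Adj u w → (u ∈ A ↔ w ∈ A))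
    (hg₁ : ∀ f f' : V → C, (∀ u ∈ A, f u = f' u) → g₁ f = g₁ f')
    (hg₂ : ∀ f f' : V → C, (∀ u, u ∉ A → f u = f' u) → g₂ f = g₂ f') :
    Ex H φ (fun f => g₁ f * g₂ f) = Ex H φ g₁ * Ex H φ g₂ := by
  have := h1 V C H φ A g₁ g₂ hA hg₁ hg₂
  simp only [Ex]
  rw [div_mul_div_comm, ← this, mul_div_mul_right _ _ hZ.ne']

/-! ## weights at the root -/

lemma proper_iff (H : SimpleGraph V) (v : V) (f : V → C) :
    Proper H f ↔ Proper (cut H {v}) f ∧ ∀ i ∈ nb H v, f i ≠ f v := by
  constructor
  · intro h
    refine ⟨fun u w huw => h u w huw.1, fun i hi => ?_⟩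
    have : H.Adj v i := by simpa [nb] using hi
    exact h i v this.symm
  · rintro ⟨h, h'⟩ u w huw
    by_cases hu : u = v
    · subst hu
      exact (h' w (by simpa [nb] using huw)).symm
    · by_cases hw : w = v
      · subst hw
        exact h' u (by simpa [nb] using huw.symm)
      · exact h u w ⟨huw, by simpa using hu, by simpa using hw⟩

lemma wt_root (H : SimpleGraph V) (φ : V → C → ℝ) (v : V) (z : C) (f : V → C) :
    wt H φ f * (if f v = z then 1 else 0) =
      wt (cut H {v}) φ f * ((if f v = z then 1 else 0) *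
        ∏ i ∈ nb H v, (1 - (if f i = z then 1 else 0))) := by
  by_cases hv : f v = z
  · simp only [hv, if_true, mul_one, one_mul]
    by_cases hex : ∃ i ∈ nb H v, f i = z
    · obtain ⟨i, hi, hiz⟩ := hex
      have hprod : ∏ i ∈ nb H v, (1 - (if f i = z then (1 : ℝ) else 0)) = 0 :=
        Finset.prod_eq_zero hi (by simp [hiz])
      rw [hprod, mul_zero]
      have hnp : ¬ Proper H f := by
        rw [proper_iff H v f]
        rintro ⟨-, h⟩
        exact h i hi (by rw [hiz, hv])
      simp [wt, hnp]
    · push Not at hex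
      have hprod : ∏ i ∈ nb H v, (1 - (if f i = z then (1 : ℝ) else 0)) = 1 :=
        Finset.prod_eq_one fun i hi => by simp [hex i hi]
      rw [hprod, mul_one]
      have hiff : Proper H f ↔ Proper (cut H {v}) f := by
        rw [proper_iff H v f]
        exact ⟨fun h => h.1, fun h => ⟨h, fun i hi => by rw [hv]; exact hex i hi⟩⟩
      simp only [wt, hiff]
  · simp [hv]

lemma sum_root (H : SimpleGraph V) (φ : V → C → ℝ) (v : V) (z : C) (F : (V → C) → ℝ) :
    ∑ f, wt H φ f * ((if f v = z then 1 else 0) * F f) =
      ∑ f, wt (cut H {v}) φ f * ((if f v = z then 1 else 0) *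
        (F f * ∏ i ∈ nb H v, (1 - (if f i = z then 1 else 0)))) := by
  refine Finset.sum_congr rfl fun f _ => ?_
  have := wt_root H φ v z f
  calc wt H φ f * ((if f v = z then 1 else 0) * F f)
      = (wt H φ f * (if f v = z then 1 else 0)) * F f := by ring
    _ = _ := by rw [this]; ring

/-- the law at an isolated vertex -/
lemma isolated_swap (G : SimpleGraph V) (φ : V → C → ℝ) (v : V) (hv : ∀ u, ¬ G.Adj u v)
    (z c : C) :
    (∑ f, wt G φ f * (if f v = z then 1 else 0)) * φ v c =
      (∑ f, wt G φ f * (if f v = c then 1 else 0)) * φ v z := by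
  -- the swap of the colours z and c at the vertex v
  have hprop : ∀ (f : V → C) (d : C), Proper G (Function.update f v d) ↔ Proper G f := by
    intro f d
    have aux : ∀ u w, G.Adj u w → Function.update f v d u = f u ∧
        Function.update f v d w = f w := by
      intro u w huw
      have hu : u ≠ v := by rintro rfl; exact hv w huw.symm
      have hw : w ≠ v := by rintro rfl; exact hv u huw
      exact ⟨Function.update_of_ne hu _ _, Function.update_of_ne hw _ _⟩
    constructor
    · intro h u w huw
      have := h u w huw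
      rwa [(aux u w huw).1, (aux u w huw).2] at this
    · intro h u w huw
      rw [(aux u w huw).1, (aux u w huw).2]
      exact h u w huw
  have hwt : ∀ (f : V → C) (d : C), wt G φ (Function.update f v d) * φ v (f v) =
      wt G φ f * φ v d := by
    intro f d
    simp only [wt, hprop]
    split_ifs with hp
    · rw [← Finset.mul_prod_erase univ _ (Finset.mem_univ v),
        ← Finset.mul_prod_erase univ (fun u => φ u (f u)) (Finset.mem_univ v)]
      have : ∏ u ∈ univ.erase v, φ u (Function.update f v d u) =
          ∏ u ∈ univ.erase v, φ u (f u) :=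
        Finset.prod_congr rfl fun u hu => by
          rw [Function.update_of_ne (Finset.ne_of_mem_erase hu)]
      rw [this, Function.update_self]
      ring
    · simp
  let e : (V → C) ≃ (V → C) :=
    { toFun := fun f => Function.update f v (Equiv.swap z c (f v))
      invFun := fun f => Function.update f v (Equiv.swap z c (f v))
      left_inv := fun f => by simp
      right_inv := fun f => by simp }
  rw [Finset.sum_mul, Finset.sum_mul, ← Equiv.sum_comp e (fun f =>
    wt G φ f * (if f v = c then 1 else 0) * φ v z)]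
  refine Finset.sum_congr rfl fun f _ => ?_
  have he : e f v = Equiv.swap z c (f v) := by simp [e]
  by_cases hz : f v = z
  · have h1 : e f v = c := by rw [he, hz, Equiv.swap_apply_left]
    rw [if_pos hz, if_pos h1, mul_one, mul_one]
    have h2 : e f = Function.update f v c := by
      simp only [e, Equiv.coe_fn_mk, hz, Equiv.swap_apply_left]
    have := hwt f c
    rw [hz] at this
    rw [h2, this]
  · have h1 : e f v ≠ c := by
      rw [he]
      intro h
      apply hz
      have := congrArg (Equiv.swap z c) h
      rw [Equiv.swap_apply_self, Equiv.swap_apply_right] at this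
      exact this
    rw [if_neg hz, if_neg h1]
    ring

/-- products of independent factors -/
lemma Ex_prod (h1 : IndepStmt) {G : SimpleGraph V} {φ : V → C → ℝ} (hZ : 0 < Zp G φ) (z : C)
    (S : Finset V) (hS : ∀ i ∈ S, ∀ j ∈ S, i ≠ j → ¬ G.Reachable i j) :
    ∀ g : (V → C) → ℝ,
    (∀ f f' : V → C, (∀ u, (∀ i ∈ S, ¬ G.Reachable i u) → f u = f' u) → g f = g f') →
    Ex G φ (fun f => g f * ∏ i ∈ S, (1 - (if f i = z then 1 else 0))) =
      Ex G φ g * ∏ i ∈ S, (1 - mg G φ i z) := by
  induction S using Finset.induction_on with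
  | empty => intro g _; simp
  | insert j S hj ih =>
    intro g hg
    have hS' : ∀ i ∈ S, ∀ j ∈ S, i ≠ j → ¬ G.Reachable i j := fun i hi k hk =>
      hS i (Finset.mem_insert_of_mem hi) k (Finset.mem_insert_of_mem hk)
    have hg' : ∀ f f' : V → C, (∀ u, (∀ i ∈ S, ¬ G.Reachable i u) → f u = f' u) →
        g f = g f' := by
      intro f f' h
      refine hg f f' fun u hu => h u fun i hi => hu i (Finset.mem_insert_of_mem hi)
    have hstep : Ex G φ (fun f => (1 - (if f j = z then (1 : ℝ) else 0)) *
        (g f * ∏ i ∈ S, (1 - (if f i = z then (1 : ℝ) else 0)))) =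
        Ex G φ (fun f => 1 - (if f j = z then (1 : ℝ) else 0)) *
        Ex G φ (fun f => g f * ∏ i ∈ S, (1 - (if f i = z then (1 : ℝ) else 0))) := by
      refine Ex_indep h1 hZ {x | G.Reachable j x} _ _ (closed_reach G j) ?_ ?_
      · intro f f' h
        have : f j = f' j := h j (SimpleGraph.Reachable.refl j)
        simp only [this]
      · intro f f' h
        have hgg : g f = g f' := by
          refine hg f f' fun u hu => h u ?_
          exact hu j (Finset.mem_insert_self j S)
        rw [hgg]
        congr 1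
        refine Finset.prod_congr rfl fun i hi => ?_
        have hij : j ≠ i := by rintro rfl; exact hj hi
        have : f i = f' i := h i (hS j (Finset.mem_insert_self j S) i
          (Finset.mem_insert_of_mem hi) hij)
        simp only [this]
    have hone : Ex G φ (fun f => 1 - (if f j = z then (1 : ℝ) else 0)) = 1 - mg G φ j z := by
      rw [Ex_sub, Ex_one hZ]; rfl
    have hcong : (fun f : V → C => g f * ∏ i ∈ insert j S, (1 - (if f i = z then (1 : ℝ) else 0)))
        = fun f => (1 - (if f j = z then (1 : ℝ) else 0)) *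
          (g f * ∏ i ∈ S, (1 - (if f i = z then (1 : ℝ) else 0))) := by
      funext f
      rw [Finset.prod_insert hj]; ring
    rw [hcong, hstep, hone, ih hS' g hg', Finset.prod_insert hj]
    ring

end ForestAux

open ForestAux

theorem forest (h1 : IndepStmt) (h2 : BasicStmt) : ForestStmt := by
  intro V C _ _ H φ v hac hgood
  obtain ⟨hZ, hmg0, hmgs, hcut, hce, hce'⟩ := h2 V C H φ hgood
  have hgood' : Good (cut H {v}) φ := hcut {v}
  obtain ⟨hZ', hmg0', hmgs', -, hce2, -⟩ := h2 V C (cut H {v}) φ hgood'
  set G := cut H {v} with hG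
  have hΦ : 0 < ∑ c, φ v c := hgood.pos v
  have hiso : ∀ u, ¬ G.Adj u v := fun u h => h.2.2 (by simp)
  have hnv : ∀ i ∈ nb H v, i ≠ v := by
    intro i hi
    have : H.Adj v i := by simpa [nb] using hi
    exact this.ne'
  have hdis : ∀ i ∈ nb H v, ∀ j ∈ nb H v, i ≠ j → ¬ G.Reachable i j := by
    intro i hi j hj hij
    exact not_reach hac (by simpa [nb] using hi) (by simpa [nb] using hj) hij
  -- law at the root in G
  have hroot : ∀ z, mg G φ v z * ∑ c, φ v c = φ v z := by
    intro z
    have hsw : ∀ c, mg G φ v z * φ v c = mg G φ v c * φ v z := by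
      intro c
      simp only [mg, Ex]
      rw [div_mul_eq_mul_div, div_mul_eq_mul_div, isolated_swap G φ v hiso z c]
    rw [Finset.mul_sum, Finset.sum_congr rfl fun c _ => hsw c, ← Finset.sum_mul, hmgs' v, one_mul]
  -- separating the root
  have hsep : ∀ z (F : (V → C) → ℝ), (∀ f f' : V → C, (∀ u, u ≠ v → f u = f' u) → F f = F f') →
      Ex G φ (fun f => (if f v = z then 1 else 0) * F f) = mg G φ v z * Ex G φ F := by
    intro z F hF
    refine Ex_indep h1 hZ' {v} _ _ ?_ ?_ ?_
    · intro u w huw
      have hu : u ≠ v := by rintro rfl; exact hiso w huw.symm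
      have hw : w ≠ v := by rintro rfl; exact hiso u huw
      simp [hu, hw]
    · intro f f' h
      have : f v = f' v := h v (Set.mem_singleton v)
      simp only [this]
    · intro f f' h
      exact hF f f' fun u hu => h u (by simpa using hu)
  -- the basic formula
  have hbase : ∀ z (F : (V → C) → ℝ), (∀ f f' : V → C, (∀ u, u ≠ v → f u = f' u) → F f = F f') →
      Ex H φ (fun f => (if f v = z then 1 else 0) * F f) =
        Zp G φ / Zp H φ * (mg G φ v z *
          Ex G φ (fun f => F f * ∏ i ∈ nb H v, (1 - (if f i = z then 1 else 0)))) := by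
    intro z F hF
    rw [← hsep z _ ?_]
    · simp only [Ex]
      rw [sum_root H φ v z F, ← hG]
      field_simp
    · intro f f' h
      rw [hF f f' h]
      congr 1
      refine Finset.prod_congr rfl fun i hi => ?_
      have : f i = f' i := h i (hnv i hi)
      simp only [this]
  have hprod1 : ∀ z, Ex G φ (fun f => 1 * ∏ i ∈ nb H v, (1 - (if f i = z then 1 else 0))) =
      ∏ i ∈ nb H v, (1 - mg G φ i z) := by
    intro z
    have := Ex_prod h1 hZ' z (nb H v) hdis (fun _ => 1) (fun _ _ _ => rfl)
    rw [this, Ex_one hZ', one_mul]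
  have hmgH : ∀ z, mg H φ v z =
      Zp G φ / Zp H φ * (mg G φ v z * ∏ i ∈ nb H v, (1 - mg G φ i z)) := by
    intro z
    rw [← hprod1 z, ← hbase z (fun _ => 1) (fun _ _ _ => rfl)]
    simp only [mg, mul_one]
  have hmgG : ∀ z, mg G φ v z = φ v z / ∑ c, φ v c := by
    intro z
    rw [eq_div_iff hΦ.ne']; exact hroot z
  have hZr : Zp G φ / Zp H φ ≠ 0 := (div_pos hZ' hZ).ne'
  constructor
  · intro z
    have hs := hmgs v
    have h3 : Zp G φ / Zp H φ * (∑ c, φ v c * ∏ i ∈ nb H v, (1 - mg G φ i c)) =
        ∑ c, φ v c := by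
      have h4 : ∀ c, mg H φ v c * ∑ c, φ v c =
          Zp G φ / Zp H φ * (φ v c * ∏ i ∈ nb H v, (1 - mg G φ i c)) := by
        intro c
        rw [hmgH c, hmgG c]
        field_simp
      rw [Finset.mul_sum, ← Finset.sum_congr rfl fun c _ => h4 c, ← Finset.sum_mul, hs, one_mul]
    rw [hmgH z, hmgG z]
    calc Zp G φ / Zp H φ * (φ v z / (∑ c, φ v c) * ∏ i ∈ nb H v, (1 - mg G φ i z)) *
          ∑ c, φ v c * ∏ i ∈ nb H v, (1 - mg G φ i c)
        = (Zp G φ / Zp H φ * ∑ c, φ v c * ∏ i ∈ nb H v, (1 - mg G φ i c)) *
          (φ v z / (∑ c, φ v c) * ∏ i ∈ nb H v, (1 - mg G φ i z)) := by ring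
      _ = φ v z * ∏ i ∈ nb H v, (1 - mg G φ i z) := by
        rw [h3]; field_simp
  · intro h
    -- the defect D
    set D : C → V → V → ℝ := fun z i u =>
      Ex G φ (fun f => (if f i = z then 1 else 0) * h u (f u)) - mg G φ i z *
        Ex G φ (fun f => h u (f u)) with hD
    have hD0 : ∀ z i u, ¬ G.Reachable i u → D z i u = 0 := by
      intro z i u hiu
      simp only [hD]
      rw [Ex_indep h1 hZ' {x | G.Reachable i x} (fun f => if f i = z then 1 else 0)
        (fun f => h u (f u)) (closed_reach G i) ?_ ?_]
      · simp only [mg, sub_self]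
      · intro f f' hf
        have : f i = f' i := hf i (SimpleGraph.Reachable.refl i)
        simp only [this]
      · intro f f' hf
        have : f u = f' u := hf u hiu
        simp only [this]
    refine ⟨∑ u ∈ univ.erase v, Ex G φ (fun f => h u (f u)), fun z hφz hlt => ?_⟩
    have hpos : ∀ i ∈ nb H v, 0 < 1 - mg G φ i z := fun i hi => by linarith [hlt i hi]
    have hPi : 0 < ∏ i ∈ nb H v, (1 - mg G φ i z) := Finset.prod_pos hpos
    -- one vertex
    have hone : ∀ u, u ≠ v →
        Ex G φ (fun f => h u (f u) * ∏ i ∈ nb H v, (1 - (if f i = z then 1 else 0))) =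
        (∏ i ∈ nb H v, (1 - mg G φ i z)) *
          (Ex G φ (fun f => h u (f u)) - ∑ i ∈ nb H v, D z i u / (1 - mg G φ i z)) := by
      intro u huv
      by_cases hu : ∃ j ∈ nb H v, G.Reachable j u
      · obtain ⟨j, hj, hju⟩ := hu
        have hsum : ∑ i ∈ nb H v, D z i u / (1 - mg G φ i z) = D z j u / (1 - mg G φ j z) := by
          refine Finset.sum_eq_single_of_mem j hj fun i hi hij => ?_
          rw [hD0 z i u ?_, zero_div]
          intro hiu
          exact hdis i hi j hj hij (hiu.trans hju.symm)
        have hsplit : (fun f : V → C => h u (f u) *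
            ∏ i ∈ nb H v, (1 - (if f i = z then (1 : ℝ) else 0))) =
            fun f => (h u (f u) * (1 - (if f j = z then (1 : ℝ) else 0))) *
              ∏ i ∈ (nb H v).erase j, (1 - (if f i = z then (1 : ℝ) else 0)) := by
          funext f
          rw [← Finset.mul_prod_erase (nb H v) _ hj]; ring
        rw [hsplit, Ex_prod h1 hZ' z ((nb H v).erase j) ?_
          (fun f => h u (f u) * (1 - (if f j = z then (1 : ℝ) else 0))) ?_, hsum,
          ← Finset.mul_prod_erase (nb H v) _ hj]
        · have h5 : Ex G φ (fun f => h u (f u) * (1 - (if f j = z then (1 : ℝ) else 0))) =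
              Ex G φ (fun f => h u (f u)) -
                Ex G φ (fun f => (if f j = z then 1 else 0) * h u (f u)) := by
            rw [← Ex_sub]
            congr 1
            funext f
            ring
          rw [h5]
          have h6 : Ex G φ (fun f => (if f j = z then 1 else 0) * h u (f u)) =
              D z j u + mg G φ j z * Ex G φ (fun f => h u (f u)) := by
            simp only [hD]; ring
          rw [h6]
          have h7 := (hpos j hj).ne'
          field_simp
          ring
        · intro i hi k hk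
          exact hdis i (Finset.mem_of_mem_erase hi) k (Finset.mem_of_mem_erase hk)
        · intro f f' hf
          have h8 : f u = f' u := by
            refine hf u fun i hi hiu => ?_
            exact hdis i (Finset.mem_of_mem_erase hi) j hj (Finset.ne_of_mem_erase hi)
              (hiu.trans hju.symm)
          have h9 : f j = f' j := by
            refine hf j fun i hi hij => ?_
            exact hdis i (Finset.mem_of_mem_erase hi) j hj (Finset.ne_of_mem_erase hi) hij
          simp only [h8, h9]
      · push Not at hu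
        have hsum : ∑ i ∈ nb H v, D z i u / (1 - mg G φ i z) = 0 :=
          Finset.sum_eq_zero fun i hi => by rw [hD0 z i u (hu i hi), zero_div]
        rw [hsum, sub_zero, Ex_prod h1 hZ' z (nb H v) hdis (fun f => h u (f u)) ?_, mul_comm]
        intro f f' hf
        have : f u = f' u := hf u fun i hi => hu i hi
        simp only [this]
    -- numerator
    have hnum : Ex H φ (fun f => (if f v = z then 1 else 0) * ∑ u, h u (f u)) =
        mg H φ v z * h v z + Zp G φ / Zp H φ * (mg G φ v z *
          ((∏ i ∈ nb H v, (1 - mg G φ i z)) *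
            (∑ u ∈ univ.erase v, Ex G φ (fun f => h u (f u)) -
              ∑ i ∈ nb H v, (∑ u ∈ univ.erase v, D z i u) / (1 - mg G φ i z)))) := by
      have e1 : (fun f : V → C => (if f v = z then (1 : ℝ) else 0) * ∑ u, h u (f u)) =
          fun f => h v z * (if f v = z then (1 : ℝ) else 0) +
            (if f v = z then (1 : ℝ) else 0) * ∑ u ∈ univ.erase v, h u (f u) := by
        funext f
        rw [← Finset.add_sum_erase univ (fun u => h u (f u)) (Finset.mem_univ v)]
        by_cases hf : f v = z
        · simp [hf]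
        · simp [hf]
      rw [e1, Ex_add, Ex_mul]
      have e2 : Ex H φ (fun f => if f v = z then (1 : ℝ) else 0) = mg H φ v z := rfl
      rw [e2, hbase z (fun f => ∑ u ∈ univ.erase v, h u (f u)) ?_]
      · have e3 : (fun f : V → C => (∑ u ∈ univ.erase v, h u (f u)) *
            ∏ i ∈ nb H v, (1 - (if f i = z then (1 : ℝ) else 0))) =
            fun f => ∑ u ∈ univ.erase v, h u (f u) *
              ∏ i ∈ nb H v, (1 - (if f i = z then (1 : ℝ) else 0)) := by
          funext f; rw [Finset.sum_mul]
        rw [e3, Ex_sum]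
        have e4 : ∑ u ∈ univ.erase v, Ex G φ (fun f => h u (f u) *
              ∏ i ∈ nb H v, (1 - (if f i = z then (1 : ℝ) else 0))) =
            (∏ i ∈ nb H v, (1 - mg G φ i z)) *
            (∑ u ∈ univ.erase v, Ex G φ (fun f => h u (f u)) -
              ∑ i ∈ nb H v, (∑ u ∈ univ.erase v, D z i u) / (1 - mg G φ i z)) := by
          rw [Finset.sum_congr rfl fun u hu => hone u (Finset.ne_of_mem_erase hu),
            ← Finset.mul_sum, Finset.sum_sub_distrib, Finset.sum_comm]
          congr 2
          exact Finset.sum_congr rfl fun i _ => (Finset.sum_div _ _ _).symm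
        rw [e4]
        ring
      · intro f f' hf
        exact Finset.sum_congr rfl fun u hu => by rw [hf u (Finset.ne_of_mem_erase hu)]
    -- the sum of the defects
    have hDs : ∀ i ∈ nb H v, (∑ u ∈ univ.erase v, D z i u) / (1 - mg G φ i z) =
        mg G φ i z / (1 - mg G φ i z) *
          (cEx G φ i z (fun f => ∑ u, h u (f u)) - Ex G φ (fun f => ∑ u, h u (f u))) := by
      intro i hi
      have e1 : ∑ u ∈ univ.erase v, D z i u = ∑ u, D z i u := by
        rw [← Finset.add_sum_erase univ _ (Finset.mem_univ v),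
          hD0 z i v (not_reach_root (hnv i hi)), zero_add]
      have e2 : ∑ u, D z i u = mg G φ i z *
          (cEx G φ i z (fun f => ∑ u, h u (f u)) - Ex G φ (fun f => ∑ u, h u (f u))) := by
        rw [mul_sub, hce2 i z]
        simp only [hD]
        rw [Finset.sum_sub_distrib, ← Finset.mul_sum, ← Ex_sum, ← Ex_sum]
        congr 2
        funext f
        rw [Finset.mul_sum]
      rw [e1, e2]
      ring
    have hmgpos : 0 < mg H φ v z := by
      rw [hmgH z, hmgG z]
      exact mul_pos (div_pos hZ' hZ) (mul_pos (div_pos hφz hΦ) hPi)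
    have hfin : cEx H φ v z (fun f => ∑ u, h u (f u)) =
        Ex H φ (fun f => (if f v = z then 1 else 0) * ∑ u, h u (f u)) / mg H φ v z := rfl
    rw [hfin, hnum, div_eq_iff hmgpos.ne']
    rw [Finset.sum_congr rfl hDs]
    have hmm := hmgH z
    rw [hmm]
    ring

end Pool.Agent.KempeLG
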