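import Pool.Agent.Lib.MP_26a019_lc.LG.Spec

set_option autoImplicit false
set_option linter.unusedSectionVars false

open Finset Classical Pool.Agent.Kempe Pool.Agent.KempeMix

namespace Pool.Agent.KempeLG

namespace GirthAux

variable {V : Type}

/-- Two different paths with the same ends contain a short cycle. -/
theorem short_cycle {G : SimpleGraph V} {v x : V} (p q : G.Walk v x) (hp : p.IsPath)
    (hq : q.IsPath) (hne : p ≠ q) :
    ∃ (u : V) (c : G.Walk u u), c.IsCycle ∧ c.length ≤ p.length + q.length := by
  let S : Set (Sym2 V) := {e | e ∈ p.edges ∨ e ∈ q.edges}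
  let H : SimpleGraph V := SimpleGraph.fromEdgeSet S
  have hHG : H ≤ G := by
    intro a b hab
    have h1 := (SimpleGraph.fromEdgeSet_adj S).1 hab
    rcases h1.1 with h | h
    · exact p.adj_of_mem_edges h
    · exact q.adj_of_mem_edges h
  have hpH : ∀ e ∈ p.edges, e ∈ H.edgeSet := by
    intro e he
    rw [SimpleGraph.edgeSet_fromEdgeSet]
    refine ⟨Or.inl he, ?_⟩
    exact G.not_isDiag_of_mem_edgeSet (p.edges_subset_edgeSet he)
  have hqH : ∀ e ∈ q.edges, e ∈ H.edgeSet := by
    intro e he
    rw [SimpleGraph.edgeSet_fromEdgeSet]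
    refine ⟨Or.inr he, ?_⟩
    exact G.not_isDiag_of_mem_edgeSet (q.edges_subset_edgeSet he)
  have hnac : ¬ H.IsAcyclic := by
    intro hac
    have h := (hac.subsingleton_path v x).elim ⟨p.transfer H hpH, hp.transfer hpH⟩
      ⟨q.transfer H hqH, hq.transfer hqH⟩
    have h2 : p.transfer H hpH = q.transfer H hqH := congrArg Subtype.val h
    have h3 : p.support = q.support := by
      rw [← p.support_transfer hpH, ← q.support_transfer hqH, h2]
    exact hne (SimpleGraph.Walk.ext_support h3)
  rw [SimpleGraph.IsAcyclic] at hnac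
  push Not at hnac
  obtain ⟨u, c, hc⟩ := hnac
  refine ⟨u, c.mapLe hHG, hc.mapLe hHG, ?_⟩
  rw [SimpleGraph.Walk.length_map]
  rw [← SimpleGraph.Walk.length_edges, ← p.length_edges, ← q.length_edges, ← List.length_append]
  refine (List.Nodup.subperm hc.edges_nodup ?_).length_le
  intro e he
  have h := c.edges_subset_edgeSet he
  rw [SimpleGraph.edgeSet_fromEdgeSet] at h
  rw [List.mem_append]
  exact h.1

/-- A shortest walk to a vertex `y` not closer than... avoids `x` if `y` is not farther than `x`. -/
theorem path_concat {G : SimpleGraph V} {v x y : V} (hxy : G.Adj y x) (hy : G.Reachable v y)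
    (hd : G.dist v y ≤ G.dist v x) :
    ∃ p : G.Walk v y, ∃ _ : (p.concat hxy).IsPath, p.length = G.dist v y := by
  obtain ⟨p, hp, hl⟩ := hy.exists_path_of_dist
  refine ⟨p, ?_, hl⟩
  refine hp.concat ?_ hxy
  intro hx
  have h1 : G.dist v x ≤ (p.takeUntil x hx).length := SimpleGraph.dist_le _
  have h2 : (p.takeUntil x hx).length + (p.dropUntil x hx).length = p.length := by
    rw [← SimpleGraph.Walk.length_append, SimpleGraph.Walk.take_spec]
  have h3 : (p.dropUntil x hx).length ≠ 0 := by
    intro h0
    exact hxy.ne (SimpleGraph.Walk.eq_of_length_eq_zero h0).symm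
  omega

end GirthAux

open GirthAux

theorem girth : GirthStmt := by
  intro V _ G k v hg u c hc
  have hT : ∀ w ∈ c.support, near G v (k + 1) w := by
    intro w hw
    have h1 : w ∉ univ.filter (fun u => ¬ near G v (k + 1) u) := by
      have hr := hc.rotate hw
      have hn : ¬ (c.rotate w hw).Nil := hr.not_nil
      have h2 := (c.rotate w hw).adj_snd hn
      exact h2.2.1
    rw [mem_filter] at h1
    push Not at h1
    exact h1 (mem_univ _)
  have hne : c.support.toFinset.Nonempty := ⟨u, by
    rw [List.mem_toFinset]; exact c.start_mem_support⟩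
  obtain ⟨x, hx, hmax⟩ := Finset.exists_max_image c.support.toFinset (fun w => G.dist v w) hne
  rw [List.mem_toFinset] at hx
  have hr := hc.rotate hx
  have hn : ¬ (c.rotate x hx).Nil := hr.not_nil
  have hsupp : ∀ w ∈ (c.rotate x hx).support, w ∈ c.support := by
    intro w hw
    exact (c.mem_support_rotate_iff _ hx).1 hw
  have hy1 := (c.rotate x hx).adj_snd hn
  have hz1 := (c.rotate x hx).adj_penultimate hn
  have hyz := hr.snd_ne_penultimate
  have hy2 : (c.rotate x hx).snd ∈ c.support := hsupp _ ((c.rotate x hx).getVert_mem_support _)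
  have hz2 : (c.rotate x hx).penultimate ∈ c.support := hsupp _ ((c.rotate x hx).getVert_mem_support _)
  set y := (c.rotate x hx).snd with hydef
  set z := (c.rotate x hx).penultimate with hzdef
  have hyx : G.Adj y x := hy1.1.symm
  have hzx : G.Adj z x := hz1.1
  have hreach : ∀ w ∈ c.support, G.Reachable v w := fun w hw => by
    obtain ⟨q, _⟩ := hT w hw
    exact q.reachable
  have hyd := hmax y (by rw [List.mem_toFinset]; exact hy2)
  have hzd := hmax z (by rw [List.mem_toFinset]; exact hz2)
  have hxk : G.dist v x ≤ k := by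
    obtain ⟨q, hq⟩ := hT x hx
    have := SimpleGraph.dist_le q
    omega
  obtain ⟨p, hp, hpl⟩ := path_concat hyx (hreach y hy2) hyd
  obtain ⟨q, hq, hql⟩ := path_concat hzx (hreach z hz2) hzd
  have hne2 : p.concat hyx ≠ q.concat hzx := by
    intro h
    apply hyz
    have h3 : (p.concat hyx).penultimate = (q.concat hzx).penultimate := by rw [h]
    rw [SimpleGraph.Walk.penultimate_concat, SimpleGraph.Walk.penultimate_concat] at h3
    exact h3
  obtain ⟨w, c', hc', hl'⟩ := short_cycle _ _ hp hq hne2
  have h4 := hg w c' hc'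
  rw [SimpleGraph.Walk.length_concat, SimpleGraph.Walk.length_concat] at hl'
  omega

end Pool.Agent.KempeLG
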