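import Pool.Agent.Lib.MP_26a019_lc.LG.Spec

set_option autoImplicit false

/-!
# Greedy extension of partial list colourings
-/

open Finset Classical Pool.Agent.Kempe Pool.Agent.KempeMix

namespace Pool.Agent.KempeLG

lemma greedy_aux (V C : Type) [Fintype V] [Fintype C] (H : SimpleGraph V) (L : V → Finset C)
    (n : ℕ) : ∀ (S : Finset V) (p : V → C), (univ.filter (fun v => v ∉ S)).card = n →
    (∀ u ∈ S, ∀ w ∈ S, H.Adj u w → p u ≠ p w) → (∀ u, u ∉ S → dg H u < (L u).card) →
    ∃ f : V → C, Proper H f ∧ (∀ u ∈ S, f u = p u) ∧ ∀ u, u ∉ S → f u ∈ L u := by
  induction n with
  | zero =>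
    intro S p hn hS _
    have hall : ∀ u, u ∈ S := by
      intro u
      by_contra hu
      have : u ∈ univ.filter (fun v => v ∉ S) := by simp [hu]
      rw [card_eq_zero.mp hn] at this
      simp at this
    exact ⟨p, fun u w huw => hS u (hall u) w (hall w) huw, fun _ _ => rfl,
      fun u hu => absurd (hall u) hu⟩
  | succ n ih =>
    intro S p hn hS hL
    have hne : (univ.filter (fun v => v ∉ S)).Nonempty := by
      rw [← card_pos]
      omega
    obtain ⟨v, hv⟩ := hne
    have hvS : v ∉ S := by simpa using hv
    have hc : ∃ c ∈ L v, c ∉ (nb H v).image p := by
      by_contra hcon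
      push Not at hcon
      have h1 : (L v).card ≤ ((nb H v).image p).card := card_le_card hcon
      have h2 : ((nb H v).image p).card ≤ dg H v := card_image_le
      have h3 := hL v hvS
      omega
    obtain ⟨c, hcL, hcn⟩ := hc
    have hcard : (univ.filter (fun u => u ∉ insert v S)).card = n := by
      have h1 : univ.filter (fun u => u ∉ insert v S) = (univ.filter (fun u => u ∉ S)).erase v := by
        ext u
        simp only [mem_filter, mem_univ, true_and, mem_insert, mem_erase, not_or, ne_eq]
      rw [h1, card_erase_of_mem hv, hn]
      rfl
    obtain ⟨f, hf1, hf2, hf3⟩ := ih (insert v S) (fun u => if u = v then c else p u) hcard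
      (by
        intro u hu w hw huw
        by_cases huv : u = v
        · have hwv : w ≠ v := by
            rintro rfl
            rw [huv] at huw
            exact H.loopless.irrefl _ huw
          rw [if_pos huv, if_neg hwv]
          intro h
          apply hcn
          rw [mem_image]
          refine ⟨w, ?_, h.symm⟩
          unfold nb
          simp only [mem_filter, mem_univ, true_and]
          rw [← huv]
          exact huw
        · rw [if_neg huv]
          by_cases hwv : w = v
          · rw [if_pos hwv]
            intro h
            apply hcn
            rw [mem_image]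
            refine ⟨u, ?_, h⟩
            unfold nb
            simp only [mem_filter, mem_univ, true_and]
            rw [← hwv]
            exact huw.symm
          · rw [if_neg hwv]
            exact hS u ((mem_insert.mp hu).resolve_left huv) w
              ((mem_insert.mp hw).resolve_left hwv) huw)
      (by
        intro u hu
        exact hL u (fun h => hu (mem_insert_of_mem h)))
    refine ⟨f, hf1, ?_, ?_⟩
    · intro u hu
      have h1 := hf2 u (mem_insert_of_mem hu)
      have huv : u ≠ v := by
        rintro rfl
        exact hvS hu
      rw [if_neg huv] at h1
      exact h1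
    · intro u hu
      by_cases huv : u = v
      · have h1 := hf2 v (mem_insert_self v S)
        rw [if_pos rfl] at h1
        rw [huv, h1]
        exact hcL
      · exact hf3 u (fun h => (mem_insert.mp h).elim huv hu)

/-- Greedy extension of partial list colourings. -/
theorem greedy : GreedyStmt := by
  intro V C _ _ H L S p hS hL
  exact greedy_aux V C H L _ S p rfl hS hL

end Pool.Agent.KempeLG
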