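import Pool.Agent.Lib.MP_26a019_lc.LG.Spec

set_option autoImplicit false

/-!
# Independence of unions of components, by the exchange trick
-/

open Finset Classical

namespace Pool.Agent.KempeLG

open Pool.Agent.Kempe Pool.Agent.KempeMix

namespace IndepAux

variable {V C : Type}

/-- `f` on `A`, `g` off `A` -/
noncomputable def mix (A : Set V) (f g : V → C) : V → C := fun u => if u ∈ A then f u else g u

lemma mix_mem (A : Set V) (f g : V → C) {u : V} (hu : u ∈ A) : mix A f g u = f u := by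
  simp [mix, hu]

lemma mix_not (A : Set V) (f g : V → C) {u : V} (hu : u ∉ A) : mix A f g u = g u := by
  simp [mix, hu]

lemma mix_mix (A : Set V) (f g : V → C) : mix A (mix A f g) (mix A g f) = f := by
  funext u
  by_cases hu : u ∈ A
  · rw [mix_mem A _ _ hu, mix_mem A _ _ hu]
  · rw [mix_not A _ _ hu, mix_not A _ _ hu]

/-- the exchange -/
noncomputable def ex (A : Set V) : ((V → C) × (V → C)) ≃ ((V → C) × (V → C)) where
  toFun x := (mix A x.1 x.2, mix A x.2 x.1)
  invFun x := (mix A x.1 x.2, mix A x.2 x.1)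
  left_inv x := by
    simp only [mix_mix]
  right_inv x := by
    simp only [mix_mix]

lemma proper_mix {H : SimpleGraph V} {A : Set V} (hA : ∀ u w, H.Adj u w → (u ∈ A ↔ w ∈ A))
    {f g : V → C} (hf : Proper H f) (hg : Proper H g) : Proper H (mix A f g) := by
  intro u w huw
  by_cases hu : u ∈ A
  · rw [mix_mem A _ _ hu, mix_mem A _ _ ((hA u w huw).1 hu)]
    exact hf u w huw
  · rw [mix_not A _ _ hu, mix_not A _ _ (fun h => hu ((hA u w huw).2 h))]
    exact hg u w huw

lemma wt_mix [Fintype V] [Fintype C] {H : SimpleGraph V} (φ : V → C → ℝ) {A : Set V}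
    (hA : ∀ u w, H.Adj u w → (u ∈ A ↔ w ∈ A)) (f g : V → C) :
    wt H φ (mix A f g) * wt H φ (mix A g f) = wt H φ f * wt H φ g := by
  by_cases h : Proper H f ∧ Proper H g
  · unfold wt
    rw [if_pos (proper_mix hA h.1 h.2), if_pos (proper_mix hA h.2 h.1), if_pos h.1, if_pos h.2,
      ← Finset.prod_mul_distrib, ← Finset.prod_mul_distrib]
    refine Finset.prod_congr rfl fun u _ => ?_
    by_cases hu : u ∈ A
    · rw [mix_mem A _ _ hu, mix_mem A _ _ hu]
    · rw [mix_not A _ _ hu, mix_not A _ _ hu, mul_comm]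
  · have h' : ¬ (Proper H (mix A f g) ∧ Proper H (mix A g f)) := by
      rintro ⟨h1, h2⟩
      apply h
      have e1 := proper_mix hA h1 h2
      have e2 := proper_mix hA h2 h1
      rw [mix_mix] at e1 e2
      exact ⟨e1, e2⟩
    have l1 : wt H φ (mix A f g) * wt H φ (mix A g f) = 0 := by
      rcases not_and_or.1 h' with h1 | h1
      · rw [wt, if_neg h1, zero_mul]
      · rw [wt, wt, if_neg h1, mul_zero]
    have l2 : wt H φ f * wt H φ g = 0 := by
      rcases not_and_or.1 h with h1 | h1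
      · rw [wt, if_neg h1, zero_mul]
      · rw [wt, wt, if_neg h1, mul_zero]
    rw [l1, l2]

end IndepAux

open IndepAux

theorem indep : IndepStmt := by
  intro V C _ _ H φ A g₁ g₂ hA h₁ h₂
  have e1 : (∑ f, wt H φ f * (g₁ f * g₂ f)) * Zp H φ =
      ∑ x : (V → C) × (V → C), (wt H φ x.1 * (g₁ x.1 * g₂ x.1)) * wt H φ x.2 := by
    rw [Zp, Finset.sum_mul_sum, ← Finset.univ_product_univ, Finset.sum_product]
  have e2 : (∑ f, wt H φ f * g₁ f) * (∑ f, wt H φ f * g₂ f) =
      ∑ x : (V → C) × (V → C), (wt H φ x.1 * g₁ x.1) * (wt H φ x.2 * g₂ x.2) := by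
    rw [Finset.sum_mul_sum, ← Finset.univ_product_univ, Finset.sum_product]
  rw [e1, e2, ← Equiv.sum_comp (ex A)]
  refine Finset.sum_congr rfl fun x _ => ?_
  obtain ⟨f, g⟩ := x
  simp only [ex, Equiv.coe_fn_mk]
  have k1 : g₁ (mix A f g) = g₁ f := h₁ _ _ fun u hu => mix_mem A f g hu
  have k2 : g₂ (mix A f g) = g₂ g := h₂ _ _ fun u hu => mix_not A f g hu
  rw [k1, k2]
  linear_combination (g₁ f * g₂ g) * wt_mix φ hA f g

end Pool.Agent.KempeLG
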