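import Pool.Agent.Lib.MP_26a019_lc.LG.Spec

set_option autoImplicit false

/-!
# Simple facts on influences
-/

open Finset Classical

namespace Pool.Agent.KempeLG

open Pool.Agent.Kempe Pool.Agent.KempeMix

namespace InflAux

variable {V C : Type} [Fintype V] [Fintype C]

lemma pr_nonneg (G : SimpleGraph V) (T : Finset V) (p : V → C) (w : V) (c : C) :
    0 ≤ pr G T p w c := by
  unfold pr
  positivity

lemma sum_pr_le (G : SimpleGraph V) (T : Finset V) (p : V → C) (w : V) :
    ∑ c, pr G T p w c ≤ 1 := by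
  unfold pr
  rw [← Finset.sum_div]
  have h : ∑ c, (((Om G T p).filter (fun f => f w = c)).card : ℝ) = ((Om G T p).card : ℝ) := by
    rw [Finset.card_eq_sum_card_fiberwise (f := fun f : V → C => f w) (s := Om G T p)
      (t := univ) (fun f _ => Finset.mem_coe.2 (Finset.mem_univ _))]
    push_cast
    rfl
  rw [h]
  exact div_self_le_one _

lemma pr_of_const (G : SimpleGraph V) (T : Finset V) (p : V → C) (w : V) (c d : C)
    (hp : p ∈ Om G T p) (h : ∀ f ∈ Om G T p, f w = d) :
    pr G T p w c = if d = c then 1 else 0 := by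
  have hne : ((Om G T p).card : ℝ) ≠ 0 := by
    have : 0 < (Om G T p).card := Finset.card_pos.2 ⟨p, hp⟩
    exact_mod_cast this.ne'
  unfold pr
  split_ifs with hd
  · rw [Finset.filter_true_of_mem (fun f hf => (h f hf).trans hd), div_self hne]
  · rw [Finset.filter_false_of_mem (fun f hf hc => hd ((h f hf).symm.trans hc))]
    simp

lemma del_nonneg (G : SimpleGraph V) (T : Finset V) (v w : V) (pa pb : V → C) :
    0 ≤ del G T v w pa pb := by
  unfold del
  have := Finset.sum_nonneg (s := (univ : Finset C)) (fun c _ =>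
    abs_nonneg (pr G (insert v T) pa w c - pr G (insert v T) pb w c))
  linarith

lemma del_le_one (G : SimpleGraph V) (T : Finset V) (v w : V) (pa pb : V → C) :
    del G T v w pa pb ≤ 1 := by
  unfold del
  have h1 : ∑ c, |pr G (insert v T) pa w c - pr G (insert v T) pb w c| ≤
      ∑ c, (pr G (insert v T) pa w c + pr G (insert v T) pb w c) := by
    refine Finset.sum_le_sum fun c _ => ?_
    rw [abs_le]
    have h2 := pr_nonneg G (insert v T) pa w c
    have h3 := pr_nonneg G (insert v T) pb w c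
    constructor <;> linarith
  rw [Finset.sum_add_distrib] at h1
  have h2 := sum_pr_le G (insert v T) pa w
  have h3 := sum_pr_le G (insert v T) pb w
  linarith

lemma self_mem (G : SimpleGraph V) (T T' : Finset V) (p pa : V → C) (h : pa ∈ Om G T p) :
    pa ∈ Om G T' pa :=
  Finset.mem_filter.2 ⟨Finset.mem_univ _, (Finset.mem_filter.1 h).2.1, fun _ _ => rfl⟩

lemma Om_eq (G : SimpleGraph V) (T : Finset V) (p pa : V → C) (h : pa ∈ Om G T p) :
    Om G T pa = Om G T p := by
  have h2 := (Finset.mem_filter.1 h).2.2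
  ext f
  simp only [Om, Finset.mem_filter, Finset.mem_univ, true_and]
  exact ⟨fun hf => ⟨hf.1, fun z hz => (hf.2 z hz).trans (h2 z hz)⟩,
    fun hf => ⟨hf.1, fun z hz => (hf.2 z hz).trans (h2 z hz).symm⟩⟩

lemma del_of_mem (G : SimpleGraph V) (T : Finset V) (v w : V) (p pa pb : V → C)
    (ha : pa ∈ Om G T p) (hb : pb ∈ Om G T p) (hw : w ∈ T) : del G T v w pa pb = 0 := by
  have key : ∀ p' ∈ Om G T p, ∀ c, pr G (insert v T) p' w c = if p w = c then 1 else 0 := by
    intro p' hp' c
    refine pr_of_const G _ p' w c (p w) (self_mem G T _ p p' hp') ?_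
    intro f hf
    rw [(Finset.mem_filter.1 hf).2.2 w (Finset.mem_insert_of_mem hw)]
    exact (Finset.mem_filter.1 hp').2.2 w hw
  unfold del
  rw [Finset.sum_eq_zero, mul_zero]
  intro c _
  rw [key pa ha c, key pb hb c, sub_self, abs_zero]

lemma del_of_mem' (G : SimpleGraph V) (T : Finset V) (v w : V) (p pa pb : V → C)
    (ha : pa ∈ Om G T p) (hb : pb ∈ Om G T p) (hv : v ∈ T) : del G T v w pa pb = 0 := by
  have key : ∀ p' ∈ Om G T p, ∀ c, pr G (insert v T) p' w c = pr G T p w c := by
    intro p' hp' c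
    unfold pr
    rw [Finset.insert_eq_of_mem hv, Om_eq G T p p' hp']
  unfold del
  rw [Finset.sum_eq_zero, mul_zero]
  intro c _
  rw [key pa ha c, key pb hb c, sub_self, abs_zero]

end InflAux

open InflAux in
theorem inflBasic (_h : PinStmt) : InflStmt := by
  intro V C _ _ G T p v w _ hp
  have hpO : p ∈ Om G T p :=
    Finset.mem_filter.2 ⟨Finset.mem_univ _, (Finset.mem_filter.1 hp).2, fun _ _ => rfl⟩
  have hne : Nonempty {x : (V → C) × (V → C) // x.1 ∈ Om G T p ∧ x.2 ∈ Om G T p} :=
    ⟨⟨(p, p), hpO, hpO⟩⟩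
  have hbd : BddAbove (Set.range
      (fun x : {x : (V → C) × (V → C) // x.1 ∈ Om G T p ∧ x.2 ∈ Om G T p} =>
        del G T v w x.1.1 x.1.2)) :=
    ⟨1, by rintro _ ⟨x, rfl⟩; exact del_le_one G T v w _ _⟩
  refine ⟨?_, ?_, ?_, ?_, ?_⟩
  · exact Real.iSup_nonneg fun x => del_nonneg G T v w _ _
  · exact ciSup_le fun x => del_le_one G T v w _ _
  · intro hw
    unfold infl
    have : (fun x : {x : (V → C) × (V → C) // x.1 ∈ Om G T p ∧ x.2 ∈ Om G T p} =>
        del G T v w x.1.1 x.1.2) = fun _ => 0 := by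
      funext x
      exact del_of_mem G T v w p _ _ x.2.1 x.2.2 hw
    rw [this]
    exact ciSup_const
  · intro hv
    unfold infl
    have : (fun x : {x : (V → C) × (V → C) // x.1 ∈ Om G T p ∧ x.2 ∈ Om G T p} =>
        del G T v w x.1.1 x.1.2) = fun _ => 0 := by
      funext x
      exact del_of_mem' G T v w p _ _ x.2.1 x.2.2 hv
    rw [this]
    exact ciSup_const
  · intro pa ha pb hb
    exact le_ciSup hbd ⟨(pa, pb), ha, hb⟩

end Pool.Agent.KempeLG
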