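import Pool.Agent.Lib.MP_26a019_lc.LG.Spec

set_option autoImplicit false

/-!
# Glauber dynamics with `Δ + 2` colours on graphs of large girth: one level

The sum of the influences on one sphere for a family of pinnings.
-/

open Finset Classical

namespace Pool.Agent.KempeLG

open Pool.Agent.Kempe Pool.Agent.KempeMix

namespace OneLevelAux

theorem near_trans {V : Type} {G : SimpleGraph V} {a b c : V} {k l n : ℕ} (h1 : near G a k b)
    (h2 : near G b l c) (hn : k + l ≤ n + 1) : near G a n c := by
  obtain ⟨w1, hw1⟩ := h1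
  obtain ⟨w2, hw2⟩ := h2
  refine ⟨w1.append w2, ?_⟩
  rw [SimpleGraph.Walk.length_append]
  omega

theorem near_mono {V : Type} {G : SimpleGraph V} {a b : V} {k l : ℕ} (h1 : near G a k b)
    (hn : k ≤ l) : near G a l b := by
  obtain ⟨w1, hw1⟩ := h1
  exact ⟨w1, by omega⟩

theorem near_adj {V : Type} {G : SimpleGraph V} {a b : V} (h : G.Adj a b) : near G a 2 b :=
  ⟨SimpleGraph.Walk.cons h SimpleGraph.Walk.nil, by simp⟩

theorem err_nonneg (q k : ℕ) : 0 ≤ err q k := Real.sqrt_nonneg _

theorem cut_acyclic {V : Type} {G : SimpleGraph V} {B T : Finset V} (hBT : B ⊆ T)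
    (h : (cut G B).IsAcyclic) : (cut G T).IsAcyclic := by
  refine h.anti ?_
  intro u w huw
  exact ⟨huw.1, fun hu => huw.2.1 (hBT hu), fun hw => huw.2.2 (hBT hw)⟩

variable {V C : Type} [Fintype V] [Fintype C]

theorem mem_om {G : SimpleGraph V} {T : Finset V} {p f : V → C} :
    f ∈ Om G T p ↔ Proper G f ∧ ∀ z ∈ T, f z = p z := by
  unfold Om
  simp

theorem mem_pc {G : SimpleGraph V} {f : V → C} : f ∈ PC G C ↔ Proper G f := by
  unfold PC
  simp

end OneLevelAux

open OneLevelAux in
theorem oneLevel (h1 : PinTidStmt) (h2 : PinSsmStmt) (h3 : GreedyStmt) (_h4 : PinStmt)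
    (h5 : CountStmt) (h6 : InflStmt) : OneLevelStmt := by
  intro V C _ _ G B v0 R T p hd hac hF x j s r hs hr hR hx Y ω hY
  set q : ℕ := Fintype.card C with hq
  have he1 := err_nonneg q (s - 1)
  have he2 := err_nonneg q (r - 2)
  have hrhs : 0 ≤ (q : ℝ) ^ 2 * err q (s - 1) + (q : ℝ) ^ (s + 2) * err q (r - 2) := by
    positivity
  rcases Y.eq_empty_or_nonempty with hY0 | ⟨y0, hy0⟩
  · rw [hY0, Finset.sum_empty]
    exact hrhs
  obtain ⟨hω0, -, -⟩ := hY y0 hy0
  set T0 := T (ω y0) with hT0
  set p0 := p (ω y0) with hp0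
  have hxR : near G v0 R x := near_mono hx (by omega)
  have hp0' : Proper G p0 := mem_pc.1 (hF.pc _ hω0)
  by_cases hxT : x ∈ T0
  · have : ∀ y ∈ Y, infl G (T (ω y)) (p (ω y)) x y = 0 := by
      intro y hy
      obtain ⟨hω, -, -⟩ := hY y hy
      have hx' : x ∈ T (ω y) := ((hF.agree _ hω0 _ hω x hxR).1).1 hxT
      exact (h6 V C G (T (ω y)) (p (ω y)) x y hd (hF.pc _ hω)).2.2.2.1 hx'
    rw [Finset.sum_congr rfl this, Finset.sum_const_zero]
    exact hrhs
  -- the representatives
  have hP : ∀ a : C, ∃ f : V → C, (∃ f' ∈ Om G T0 p0, f' x = a) → (f ∈ Om G T0 p0 ∧ f x = a) := by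
    intro a
    by_cases h : ∃ f' ∈ Om G T0 p0, f' x = a
    · obtain ⟨f', h1, h2⟩ := h
      exact ⟨f', fun _ => ⟨h1, h2⟩⟩
    · exact ⟨p0, fun h' => absurd h' h⟩
  choose P hP using hP
  set A : Finset C := univ.filter (fun a => ∃ f' ∈ Om G T0 p0, f' x = a) with hA
  have hPA : ∀ a ∈ A, P a ∈ Om G T0 p0 ∧ P a x = a := by
    intro a ha
    rw [hA, Finset.mem_filter] at ha
    exact hP a ha.2
  set D : C → C → V → ℝ := fun a b y =>
    ∑ c, |pr G (insert x T0) (P a) y c - pr G (insert x T0) (P b) y c| with hD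
  have hD0 : ∀ a b y, 0 ≤ D a b y := fun a b y => Finset.sum_nonneg fun c _ => abs_nonneg _
  have hsumD : ∀ a ∈ A, ∀ b ∈ A, ∑ y ∈ Y, D a b y ≤ err q (s - 1) := by
    intro a ha b hb
    have e1 := h1 V C G T0 x p0 (P a) (P b) s hs hd (hF.pc _ hω0) (hPA a ha).1 (hPA b hb).1 hxT
      (cut_acyclic (hF.sub _ hω0) hac)
    refine le_trans (Finset.sum_le_sum_of_subset_of_nonneg ?_ (fun y _ _ => hD0 a b y)) e1
    intro y hy
    rw [Finset.mem_filter]
    exact ⟨Finset.mem_univ _, (hY y hy).2.2⟩
  -- the comparison at one vertex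
  have hone : ∀ y ∈ Y, infl G (T (ω y)) (p (ω y)) x y ≤
      (∑ a ∈ A, ∑ b ∈ A, D a b y) + q * err q (r - 2) := by
    intro y hy
    obtain ⟨hω, hxy, -⟩ := hY y hy
    have hcmp : ∀ f ∈ Om G (T (ω y)) (p (ω y)), f x ∈ A ∧
        ∀ c, |pr G (insert x (T (ω y))) f y c - pr G (insert x T0) (P (f x)) y c|
          ≤ err q (r - 2) := by
      intro f hf
      rw [mem_om] at hf
      obtain ⟨hfp, hfT⟩ := hf
      have hfA : f x ∈ A := by
        rw [hA, Finset.mem_filter]
        refine ⟨Finset.mem_univ _, ?_⟩
        obtain ⟨g, hg1, hg2, -⟩ := h3 V C G (fun _ => univ) (insert x T0)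
          (Function.update p0 x (f x)) (by
            have key : ∀ w ∈ T0, G.Adj x w → f x ≠ p0 w := by
              intro w hw hxw
              have hnw : near G v0 R w := near_trans hx (near_adj hxw) (by omega)
              have hag := hF.agree _ hω0 _ hω w hnw
              have hw' : w ∈ T (ω y) := hag.1.1 hw
              have e1 : p0 w = p (ω y) w := hag.2 hw
              rw [e1, ← hfT w hw']
              exact hfp x w hxw
            intro u hu w hw huw
            by_cases hux : u = x
            · subst hux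
              have hwu : w ≠ u := fun h => G.loopless.irrefl u (h ▸ huw)
              have hw' : w ∈ T0 := by
                rcases Finset.mem_insert.1 hw with h | h
                · exact absurd h hwu
                · exact h
              rw [Function.update_self, Function.update_of_ne hwu]
              exact key w hw' huw
            · have hu' : u ∈ T0 := by
                rcases Finset.mem_insert.1 hu with h | h
                · exact absurd h hux
                · exact h
              by_cases hwx : w = x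
              · subst hwx
                rw [Function.update_self, Function.update_of_ne hux]
                exact fun h => key u hu' huw.symm h.symm
              · rw [Function.update_of_ne hux, Function.update_of_ne hwx]
                exact hp0' u w huw)
          (by
            intro u _
            have := hd u
            rw [Finset.card_univ]
            omega)
        refine ⟨g, ?_, ?_⟩
        · rw [mem_om]
          refine ⟨hg1, fun z hz => ?_⟩
          rw [hg2 z (Finset.mem_insert_of_mem hz), Function.update_of_ne]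
          intro h
          exact hxT (h ▸ hz)
        · rw [hg2 x (Finset.mem_insert_self _ _), Function.update_self]
      refine ⟨hfA, fun c => ?_⟩
      obtain ⟨hP1, hP2⟩ := hPA (f x) hfA
      rw [mem_om] at hP1
      refine h2 V C G (insert x (T (ω y))) (insert x T0) f (P (f x)) y c r hr hd (mem_pc.2 hfp)
        (mem_pc.2 hP1.1)
        (cut_acyclic ((hF.sub _ hω).trans (Finset.subset_insert _ _)) hac)
        (cut_acyclic ((hF.sub _ hω0).trans (Finset.subset_insert _ _)) hac) ?_
      intro u hu
      have hnu : near G v0 R u :=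
        near_trans (near_trans (n := j + s + 1) hx hxy (by omega)) hu (by omega)
      have hag := hF.agree _ hω0 _ hω u hnu
      refine ⟨?_, ?_⟩
      · rw [Finset.mem_insert, Finset.mem_insert]
        exact or_congr Iff.rfl hag.1.symm
      · intro hu'
        rcases Finset.mem_insert.1 hu' with h | h
        · rw [h, hP2]
        · have hu0 : u ∈ T0 := hag.1.2 h
          rw [hfT u h, hP1.2 u hu0]
          exact (hag.2 hu0).symm
    have hne : Nonempty {z : (V → C) × (V → C) //
        z.1 ∈ Om G (T (ω y)) (p (ω y)) ∧ z.2 ∈ Om G (T (ω y)) (p (ω y))} := by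
      have : p (ω y) ∈ Om G (T (ω y)) (p (ω y)) :=
        mem_om.2 ⟨mem_pc.1 (hF.pc _ hω), fun _ _ => rfl⟩
      exact ⟨⟨(p (ω y), p (ω y)), this, this⟩⟩
    unfold infl
    refine ciSup_le ?_
    rintro ⟨⟨f, g⟩, hf, hg⟩
    obtain ⟨hfA, hfc⟩ := hcmp f hf
    obtain ⟨hgA, hgc⟩ := hcmp g hg
    unfold del
    change 1 / 2 * ∑ c, |pr G (insert x (T (ω y))) f y c - pr G (insert x (T (ω y))) g y c| ≤ _
    have e1 : ∑ c, |pr G (insert x (T (ω y))) f y c - pr G (insert x (T (ω y))) g y c| ≤
        D (f x) (g x) y + 2 * (q * err q (r - 2)) := by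
      have e2 : ∀ c ∈ (univ : Finset C),
          |pr G (insert x (T (ω y))) f y c - pr G (insert x (T (ω y))) g y c| ≤
          |pr G (insert x T0) (P (f x)) y c - pr G (insert x T0) (P (g x)) y c|
            + 2 * err q (r - 2) := by
        intro c _
        have a1 := abs_le.1 (hfc c)
        have a2 := abs_le.1 (hgc c)
        have a3 := abs_le.1 (le_refl |pr G (insert x T0) (P (f x)) y c -
          pr G (insert x T0) (P (g x)) y c|)
        rw [abs_le]
        constructor <;> linarith [a1.1, a1.2, a2.1, a2.2, a3.1, a3.2]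
      refine (Finset.sum_le_sum e2).trans ?_
      rw [Finset.sum_add_distrib, Finset.sum_const, Finset.card_univ, nsmul_eq_mul]
      have : (Fintype.card C : ℝ) * (2 * err q (r - 2)) = 2 * (q * err q (r - 2)) := by
        rw [← hq]
        ring
      rw [this]
    have e3 : D (f x) (g x) y ≤ ∑ a ∈ A, ∑ b ∈ A, D a b y := by
      calc D (f x) (g x) y ≤ ∑ b ∈ A, D (f x) b y :=
            Finset.single_le_sum (f := fun b => D (f x) b y) (fun b _ => hD0 _ b y) hgA
        _ ≤ ∑ a ∈ A, ∑ b ∈ A, D a b y :=
            Finset.single_le_sum (f := fun a => ∑ b ∈ A, D a b y)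
              (fun a _ => Finset.sum_nonneg fun b _ => hD0 a b y) hfA
    have e4 := hD0 (f x) (g x) y
    linarith
  -- the sum
  have hcardA : (A.card : ℝ) ≤ q := by
    have : A.card ≤ q := by
      rw [hq, ← Finset.card_univ]
      exact Finset.card_le_card (Finset.filter_subset _ _)
    exact_mod_cast this
  have hcardY : (Y.card : ℝ) ≤ (q : ℝ) ^ (s + 1) := by
    refine le_trans ?_ (h5 V G q hd x (s + 1))
    have : Y.card ≤ (univ.filter (fun u => near G x (s + 1) u)).card := by
      refine Finset.card_le_card ?_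
      intro y hy
      rw [Finset.mem_filter]
      exact ⟨Finset.mem_univ _, (hY y hy).2.1⟩
    exact_mod_cast this
  calc ∑ y ∈ Y, infl G (T (ω y)) (p (ω y)) x y
      ≤ ∑ y ∈ Y, ((∑ a ∈ A, ∑ b ∈ A, D a b y) + q * err q (r - 2)) := Finset.sum_le_sum hone
    _ = (∑ a ∈ A, ∑ b ∈ A, ∑ y ∈ Y, D a b y) + Y.card * (q * err q (r - 2)) := by
        rw [Finset.sum_add_distrib, Finset.sum_const, nsmul_eq_mul, Finset.sum_comm]
        congr 1
        refine Finset.sum_congr rfl fun a _ => ?_
        rw [Finset.sum_comm]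
    _ ≤ (∑ a ∈ A, ∑ b ∈ A, err q (s - 1)) + Y.card * (q * err q (r - 2)) := by
        gcongr with a ha b hb
        exact hsumD a ha b hb
    _ = (A.card : ℝ) * (A.card * err q (s - 1)) + Y.card * (q * err q (r - 2)) := by
        rw [Finset.sum_const, Finset.sum_const, nsmul_eq_mul, nsmul_eq_mul]
    _ ≤ (q : ℝ) * (q * err q (s - 1)) + (q : ℝ) ^ (s + 1) * (q * err q (r - 2)) := by
        gcongr
    _ = (q : ℝ) ^ 2 * err q (s - 1) + (q : ℝ) ^ (s + 2) * err q (r - 2) := by ring

end Pool.Agent.KempeLG
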