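import Pool.Agent.Lib.MP_26a019_lc.LG.Spec

set_option autoImplicit false

/-!
# Glauber dynamics with `Δ + 2` colours: assembly of the one step contraction
-/

open Finset Classical

namespace Pool.Agent.KempeLG

open Pool.Agent.Kempe Pool.Agent.KempeMix

namespace OneStep

theorem le_mx {C : Type} [Fintype C] (p : C → ℝ) (z : C) : p z ≤ mx p :=
  le_ciSup (Set.finite_range p).bddAbove z

theorem mx_le {C : Type} [Fintype C] [Nonempty C] (p : C → ℝ) {a : ℝ} (h : ∀ z, p z ≤ a) :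
    mx p ≤ a := ciSup_le h

theorem nonempty_of_sum {C : Type} [Fintype C] (p : C → ℝ) (h : ∑ z, p z = 1) : Nonempty C := by
  by_contra hne
  rw [not_nonempty_iff] at hne
  simp at h

theorem eta_nonneg {C : Type} [Fintype C] (p : C → ℝ) (h0 : ∀ z, 0 ≤ p z) (h1 : ∑ z, p z = 1)
    (h3 : ∀ z, p z ≤ 1 / 3) : 0 ≤ eta (mx p) := by
  haveI := nonempty_of_sum p h1
  have hP3 : mx p ≤ 1 / 3 := mx_le p h3
  have e1 : 0 < 1 - mx p := by linarith
  unfold eta
  positivity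

theorem var_le {C : Type} [Fintype C] (r Y : C → ℝ) (h1 : ∑ z, r z = 1) :
    ∑ z, r z * (Y z - ∑ c, r c * Y c) ^ 2 ≤ ∑ z, r z * Y z ^ 2 := by
  have key : ∀ m : ℝ, ∑ z, r z * (Y z - m) ^ 2
      = ∑ z, r z * Y z ^ 2 - 2 * m * ∑ z, r z * Y z + m ^ 2 * ∑ z, r z := by
    intro m
    rw [Finset.mul_sum, Finset.mul_sum, ← Finset.sum_sub_distrib, ← Finset.sum_add_distrib]
    exact Finset.sum_congr rfl fun z _ => by ring
  rw [key, h1]
  nlinarith [sq_nonneg (∑ c, r c * Y c)]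

end OneStep

theorem oneStep (h1 : CSStmt) (h2 : EntropyStmt) (h3 : ThirdStmt) (hB : ScalBStmt) :
    OneStepStmt := by
  intro ι C _ _ p F φ r K hcard hp0 hp1 hp3 hφ0 hφ1 hl hn hr
  obtain ⟨i0⟩ : Nonempty ι := Fintype.card_pos_iff.mp hcard
  have hK : 0 ≤ K := by
    refine le_trans ?_ (hn i0)
    unfold nrm
    refine mul_nonneg (OneStep.eta_nonneg (p i0) (hp0 i0) (hp1 i0) (hp3 i0)) ?_
    exact Finset.sum_nonneg fun z _ => mul_nonneg (hp0 i0 z) (sq_nonneg _)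
  obtain ⟨hZ, hr0, hr3, hr1, _⟩ := h3 ι C p φ r hp0 hp1 hφ0 hφ1 hl hr
  obtain ⟨b, hb0, hbY, hbs⟩ := h1 ι C p F K hp0 hp1 hp3 hn hK
  set Λ : C → ℝ := fun z => ∑ i, -Real.log (1 - p i z) with hΛ
  have hpos : ∀ i z, 0 < 1 - p i z := fun i z => by linarith [hp3 i z]
  have hΛ0 : ∀ z, 0 ≤ Λ z := by
    intro z
    refine Finset.sum_nonneg fun i _ => ?_
    have := Real.log_nonpos (hpos i z).le (by linarith [hp0 i z])
    linarith
  have hexp : ∀ z, ∏ i, (1 - p i z) = Real.exp (-Λ z) := by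
    intro z
    have e1 : -Λ z = ∑ i, Real.log (1 - p i z) := by
      simp only [hΛ]
      rw [Finset.sum_neg_distrib, neg_neg]
    rw [e1, Real.exp_sum]
    exact Finset.prod_congr rfl fun i _ => (Real.exp_log (hpos i z)).symm
  have hΛs : ∑ z, Λ z ≤ 11 / 9 * (Fintype.card ι : ℝ) := by
    simp only [hΛ]
    rw [Finset.sum_comm]
    have e1 : ∀ i ∈ (Finset.univ : Finset ι), ∑ z, -Real.log (1 - p i z) ≤ 11 / 9 := by
      intro i _
      calc ∑ z, -Real.log (1 - p i z) ≤ ∑ z, p i z * (1 + (1 / 3) / 2 + (1 / 3) ^ 2 / 2) :=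
            Finset.sum_le_sum fun z _ => hB (p i z) (1 / 3) (hp0 i z) (hp3 i z) le_rfl
        _ = 11 / 9 := by
            rw [← Finset.sum_mul, hp1 i]
            norm_num
    refine (Finset.sum_le_sum e1).trans (le_of_eq ?_)
    rw [Finset.sum_const, Finset.card_univ, nsmul_eq_mul]
    ring
  have hm1 : (1 : ℝ) ≤ (Fintype.card ι : ℝ) := by exact_mod_cast hcard
  have hmain := h2 C φ Λ b (fun z => ∑ i, p i z / (1 - p i z) * (F i z - ∑ c, p i c * F i c)) r
    (Fintype.card ι) K hm1 hK hφ0 hφ1 hl hΛ0 hb0 hbs hΛs hbY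
    (fun z => by
      have := hr z
      simp_rw [hexp] at this
      exact this) hr3
  refine le_trans ?_ hmain
  unfold nrm
  exact mul_le_mul_of_nonneg_left (OneStep.var_le r _ hr1) (OneStep.eta_nonneg r hr0 hr1 hr3)

end Pool.Agent.KempeLG
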