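import Pool.Agent.Lib.MP_26a019_lc.LG.Spec

set_option autoImplicit false

/-!
# Pinned colourings as soft list colourings
-/

open Finset Classical

namespace Pool.Agent.KempeLG

open Pool.Agent.Kempe Pool.Agent.KempeMix

namespace PinAux

variable {V C : Type} [Fintype V] [Fintype C]

omit [Fintype C] in
lemma lst_cases (G : SimpleGraph V) (T : Finset V) (p : V → C) (u : V) (z : C) :
    lst G T p u z = 0 ∨ lst G T p u z = 1 := by
  unfold lst
  split_ifs <;> simp

lemma lst_sum_mem (G : SimpleGraph V) (T : Finset V) (p : V → C) {u : V} (hu : u ∈ T) :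
    ∑ c, lst G T p u c = 1 := by
  simp [lst, hu]

lemma lst_sum_not_mem (G : SimpleGraph V) (T : Finset V) (p : V → C) {u : V} (hu : u ∉ T) :
    (Fintype.card C : ℝ) - (((nb G u).filter (fun w => w ∈ T)).card : ℝ)
      ≤ ∑ c, lst G T p u c := by
  have h1 : ∑ c, lst G T p u c =
      (((univ : Finset C).filter (fun z => ∀ w ∈ T, G.Adj u w → p w ≠ z)).card : ℝ) := by
    simp only [lst, hu, if_false]
    rw [Finset.sum_boole]
  rw [h1]
  have h2 : (univ : Finset C) ⊆
      (univ.filter (fun z => ∀ w ∈ T, G.Adj u w → p w ≠ z)) ∪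
        (((nb G u).filter (fun w => w ∈ T)).image p) := by
    intro z _
    by_cases hz : ∀ w ∈ T, G.Adj u w → p w ≠ z
    · exact Finset.mem_union_left _ (Finset.mem_filter.2 ⟨Finset.mem_univ _, hz⟩)
    · push Not at hz
      obtain ⟨w, hw, ha, hz⟩ := hz
      refine Finset.mem_union_right _ (Finset.mem_image.2 ⟨w, ?_, hz⟩)
      simp only [nb, Finset.mem_filter, Finset.mem_univ, true_and]
      exact ⟨ha, hw⟩
  have h3 := (Finset.card_le_card h2).trans (Finset.card_union_le _ _)
  have h4 : (((nb G u).filter (fun w => w ∈ T)).image p).card ≤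
      ((nb G u).filter (fun w => w ∈ T)).card := Finset.card_image_le
  rw [Finset.card_univ] at h3
  have h5 : (Fintype.card C : ℝ) ≤
      (((univ : Finset C).filter (fun z => ∀ w ∈ T, G.Adj u w → p w ≠ z)).card : ℝ) +
        (((nb G u).filter (fun w => w ∈ T)).card : ℝ) := by
    exact_mod_cast h3.trans (Nat.add_le_add_left h4 _)
  linarith

lemma dg_cut_mem (G : SimpleGraph V) (T : Finset V) {u : V} (hu : u ∈ T) :
    dg (cut G T) u = 0 := by
  unfold dg nb
  rw [Finset.card_eq_zero, Finset.filter_eq_empty_iff]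
  intro w _ h
  exact h.2.1 hu

lemma dg_cut_not_mem (G : SimpleGraph V) (T : Finset V) {u : V} (hu : u ∉ T) :
    dg (cut G T) u + ((nb G u).filter (fun w => w ∈ T)).card = dg G u := by
  unfold dg
  have h : nb (cut G T) u = (nb G u).filter (fun w => ¬ w ∈ T) := by
    ext w
    simp only [nb, Finset.mem_filter, Finset.mem_univ, true_and]
    exact ⟨fun h => ⟨h.1, h.2.2⟩, fun h => ⟨h.1, hu, h.2⟩⟩
  rw [h, add_comm]
  exact Finset.card_filter_add_card_filter_not (s := nb G u) (fun w => w ∈ T)

lemma good (G : SimpleGraph V) (T : Finset V) (p : V → C)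
    (hd : ∀ v, dg G v + 2 ≤ Fintype.card C) : Good (cut G T) (lst G T p) := by
  constructor
  · intro v c
    rcases lst_cases G T p v c with h | h
    · rw [h]
    · rw [h]; norm_num
  · intro v c
    rcases lst_cases G T p v c with h | h
    · rw [h]; norm_num
    · rw [h]
  · intro v
    by_cases hv : v ∈ T
    · rw [lst_sum_mem G T p hv]; exact one_pos
    · have h1 := lst_sum_not_mem G T p hv
      have h2 := dg_cut_not_mem G T hv
      have h3 := hd v
      have h4 : (((nb G v).filter (fun w => w ∈ T)).card : ℝ) + 2 ≤ Fintype.card C := by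
        exact_mod_cast (by omega : ((nb G v).filter (fun w => w ∈ T)).card + 2 ≤ Fintype.card C)
      linarith
  · intro v h
    by_cases hv : v ∈ T
    · rw [dg_cut_mem G T hv] at h
      exact absurd h (lt_irrefl _)
    · have h1 := lst_sum_not_mem G T p hv
      have h2 := dg_cut_not_mem G T hv
      have h3 := hd v
      have h4 : (dg (cut G T) v : ℝ) + (((nb G v).filter (fun w => w ∈ T)).card : ℝ) + 2
          ≤ Fintype.card C := by
        exact_mod_cast (by omega : dg (cut G T) v + ((nb G v).filter (fun w => w ∈ T)).card + 2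
          ≤ Fintype.card C)
      linarith

lemma wt_eq (G : SimpleGraph V) (T : Finset V) (p : V → C) (hp : p ∈ PC G C) (f : V → C) :
    wt (cut G T) (lst G T p) f = if f ∈ Om G T p then 1 else 0 := by
  have hP : Proper G p := (Finset.mem_filter.1 hp).2
  by_cases hf : f ∈ Om G T p
  · rw [if_pos hf]
    obtain ⟨hf1, hf2⟩ := (Finset.mem_filter.1 hf).2
    have h1 : Proper (cut G T) f := fun u w h => hf1 u w h.1
    unfold wt
    rw [if_pos h1]
    refine Finset.prod_eq_one fun v _ => ?_
    unfold lst
    by_cases hv : v ∈ T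
    · rw [if_pos hv, if_pos (hf2 v hv)]
    · rw [if_neg hv, if_pos]
      intro w hw ha
      rw [← hf2 w hw]
      exact (hf1 v w ha).symm
  · rw [if_neg hf]
    unfold wt
    split_ifs with h1
    · by_contra h2
      apply hf
      have h3 : ∀ v, lst G T p v (f v) ≠ 0 := fun v h =>
        h2 (Finset.prod_eq_zero (Finset.mem_univ v) h)
      have h4 : ∀ z ∈ T, f z = p z := by
        intro z hz
        by_contra h
        apply h3 z
        unfold lst
        rw [if_pos hz, if_neg h]
      have h5 : ∀ u, u ∉ T → ∀ w ∈ T, G.Adj u w → p w ≠ f u := by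
        intro u hu
        by_contra h
        apply h3 u
        unfold lst
        rw [if_neg hu, if_neg h]
      refine Finset.mem_filter.2 ⟨Finset.mem_univ _, ?_, h4⟩
      intro u w ha
      by_cases hu : u ∈ T
      · by_cases hw : w ∈ T
        · rw [h4 u hu, h4 w hw]; exact hP u w ha
        · rw [h4 u hu]; exact h5 w hw u hu ha.symm
      · by_cases hw : w ∈ T
        · rw [h4 w hw]; exact (h5 u hu w hw ha).symm
        · exact h1 u w ⟨ha, hu, hw⟩
    · rfl

lemma Zp_eq (G : SimpleGraph V) (T : Finset V) (p : V → C) (hp : p ∈ PC G C) :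
    Zp (cut G T) (lst G T p) = ((Om G T p).card : ℝ) := by
  unfold Zp
  simp only [wt_eq G T p hp]
  rw [Finset.sum_boole]
  congr 2
  ext f
  simp

lemma sum_eq (G : SimpleGraph V) (T : Finset V) (p : V → C) (hp : p ∈ PC G C)
    (P : (V → C) → Prop) [DecidablePred P] :
    ∑ f, wt (cut G T) (lst G T p) f * (if P f then (1 : ℝ) else 0) =
      (((Om G T p).filter P).card : ℝ) := by
  simp only [wt_eq G T p hp]
  have h : ∀ f : V → C, (if f ∈ Om G T p then (1 : ℝ) else 0) * (if P f then (1 : ℝ) else 0) =
      if (f ∈ Om G T p ∧ P f) then 1 else 0 := by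
    intro f
    split_ifs <;> simp_all
  simp only [h]
  rw [Finset.sum_boole]
  congr 2
  ext f
  simp

lemma mg_eq (G : SimpleGraph V) (T : Finset V) (p : V → C) (hp : p ∈ PC G C) (w : V) (c : C) :
    mg (cut G T) (lst G T p) w c =
      (((Om G T p).filter (fun f => f w = c)).card : ℝ) / ((Om G T p).card : ℝ) := by
  unfold mg Ex
  rw [sum_eq G T p hp (fun f => f w = c), Zp_eq G T p hp]

end PinAux

open PinAux in
theorem pin (_h : GreedyStmt) : PinStmt := by
  intro V C _ _ G T p hd hp
  refine ⟨good G T p hd, wt_eq G T p hp, ?_, ?_, ?_⟩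
  · intro w c
    rw [mg_eq G T p hp]
    rfl
  · intro v w c pa hpa hv
    obtain ⟨hpa1, hpa2⟩ := (Finset.mem_filter.1 hpa).2
    unfold cEx
    rw [mg_eq G T p hp]
    unfold Ex
    have h : ∀ f : V → C, ((if f v = pa v then (1 : ℝ) else 0) * (if f w = c then (1 : ℝ) else 0)) =
        if (f v = pa v ∧ f w = c) then 1 else 0 := by
      intro f
      split_ifs <;> simp_all
    simp only [h]
    rw [sum_eq G T p hp (fun f => f v = pa v ∧ f w = c), Zp_eq G T p hp]
    have hO : Om G (insert v T) pa = (Om G T p).filter (fun f => f v = pa v) := by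
      ext f
      simp only [Om, Finset.mem_filter, Finset.mem_univ, true_and, Finset.mem_insert,
        forall_eq_or_imp]
      constructor
      · rintro ⟨h1, h2, h3⟩
        exact ⟨⟨h1, fun z hz => (h3 z hz).trans (hpa2 z hz)⟩, h2⟩
      · rintro ⟨⟨h1, h3⟩, h2⟩
        exact ⟨h1, h2, fun z hz => (h3 z hz).trans (hpa2 z hz).symm⟩
    unfold pr
    rw [hO, Finset.filter_filter]
    have hne : ((Om G T p).card : ℝ) ≠ 0 := by
      have : 0 < (Om G T p).card := Finset.card_pos.2 ⟨pa, hpa⟩
      exact_mod_cast this.ne'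
    rw [div_div_div_cancel_right₀ hne]
  · intro v pa hpa hv
    obtain ⟨hpa1, hpa2⟩ := (Finset.mem_filter.1 hpa).2
    have : lst G T p v (pa v) = 1 := by
      unfold lst
      rw [if_neg hv, if_pos]
      intro w hw ha
      rw [← hpa2 w hw]
      exact (hpa1 v w ha).symm
    rw [this]
    exact one_pos

end Pool.Agent.KempeLG
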