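import Pool.Agent.Lib.MP_26a019_lc.LG.Spec

set_option autoImplicit false

/-!
# Strong spatial mixing for pinned colourings
-/

open Finset Classical

namespace Pool.Agent.KempeLG

open Pool.Agent.Kempe Pool.Agent.KempeMix

namespace PinSsm

theorem mem_Om {V C : Type} [Fintype V] [Fintype C] (G : SimpleGraph V) (T : Finset V)
    (p f : V → C) : f ∈ Om G T p ↔ Proper G f ∧ ∀ z ∈ T, f z = p z := by
  simp [Om]

theorem Om_congr {V C : Type} [Fintype V] [Fintype C] (G : SimpleGraph V) (W : Finset V)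
    (p f : V → C) (h : ∀ z ∈ W, f z = p z) : Om G W p = Om G W f := by
  ext g
  rw [mem_Om, mem_Om]
  constructor
  · rintro ⟨a, b⟩
    exact ⟨a, fun z hz => (b z hz).trans (h z hz).symm⟩
  · rintro ⟨a, b⟩
    exact ⟨a, fun z hz => (b z hz).trans (h z hz)⟩

theorem tower {V C : Type} [Fintype V] [Fintype C] (G : SimpleGraph V) (T W : Finset V)
    (hTW : T ⊆ W) (p : V → C) (g : (V → C) → ℝ) :
    ∑ p1 ∈ Om G T p, (∑ f ∈ Om G W p1, g f) / ((Om G W p1).card : ℝ) = ∑ f ∈ Om G T p, g f := by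
  have h1 : ∀ p1 ∈ Om G T p, (∑ f ∈ Om G W p1, g f) / ((Om G W p1).card : ℝ)
      = ∑ f ∈ Om G W p1, g f / ((Om G W f).card : ℝ) := by
    intro p1 _
    rw [Finset.sum_div]
    apply Finset.sum_congr rfl
    intro f hf
    rw [mem_Om] at hf
    rw [Om_congr G W p1 f hf.2]
  rw [Finset.sum_congr rfl h1]
  have h2 : ∑ p1 ∈ Om G T p, ∑ f ∈ Om G W p1, g f / ((Om G W f).card : ℝ)
      = ∑ f ∈ Om G T p, ∑ _p1 ∈ Om G W f, g f / ((Om G W f).card : ℝ) := by
    apply Finset.sum_comm'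
    intro p1 f
    simp only [mem_Om]
    constructor
    · rintro ⟨⟨a, b⟩, c, d⟩
      exact ⟨⟨a, fun z hz => (d z hz).symm⟩, c, fun z hz => (d z (hTW hz)).trans (b z hz)⟩
    · rintro ⟨⟨a, b⟩, c, d⟩
      exact ⟨⟨a, fun z hz => (b z (hTW hz)).trans (d z hz)⟩, c, fun z hz => (b z hz).symm⟩
  rw [h2]
  apply Finset.sum_congr rfl
  intro f hf
  rw [Finset.sum_const, nsmul_eq_mul]
  have h3 : f ∈ Om G W f := (mem_Om G W f f).2 ⟨((mem_Om G T p f).1 hf).1, fun _ _ => rfl⟩
  have h4 : ((Om G W f).card : ℝ) ≠ 0 := by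
    have := Finset.card_pos.2 ⟨f, h3⟩
    positivity
  field_simp

theorem pr_eq {V C : Type} [Fintype V] [Fintype C] (G : SimpleGraph V) (T : Finset V)
    (p : V → C) (w : V) (c : C) :
    pr G T p w c = (∑ f ∈ Om G T p, if f w = c then (1 : ℝ) else 0) / ((Om G T p).card : ℝ) := by
  unfold pr
  rw [Finset.sum_boole]

theorem pr_tower {V C : Type} [Fintype V] [Fintype C] (G : SimpleGraph V) (T W : Finset V)
    (hTW : T ⊆ W) (p : V → C) (w : V) (c : C) :
    pr G T p w c = (∑ p1 ∈ Om G T p, pr G W p1 w c) / ((Om G T p).card : ℝ) := by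
  rw [pr_eq, ← tower G T W hTW p]
  congr 1
  apply Finset.sum_congr rfl
  intro p1 _
  rw [pr_eq]

theorem avg {ι : Type} (A B : Finset ι) (hA : A.Nonempty) (hB : B.Nonempty) (a b : ι → ℝ) (E : ℝ)
    (h : ∀ i ∈ A, ∀ j ∈ B, |a i - b j| ≤ E) :
    |(∑ i ∈ A, a i) / (A.card : ℝ) - (∑ j ∈ B, b j) / (B.card : ℝ)| ≤ E := by
  have hA' : (0 : ℝ) < A.card := by exact_mod_cast hA.card_pos
  have hB' : (0 : ℝ) < B.card := by exact_mod_cast hB.card_pos
  have h1 : (∑ i ∈ A, a i) / (A.card : ℝ) - (∑ j ∈ B, b j) / (B.card : ℝ)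
      = (∑ i ∈ A, ∑ j ∈ B, (a i - b j)) / ((A.card : ℝ) * B.card) := by
    have : ∑ i ∈ A, ∑ j ∈ B, (a i - b j)
        = (B.card : ℝ) * (∑ i ∈ A, a i) - (A.card : ℝ) * (∑ j ∈ B, b j) := by
      simp only [Finset.sum_sub_distrib, Finset.sum_const, nsmul_eq_mul, Finset.mul_sum]
    rw [this]
    field_simp
  rw [h1, abs_div, abs_of_pos (mul_pos hA' hB'), div_le_iff₀ (mul_pos hA' hB')]
  calc |∑ i ∈ A, ∑ j ∈ B, (a i - b j)| ≤ ∑ i ∈ A, |∑ j ∈ B, (a i - b j)| :=
        Finset.abs_sum_le_sum_abs _ _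
    _ ≤ ∑ i ∈ A, ∑ j ∈ B, |a i - b j| :=
        Finset.sum_le_sum fun i _ => Finset.abs_sum_le_sum_abs _ _
    _ ≤ ∑ i ∈ A, ∑ j ∈ B, E := Finset.sum_le_sum fun i hi => Finset.sum_le_sum fun j hj => h i hi j hj
    _ = E * ((A.card : ℝ) * B.card) := by simp; ring

theorem cut_le {V : Type} (G : SimpleGraph V) (T : Finset V) : cut G T ≤ G := by
  intro u w h
  exact h.1

theorem cut_anti {V : Type} (G : SimpleGraph V) (T W : Finset V) (h : T ⊆ W) :
    cut G W ≤ cut G T := by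
  intro u w hh
  exact ⟨hh.1, fun a => hh.2.1 (h a), fun a => hh.2.2 (h a)⟩

theorem near_mono {V : Type} (H G : SimpleGraph V) (h : H ≤ G) (v u : V) (k l : ℕ) (hkl : k ≤ l)
    (hn : near H v k u) : near G v l u := by
  obtain ⟨p, hp⟩ := hn
  refine ⟨p.mapLe h, ?_⟩
  rw [SimpleGraph.Walk.length_map]
  omega

theorem near_adj {V : Type} (G : SimpleGraph V) (v u x : V) (k l : ℕ) (hkl : k + 1 ≤ l)
    (ha : G.Adj u x) (hn : near G v k u) : near G v l x := by
  obtain ⟨p, hp⟩ := hn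
  refine ⟨p.concat ha, ?_⟩
  rw [SimpleGraph.Walk.length_concat]
  omega

/-- an isolated vertex is reached only from itself -/
theorem eq_of_isolated {V : Type} (H : SimpleGraph V) (v u : V) (hu : ∀ x, ¬ H.Adj x u)
    (p : H.Walk v u) : v = u := by
  by_contra hne
  cases hp : p.reverse with
  | nil => exact hne rfl
  | cons ha q => exact hu _ ha.symm

end PinSsm

open PinSsm

theorem pinSsm (h1 : SsmStmt) (h2 : PinStmt) : PinSsmStmt := by
  intro V C _ _ G T T' p p' w c r hr hq hp hp' hT hT' hag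
  let W : Finset V := univ.filter (fun u => (near G w r u ∧ u ∈ T) ∨ ¬ near G w r u)
  have hW : ∀ u, u ∈ W ↔ ((near G w r u ∧ u ∈ T) ∨ ¬ near G w r u) := by
    intro u
    simp [W]
  have hTW : T ⊆ W := by
    intro u hu
    rw [hW]
    by_cases hn : near G w r u
    · exact Or.inl ⟨hn, hu⟩
    · exact Or.inr hn
  have hTW' : T' ⊆ W := by
    intro u hu
    rw [hW]
    by_cases hn : near G w r u
    · exact Or.inl ⟨hn, (hag u hn).1.2 hu⟩
    · exact Or.inr hn
  have hWT : ∀ u, near G w r u → u ∈ W → u ∈ T := by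
    intro u hn hu
    rw [hW] at hu
    rcases hu with h | h
    · exact h.2
    · exact absurd hn h
  have hp1 : Proper G p := by simpa [PC] using hp
  have hp1' : Proper G p' := by simpa [PC] using hp'
  rw [pr_tower G T W hTW p, pr_tower G T' W hTW' p']
  apply avg
  · exact ⟨p, (mem_Om G T p p).2 ⟨hp1, fun _ _ => rfl⟩⟩
  · exact ⟨p', (mem_Om G T' p' p').2 ⟨hp1', fun _ _ => rfl⟩⟩
  · intro p1 hm1 p2 hm2
    rw [mem_Om] at hm1 hm2
    have q1 : p1 ∈ PC G C := by simpa [PC] using hm1.1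
    have q2 : p2 ∈ PC G C := by simpa [PC] using hm2.1
    obtain ⟨g1, -, e1, -⟩ := h2 V C G W p1 hq q1
    obtain ⟨g2, -, e2, -⟩ := h2 V C G W p2 hq q2
    rw [e1, e2]
    have hac : (cut G W).IsAcyclic := hT.anti (cut_anti G T W hTW)
    have key := h1 V C (cut G W) (lst G W p1) (lst G W p2) w c (r - 1) (by omega) hac g1 g2 ?_
    · rwa [show r - 1 - 1 = r - 2 by omega] at key
    · intro u hn
      have hnG : near G w r u := near_mono _ _ (cut_le G W) w u (r - 1) r (by omega) hn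
      have hnG' : near G w (r - 1) u := near_mono _ _ (cut_le G W) w u (r - 1) (r - 1) le_rfl hn
      by_cases hu : u ∈ W
      · have hwu : w = u := by
          obtain ⟨q, _⟩ := hn
          exact eq_of_isolated (cut G W) w u (fun x hx => hx.2.2 hu) q
        have huT : u ∈ T := hWT u hnG hu
        have huT' : u ∈ T' := (hag u hnG).1.1 huT
        have e : p1 u = p2 u := by
          rw [hm1.2 u huT, hm2.2 u huT', (hag u hnG).2 huT]
        funext z
        simp only [lst, hu, if_true, e]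
      · funext z
        simp only [lst, hu, if_false]
        have : (∀ x ∈ W, G.Adj u x → p1 x ≠ z) ↔ (∀ x ∈ W, G.Adj u x → p2 x ≠ z) := by
          apply forall₂_congr
          intro x hx
          apply imp_congr_right
          intro ha
          have hnx : near G w r x := near_adj G w u x (r - 1) r (by omega) ha hnG'
          have hxT : x ∈ T := hWT x hnx hx
          have hxT' : x ∈ T' := (hag x hnx).1.1 hxT
          rw [hm1.2 x hxT, hm2.2 x hxT', (hag x hnx).2 hxT]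
        simp only [this]

end Pool.Agent.KempeLG
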