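import Pool.Agent.Lib.MP_26a019_lc.LG.Spec

set_option autoImplicit false

/-!
# Glauber dynamics with `Δ + 2` colours on graphs of large girth: pinned colourings

Decay of the total influence of a vertex on the vertices at distance at least `s`.
-/

open Finset Classical

namespace Pool.Agent.KempeLG

open Pool.Agent.Kempe Pool.Agent.KempeMix

namespace PinTidAux

variable {V C : Type} [Fintype V] [Fintype C]

theorem ex_smul (H : SimpleGraph V) (φ : V → C → ℝ) (c : ℝ) (F : (V → C) → ℝ) :
    Ex H φ (fun f => c * F f) = c * Ex H φ F := by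
  unfold Ex
  rw [← mul_div_assoc, Finset.mul_sum]
  congr 1
  exact Finset.sum_congr rfl fun f _ => by ring

theorem ex_sum {ι : Type} (s : Finset ι) (H : SimpleGraph V) (φ : V → C → ℝ)
    (F : ι → (V → C) → ℝ) :
    Ex H φ (fun f => ∑ i ∈ s, F i f) = ∑ i ∈ s, Ex H φ (F i) := by
  unfold Ex
  rw [← Finset.sum_div, Finset.sum_comm]
  congr 1
  exact Finset.sum_congr rfl fun f _ => by rw [Finset.mul_sum]

theorem cex_smul (H : SimpleGraph V) (φ : V → C → ℝ) (v : V) (z : C) (c : ℝ)
    (F : (V → C) → ℝ) : cEx H φ v z (fun f => c * F f) = c * cEx H φ v z F := by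
  unfold cEx
  rw [← mul_div_assoc, ← ex_smul]
  congr 2
  funext f
  ring

theorem cex_sum {ι : Type} (s : Finset ι) (H : SimpleGraph V) (φ : V → C → ℝ) (v : V) (z : C)
    (F : ι → (V → C) → ℝ) :
    cEx H φ v z (fun f => ∑ i ∈ s, F i f) = ∑ i ∈ s, cEx H φ v z (F i) := by
  unfold cEx
  rw [← Finset.sum_div, ← ex_sum]
  congr 2
  funext f
  rw [Finset.mul_sum]

/-- the conditional expectation of an additive function -/
theorem cex_add (H : SimpleGraph V) (φ : V → C → ℝ) (v : V) (z : C) (h : V → C → ℝ) :
    cEx H φ v z (fun f => ∑ u, h u (f u)) =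
      ∑ u, ∑ c, h u c * cEx H φ v z (fun f => if f u = c then 1 else 0) := by
  have e : (fun f : V → C => ∑ u, h u (f u)) =
      fun f => ∑ u, ∑ c, h u c * (if f u = c then (1 : ℝ) else 0) := by
    funext f
    refine Finset.sum_congr rfl fun u _ => ?_
    simp
  rw [e, cex_sum]
  refine Finset.sum_congr rfl fun u _ => ?_
  rw [cex_sum]
  exact Finset.sum_congr rfl fun c _ => cex_smul H φ v z _ _

omit [Fintype V] in
theorem near_cut {G : SimpleGraph V} {T : Finset V} {v w : V} {k : ℕ} (h : near (cut G T) v k w) :
    near G v k w := by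
  obtain ⟨p, hp⟩ := h
  have hle : cut G T ≤ G := fun _ _ h => h.1
  refine ⟨p.mapLe hle, ?_⟩
  rw [SimpleGraph.Walk.length_map]
  exact hp

end PinTidAux

open PinTidAux in
theorem pinTid (h1 : ThmBStmt) (h2 : PinStmt) (_h3 : BasicStmt) : PinTidStmt := by
  intro V C _ _ G T v p pa pb s hs hd hp hpa hpb hvT hac
  obtain ⟨hgood, -, -, hpr, hpos⟩ := h2 V C G T p hd hp
  set H := cut G T with hH
  set φ := lst G T p with hφ
  set q : ℕ := Fintype.card C with hq
  set d : V → C → ℝ := fun w c => pr G (insert v T) pa w c - pr G (insert v T) pb w c with hdd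
  set h : V → C → ℝ := fun w c => if near G v s w then 0 else SignType.sign (d w c) with hh
  have hsum : ∑ w ∈ univ.filter (fun w => ¬ near G v s w), ∑ c, |d w c| =
      cEx H φ v (pa v) (fun f => ∑ u, h u (f u)) - cEx H φ v (pb v) (fun f => ∑ u, h u (f u)) := by
    rw [cex_add, cex_add, ← Finset.sum_sub_distrib, Finset.sum_filter]
    refine Finset.sum_congr rfl fun w _ => ?_
    rw [← Finset.sum_sub_distrib]
    by_cases hw : near G v s w
    · rw [if_neg (not_not.2 hw)]
      symm
      refine Finset.sum_eq_zero fun c _ => ?_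
      have : h w c = 0 := by
        rw [hh]
        exact if_pos hw
      rw [this]
      ring
    · rw [if_pos hw]
      refine Finset.sum_congr rfl fun c _ => ?_
      have e : h w c = SignType.sign (d w c) := by
        rw [hh]
        exact if_neg hw
      rw [← hpr v w c pa hpa hvT, ← hpr v w c pb hpb hvT, ← mul_sub, e]
      exact (sign_mul_self (d w c)).symm
  have hB := h1 V C H φ v s h (36 * q) (pa v) (pb v) hs (by positivity) hac hgood
    (hpos v pa hpa hvT) (hpos v pb hpb hvT) (by
      intro u hu c
      rw [hh]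
      exact if_pos (near_cut hu))
    (by
      intro u
      have hb : ∀ c ∈ (univ : Finset C), φ u c * h u c ^ 2 ≤ 1 := by
        intro c _
        have a1 := hgood.nonneg u c
        have a2 := hgood.le_one u c
        have a3 : h u c ^ 2 ≤ 1 := by
          rw [hh]
          by_cases hw : near G v s u
          · simp [hw]
          · simp only [hw, if_false]
            rcases lt_trichotomy (d u c) 0 with hlt | heq | hgt
            · rw [sign_neg hlt]
              norm_num
            · rw [heq, sign_zero]
              norm_num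
            · rw [sign_pos hgt]
              norm_num
        nlinarith
      refine (Finset.sum_le_sum hb).trans ?_
      rw [Finset.sum_const, Finset.card_univ, nsmul_eq_mul, ← hq]
      have : (0 : ℝ) ≤ q := Nat.cast_nonneg q
      linarith)
  change ∑ w ∈ univ.filter (fun w => ¬ near G v s w), ∑ c, |d w c| ≤ _
  rw [hsum]
  refine (le_abs_self _).trans ?_
  unfold err
  refine Real.abs_le_sqrt ?_
  refine hB.trans (le_of_eq ?_)
  ring

end Pool.Agent.KempeLG
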