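import Pool.Agent.Lib.MP_26a019_lc.LG.Spec

set_option autoImplicit false

/-! Revealing one vertex. -/

open Finset Classical

namespace Pool.Agent.KempeLG

open Pool.Agent.Kempe Pool.Agent.KempeMix

namespace Reveal

variable {V C : Type} [Fintype V] [Fintype C] {G : SimpleGraph V}

lemma mem_Om {S : Finset V} {p f : V → C} :
    f ∈ Om G S p ↔ Proper G f ∧ ∀ z ∈ S, f z = p z := by
  simp [Om]

lemma Om_insert {S : Finset V} {p f : V → C} (w : V) (hf : f ∈ Om G S p) :
    Om G (insert w S) f = (Om G S p).filter (fun g => g w = f w) := by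
  rw [mem_Om] at hf
  ext g
  rw [mem_filter, mem_Om, mem_Om]
  constructor
  · rintro ⟨hg, hgz⟩
    exact ⟨⟨hg, fun z hz => (hgz z (mem_insert_of_mem hz)).trans (hf.2 z hz)⟩,
      hgz w (mem_insert_self _ _)⟩
  · rintro ⟨⟨hg, hgz⟩, hw⟩
    refine ⟨hg, fun z hz => ?_⟩
    rcases mem_insert.mp hz with rfl | hz
    · exact hw
    · rw [hgz z hz, hf.2 z hz]

lemma pr_nonneg (S : Finset V) (p : V → C) (w : V) (d : C) : 0 ≤ pr G S p w d := by
  unfold pr
  positivity

lemma pr_ne_zero {S : Finset V} {p : V → C} {w : V} {d : C} (h : pr G S p w d ≠ 0) :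
    ∃ f ∈ Om G S p, f w = d := by
  by_contra hcon
  push Not at hcon
  apply h
  unfold pr
  have h1 : (Om G S p).filter (fun f => f w = d) = ∅ :=
    Finset.filter_eq_empty_iff.mpr fun f hf => hcon f hf
  rw [h1]
  simp

omit [Fintype V] in
lemma card_split (A : Finset (V → C)) (w u : V) (c : C) :
    (A.filter (fun f => f u = c)).card
      = ∑ d, ((A.filter (fun f => f w = d)).filter (fun f => f u = c)).card := by
  rw [Finset.card_eq_sum_card_fiberwise (f := fun f : V → C => f w) (t := univ)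
    (fun _ _ => mem_coe.mpr (mem_univ _))]
  refine Finset.sum_congr rfl fun d _ => ?_
  congr 1
  ext f
  simp only [mem_filter]
  tauto

lemma sum_pr {S : Finset V} {p : V → C} (hp : p ∈ Om G S p) (w : V) :
    ∑ d, pr G S p w d = 1 := by
  have h0 : ((Om G S p).card : ℝ) ≠ 0 := by
    exact_mod_cast (Finset.card_pos.mpr ⟨p, hp⟩).ne'
  unfold pr
  rw [← Finset.sum_div, ← Nat.cast_sum]
  have h1 := Finset.card_eq_sum_card_fiberwise (s := Om G S p) (f := fun f : V → C => f w)
    (t := univ) (fun _ _ => mem_coe.mpr (mem_univ _))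
  rw [← h1]
  exact div_self h0

lemma tower {S : Finset V} {p : V → C} {w : V} (q : C → V → C)
    (hq : ∀ d, (∃ f ∈ Om G S p, f w = d) → q d ∈ Om G S p ∧ q d w = d) (u : V) (c : C) :
    pr G S p u c = ∑ d, pr G S p w d * pr G (insert w S) (q d) u c := by
  have h1 : ∀ d, pr G S p w d * pr G (insert w S) (q d) u c
      = ((((Om G S p).filter (fun f => f w = d)).filter (fun f => f u = c)).card : ℝ)
        / ((Om G S p).card : ℝ) := by
    intro d
    by_cases hd : ∃ f ∈ Om G S p, f w = d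
    · obtain ⟨h2, h3⟩ := hq d hd
      have h4 : Om G (insert w S) (q d) = (Om G S p).filter (fun f => f w = d) := by
        rw [Om_insert w h2]
        ext f
        simp only [mem_filter, h3]
      have h5 : (((Om G S p).filter (fun f => f w = d)).card : ℝ) ≠ 0 := by
        have : ((Om G S p).filter (fun f => f w = d)).Nonempty :=
          ⟨q d, mem_filter.mpr ⟨h2, h3⟩⟩
        exact_mod_cast (Finset.card_pos.mpr this).ne'
      unfold pr
      rw [h4]
      field_simp
    · have h6 : pr G S p w d = 0 := by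
        by_contra h7
        exact hd (pr_ne_zero h7)
      have h8 : (Om G S p).filter (fun f => f w = d) = ∅ :=
        Finset.filter_eq_empty_iff.mpr fun f hf h9 => hd ⟨f, hf, h9⟩
      rw [h6, h8]
      simp
  rw [Finset.sum_congr rfl fun d _ => h1 d, ← Finset.sum_div, ← Nat.cast_sum, ← card_split]
  rfl

end Reveal

open Reveal in
theorem reveal (h1 : TvStmt) (h2 : GreedyStmt) (_h3 : PinStmt) : RevealStmt := by
  intro V C _ _ G T v w pa pb Γ hdeg hvT hwT hvw hadj hpa hpb hΓ
  have hpaP : Proper G pa := (mem_filter.mp hpa).2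
  obtain ⟨hpbP, hpbT⟩ := mem_Om.mp hpb
  set Sa : Finset V := insert v T with hSa
  have hpaO : pa ∈ Om G Sa pa := mem_Om.mpr ⟨hpaP, fun _ _ => rfl⟩
  have hpbO : pb ∈ Om G Sa pb := mem_Om.mpr ⟨hpbP, fun _ _ => rfl⟩
  -- extension of the colours at w
  have hext : ∀ p p' : V → C, Proper G p' → (∀ z ∈ T, p' z = p z) → ∀ d,
      (∃ f ∈ Om G Sa p, f w = d) → ∃ g ∈ Om G Sa p', g w = d := by
    rintro p p' hp' hpp d ⟨f, hf, hfw⟩
    obtain ⟨hfP, hfS⟩ := mem_Om.mp hf
    have hwS : w ∉ Sa := by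
      rw [hSa, mem_insert]
      push Not
      exact ⟨hvw.symm, hwT⟩
    have hkey : ∀ u ∈ Sa, G.Adj u w → p' u ≠ d := by
      intro u hu hadj'
      rcases mem_insert.mp hu with rfl | hu
      · exact absurd hadj' hadj
      · rw [hpp u hu, ← hfS u (mem_insert_of_mem hu), ← hfw]
        exact hfP u w hadj'
    obtain ⟨g, hgP, hgS, _⟩ := h2 V C G (fun _ => univ) (insert w Sa)
      (fun u => if u = w then d else p' u)
      (by
        intro u hu u' hu' hadj'
        rcases mem_insert.mp hu with hu1 | hu1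
        · rcases mem_insert.mp hu' with hu2 | hu2
          · rw [hu1, hu2] at hadj'
            exact absurd hadj' (G.loopless.irrefl _)
          · have hne : u' ≠ w := fun h => hwS (h ▸ hu2)
            rw [if_pos hu1, if_neg hne]
            rw [hu1] at hadj'
            exact (hkey u' hu2 hadj'.symm).symm
        · have hne : u ≠ w := fun h => hwS (h ▸ hu1)
          rcases mem_insert.mp hu' with hu2 | hu2
          · rw [if_pos hu2, if_neg hne]
            rw [hu2] at hadj'
            exact hkey u hu1 hadj'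
          · have hne' : u' ≠ w := fun h => hwS (h ▸ hu2)
            rw [if_neg hne, if_neg hne']
            exact hp' u u' hadj')
      (by
        intro u _
        rw [card_univ]
        have := hdeg u
        omega)
    refine ⟨g, mem_Om.mpr ⟨hgP, fun z hz => ?_⟩, ?_⟩
    · have hne : z ≠ w := fun h => hwS (h ▸ hz)
      rw [hgS z (mem_insert_of_mem hz), if_neg hne]
    · rw [hgS w (mem_insert_self _ _), if_pos rfl]
  have hab : ∀ d, (∃ f ∈ Om G Sa pa, f w = d) ↔ ∃ f ∈ Om G Sa pb, f w = d := fun d =>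
    ⟨hext pa pb hpbP hpbT d, hext pb pa hpaP (fun z hz => (hpbT z hz).symm) d⟩
  -- choices
  have hqa : ∃ q : C → V → C, ∀ d, (∃ f ∈ Om G Sa pa, f w = d) → q d ∈ Om G Sa pa ∧ q d w = d := by
    refine ⟨fun d => if h : ∃ f ∈ Om G Sa pa, f w = d then h.choose else pa, fun d hd => ?_⟩
    simp only [dif_pos hd]
    exact hd.choose_spec
  have hqb : ∃ q : C → V → C, ∀ d, (∃ f ∈ Om G Sa pb, f w = d) → q d ∈ Om G Sa pb ∧ q d w = d := by
    refine ⟨fun d => if h : ∃ f ∈ Om G Sa pb, f w = d then h.choose else pb, fun d hd => ?_⟩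
    simp only [dif_pos hd]
    exact hd.choose_spec
  obtain ⟨qa, hqa⟩ := hqa
  obtain ⟨qb, hqb⟩ := hqb
  set Pa : C → ℝ := fun d => pr G Sa pa w d with hPa
  set Pb : C → ℝ := fun d => pr G Sa pb w d with hPb
  set Ra : C → V × C → ℝ := fun d e => pr G (insert w Sa) (qa d) e.1 e.2 with hRa
  set Rb : C → V × C → ℝ := fun d e => pr G (insert w Sa) (qb d) e.1 e.2 with hRb
  have hta : ∀ e : V × C, pr G Sa pa e.1 e.2 = ∑ d, Pa d * Ra d e := fun e =>
    tower qa hqa e.1 e.2
  have htb : ∀ e : V × C, pr G Sa pb e.1 e.2 = ∑ d, Pb d * Rb d e := fun e =>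
    tower qb hqb e.1 e.2
  have hsa : ∑ d, Pa d = 1 := sum_pr hpaO w
  have hsb : ∑ d, Pb d = 1 := sum_pr hpbO w
  have hPb0 : ∀ d, 0 ≤ Pb d := fun d => pr_nonneg _ _ _ _
  -- the maximum of the second terms
  set t : C → ℝ := fun d => ∑ e : V × C, |Ra d e - Rb d e| with ht
  set Dn : Finset C := univ.filter (fun d => ∃ f ∈ Om G Sa pb, f w = d) with hDn
  have hDne : Dn.Nonempty := ⟨pb w, mem_filter.mpr ⟨mem_univ _, pb, hpbO, rfl⟩⟩
  obtain ⟨d0, hd0, hmax⟩ := Finset.exists_max_image Dn t hDne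
  have hd0b : ∃ f ∈ Om G Sa pb, f w = d0 := (mem_filter.mp hd0).2
  have hd0a : ∃ f ∈ Om G Sa pa, f w = d0 := (hab d0).mpr hd0b
  obtain ⟨ha1, ha2⟩ := hqa d0 hd0a
  obtain ⟨hb1, hb2⟩ := hqb d0 hd0b
  refine ⟨qa d0, ha1, qb d0, hb1, ?_, ?_⟩
  · obtain ⟨ha3, ha4⟩ := mem_Om.mp ha1
    obtain ⟨hb3, hb4⟩ := mem_Om.mp hb1
    refine mem_Om.mpr ⟨hb3, fun z hz => ?_⟩
    rcases mem_insert.mp hz with rfl | hz
    · rw [ha2, hb2]
    · rw [ha4 z (mem_insert_of_mem hz), hb4 z (mem_insert_of_mem hz), hpbT z hz]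
  · have hdec : ∀ e : V × C, pr G Sa pa e.1 e.2 - pr G Sa pb e.1 e.2
        = ∑ d, (Pa d - Pb d) * Ra d e + ∑ d, Pb d * (Ra d e - Rb d e) := by
      intro e
      rw [hta e, htb e, ← Finset.sum_sub_distrib, ← Finset.sum_add_distrib]
      refine Finset.sum_congr rfl fun d _ => ?_
      ring
    have htot : tot G T v pa pb = ∑ e : V × C, |pr G Sa pa e.1 e.2 - pr G Sa pb e.1 e.2| := by
      unfold tot
      rw [← Finset.univ_product_univ, Finset.sum_product]
    have hfirst : ∑ e : V × C, |∑ d, (Pa d - Pb d) * Ra d e|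
        ≤ Γ * ((1 / 2) * ∑ d, |Pa d - Pb d|) := by
      refine h1 C (V × C) (fun d => Pa d - Pb d) Ra Γ ?_ ?_
      · rw [Finset.sum_sub_distrib, hsa, hsb, sub_self]
      · intro d d' hd hd'
        have hsupp : ∀ d, Pa d - Pb d ≠ 0 → ∃ f ∈ Om G Sa pa, f w = d := by
          intro d hd
          by_cases hz : Pa d = 0
          · have : Pb d ≠ 0 := by
              intro h
              apply hd
              rw [hz, h, sub_zero]
            exact (hab d).mpr (pr_ne_zero this)
          · exact pr_ne_zero hz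
        obtain ⟨hx1, _⟩ := hqa d (hsupp d hd)
        obtain ⟨hy1, _⟩ := hqa d' (hsupp d' hd')
        obtain ⟨hx3, hx4⟩ := mem_Om.mp hx1
        obtain ⟨hy3, hy4⟩ := mem_Om.mp hy1
        have h4 := hΓ (qa d) (mem_filter.mpr ⟨mem_univ _, hx3⟩) (qa d')
          (mem_Om.mpr ⟨hy3, fun z hz => (hy4 z hz).trans (hx4 z hz).symm⟩)
        have h5 : tot G Sa w (qa d) (qa d') = ∑ e : V × C, |Ra d e - Ra d' e| := by
          unfold tot
          rw [← Finset.univ_product_univ, Finset.sum_product]
        rw [← h5]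
        exact h4
    have hsecond : ∑ e : V × C, |∑ d, Pb d * (Ra d e - Rb d e)| ≤ t d0 := by
      calc ∑ e : V × C, |∑ d, Pb d * (Ra d e - Rb d e)|
          ≤ ∑ e : V × C, ∑ d, Pb d * |Ra d e - Rb d e| := by
            refine Finset.sum_le_sum fun e _ => ?_
            refine (Finset.abs_sum_le_sum_abs _ _).trans ?_
            refine Finset.sum_le_sum fun d _ => ?_
            rw [abs_mul, abs_of_nonneg (hPb0 d)]
        _ = ∑ d, Pb d * t d := by
            rw [Finset.sum_comm]
            refine Finset.sum_congr rfl fun d _ => ?_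
            rw [ht, Finset.mul_sum]
        _ ≤ ∑ d, Pb d * t d0 := by
            refine Finset.sum_le_sum fun d _ => ?_
            by_cases hz : Pb d = 0
            · rw [hz, zero_mul, zero_mul]
            · exact mul_le_mul_of_nonneg_left
                (hmax d (mem_filter.mpr ⟨mem_univ _, pr_ne_zero hz⟩)) (hPb0 d)
        _ = t d0 := by rw [← Finset.sum_mul, hsb, one_mul]
    have ht0 : t d0 = tot G (insert w T) v (qa d0) (qb d0) := by
      unfold tot
      rw [ht, hRa, hRb]
      simp only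
      rw [← Finset.univ_product_univ, Finset.sum_product, hSa, Finset.insert_comm w v T]
    rw [htot, ← ht0]
    have hdel : del G T v w pa pb = (1 / 2) * ∑ d, |Pa d - Pb d| := rfl
    rw [hdel]
    calc ∑ e : V × C, |pr G Sa pa e.1 e.2 - pr G Sa pb e.1 e.2|
        ≤ ∑ e : V × C, (|∑ d, (Pa d - Pb d) * Ra d e| + |∑ d, Pb d * (Ra d e - Rb d e)|) := by
          refine Finset.sum_le_sum fun e _ => ?_
          rw [hdec e]
          exact abs_add_le _ _
      _ ≤ Γ * ((1 / 2) * ∑ d, |Pa d - Pb d|) + t d0 := by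
          rw [Finset.sum_add_distrib]
          exact add_le_add hfirst hsecond
      _ = (1 / 2) * ∑ d, |Pa d - Pb d| * 1 * Γ + t d0 := by
          simp only [mul_one]
          rw [← Finset.sum_mul]
          ring
      _ = _ := by
          simp only [mul_one]
          rw [← Finset.sum_mul]
          ring

end Pool.Agent.KempeLG
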