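import Pool.Agent.Lib.MP_26a019_lc.LG.Spec

set_option autoImplicit false

/-!
# Revealing the vertices of a set one after the other
-/

open Finset Classical

namespace Pool.Agent.KempeLG

open Pool.Agent.Kempe Pool.Agent.KempeMix

theorem revealAll_mem_PC {V C : Type} [Fintype V] [Fintype C] {G : SimpleGraph V} {f : V → C} :
    f ∈ PC G C ↔ Proper G f := by
  unfold PC
  simp

theorem revealAll_mem_Om {V C : Type} [Fintype V] [Fintype C] {G : SimpleGraph V} {W : Finset V}
    {p f : V → C} : f ∈ Om G W p ↔ Proper G f ∧ ∀ z ∈ W, f z = p z := by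
  unfold Om
  simp

theorem revealAll (h1 : RevealStmt) (_h2 : InflStmt) : RevealAllStmt := by
  intro V C _ _ G v Γ S
  induction S using Finset.induction_on with
  | empty =>
    intro T pa pb _ _ _ hpa hpb _
    have hPa := revealAll_mem_PC.1 hpa
    have hPb := revealAll_mem_Om.1 hpb
    refine ⟨fun _ => T, fun _ => pa, fun _ => pb, pa, pb, fun w hw => absurd hw (by simp),
      revealAll_mem_Om.2 ⟨hPa, fun _ _ => rfl⟩, revealAll_mem_Om.2 ⟨hPb.1, fun _ _ => rfl⟩, ?_, ?_⟩
    · rw [Finset.union_empty]; exact hpb
    · rw [Finset.union_empty, Finset.sum_empty]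
      linarith
  | insert w S' hw ih =>
    intro T pa pb hdeg hvT hS hpa hpb hΓ
    have hPa := revealAll_mem_PC.1 hpa
    have hPb := revealAll_mem_Om.1 hpb
    obtain ⟨hwT, hwv, hadj⟩ := hS w (Finset.mem_insert_self w S')
    obtain ⟨pa', hpa', pb', hpb', hab', htot⟩ := h1 V C G T v w pa pb Γ hdeg hvT hwT
      (Ne.symm hwv) hadj hpa hpb (fun p1 hp1 p2 hp2 => hΓ T (Finset.Subset.refl _) hvT w hwT hwv
        p1 hp1 p2 hp2)
    have hpa1 := revealAll_mem_Om.1 hpa'
    have hpb1 := revealAll_mem_Om.1 hpb'
    obtain ⟨TT, qa, qb, ra, rb, hTT, hra, hrb, hrab, hle⟩ := ih (insert w T) pa' pb' hdeg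
      (by
        rw [Finset.mem_insert, not_or]
        exact ⟨Ne.symm hwv, hvT⟩)
      (fun w' hw' => by
        obtain ⟨h3, h4, h5⟩ := hS w' (Finset.mem_insert_of_mem hw')
        refine ⟨?_, h4, h5⟩
        rw [Finset.mem_insert, not_or]
        exact ⟨fun h => hw (h ▸ hw'), h3⟩)
      (revealAll_mem_PC.2 hpa1.1) hab'
      (fun T' hT' hvT' w' hw'T' hw'v => hΓ T' ((Finset.subset_insert w T).trans hT') hvT' w'
        hw'T' hw'v)
    have hU : insert w T ∪ S' = T ∪ insert w S' := by
      ext z
      simp only [Finset.mem_union, Finset.mem_insert]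
      tauto
    -- colourings which agree with `pa'` on more vertices agree with `pa` on `insert v T`
    have htr : ∀ (p p' f : V → C), p' ∈ Om G (insert v T) p → f ∈ Om G (insert v (insert w T)) p' →
        f ∈ Om G (insert v T) p := by
      intro p p' f hp' hf
      have h3 := revealAll_mem_Om.1 hp'
      have h4 := revealAll_mem_Om.1 hf
      refine revealAll_mem_Om.2 ⟨h4.1, fun z hz => ?_⟩
      rw [h4.2 z ?_, h3.2 z hz]
      rcases Finset.mem_insert.1 hz with h | h
      · rw [h]; exact Finset.mem_insert_self _ _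
      · exact Finset.mem_insert_of_mem (Finset.mem_insert_of_mem h)
    refine ⟨fun z => if z = w then T else TT z, fun z => if z = w then pa else qa z,
      fun z => if z = w then pb else qb z, ra, rb, fun z hz => ?_, htr pa pa' ra hpa' hra,
      htr pb pb' rb hpb' hrb, ?_, ?_⟩
    · by_cases hzw : z = w
      · simp only [hzw, if_true]
        exact ⟨Finset.Subset.refl _, Finset.subset_union_left,
          revealAll_mem_Om.2 ⟨hPa, fun _ _ => rfl⟩, revealAll_mem_Om.2 ⟨hPb.1, fun _ _ => rfl⟩,
          hpb⟩
      · simp only [hzw, if_false]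
        have hz' : z ∈ S' := by
          rcases Finset.mem_insert.1 hz with h | h
          · exact absurd h hzw
          · exact h
        obtain ⟨a1, a2, a3, a4, a5⟩ := hTT z hz'
        exact ⟨(Finset.subset_insert w T).trans a1, by rw [← hU]; exact a2,
          htr pa pa' _ hpa' a3, htr pb pb' _ hpb' a4, a5⟩
    · rw [← hU]; exact hrab
    · rw [Finset.sum_insert hw]
      simp only [if_true]
      have hsum : ∑ z ∈ S', del G (if z = w then T else TT z) v z (if z = w then pa else qa z)
          (if z = w then pb else qb z) = ∑ z ∈ S', del G (TT z) v z (qa z) (qb z) := by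
        refine Finset.sum_congr rfl fun z hz => ?_
        have : z ≠ w := fun h => hw (h ▸ hz)
        simp only [this, if_false]
      rw [hsum, add_mul, ← hU]
      linarith

end Pool.Agent.KempeLG
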