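import Pool.Agent.Lib.MP_26a019_lc.LG.Spec

set_option autoImplicit false

/-!
# Glauber dynamics with `Δ + 2` colours: real inequalities
-/

open Finset Classical

namespace Pool.Agent.KempeLG

open Pool.Agent.Kempe Pool.Agent.KempeMix

namespace Scal

/-- a function with nonnegative derivative on `[0,c]` vanishing at `0` is nonnegative -/
theorem nonneg_of_deriv {f f' : ℝ → ℝ} {c : ℝ} (h0 : f 0 = 0)
    (hd : ∀ x, 0 ≤ x → x ≤ c → HasDerivAt f (f' x) x)
    (hn : ∀ x, 0 ≤ x → x ≤ c → 0 ≤ f' x) : ∀ x, 0 ≤ x → x ≤ c → 0 ≤ f x := by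
  intro x hx hxc
  have hmono : MonotoneOn f (Set.Icc 0 c) := by
    refine monotoneOn_of_deriv_nonneg (convex_Icc 0 c) ?_ ?_ ?_
    · intro y hy
      exact (hd y hy.1 hy.2).continuousAt.continuousWithinAt
    · intro y hy
      rw [interior_Icc] at hy
      exact (hd y hy.1.le hy.2.le).differentiableAt.differentiableWithinAt
    · intro y hy
      rw [interior_Icc] at hy
      rw [(hd y hy.1.le hy.2.le).deriv]
      exact hn y hy.1.le hy.2.le
  have := hmono (show (0 : ℝ) ∈ Set.Icc 0 c from ⟨le_rfl, hx.trans hxc⟩)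
    (show x ∈ Set.Icc 0 c from ⟨hx, hxc⟩) hx
  rw [h0] at this
  exact this

/-- derivative of `log (1-x)` -/
theorem hasDerivAt_log1m {x : ℝ} (hx : x < 1) :
    HasDerivAt (fun x => Real.log (1 - x)) (-1 / (1 - x)) x := by
  have h1 : HasDerivAt (fun x : ℝ => 1 - x) (-1) x := by
    simpa using (hasDerivAt_id x).const_sub 1
  exact h1.log (by linarith)

theorem log_lower {x : ℝ} (hx : 0 ≤ x) (hx1 : x ≤ 1 / 3) : x + x ^ 2 / 2 ≤ -Real.log (1 - x) := by
  have h := nonneg_of_deriv (f := fun x => -Real.log (1 - x) - (x + x ^ 2 / 2))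
    (f' := fun x => -(-1 / (1 - x)) - (1 + 2 * x / 2)) (c := 1 / 3) (by simp) ?_ ?_ x hx hx1
  · linarith
  · intro y hy hyc
    refine (hasDerivAt_log1m (by linarith)).neg.sub ?_
    refine (hasDerivAt_id y).add ?_
    have := ((hasDerivAt_id y).pow 2).div_const 2
    simpa using this
  · intro y hy hyc
    have h1 : 0 < 1 - y := by linarith
    have : -(-1 / (1 - y)) - (1 + 2 * y / 2) = y ^ 2 / (1 - y) := by
      field_simp
      ring
    rw [this]
    positivity

theorem log_upper {x : ℝ} (hx : 0 ≤ x) (hx1 : x ≤ 1 / 3) :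
    -Real.log (1 - x) ≤ x + x ^ 2 / 2 + x ^ 3 / 2 := by
  have h := nonneg_of_deriv (f := fun x => Real.log (1 - x) + (x + x ^ 2 / 2 + x ^ 3 / 2))
    (f' := fun x => (-1 / (1 - x)) + (1 + 2 * x / 2 + 3 * x ^ 2 / 2)) (c := 1 / 3)
    (by simp) ?_ ?_ x hx hx1
  · linarith
  · intro y hy hyc
    refine (hasDerivAt_log1m (by linarith)).add ?_
    refine ((hasDerivAt_id y).add ?_).add ?_
    · have := ((hasDerivAt_id y).pow 2).div_const 2
      simpa using this
    · have := ((hasDerivAt_id y).pow 3).div_const 2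
      simpa using this
  · intro y hy hyc
    have h1 : 0 < 1 - y := by linarith
    have : (-1 / (1 - y)) + (1 + 2 * y / 2 + 3 * y ^ 2 / 2) = y ^ 2 * (1 - 3 * y) / (2 * (1 - y)) := by
      field_simp
      ring
    rw [this]
    have h2 : 0 ≤ 1 - 3 * y := by linarith
    positivity

theorem log1p_lower {x : ℝ} (hx : 0 ≤ x) : x - x ^ 2 / 2 ≤ Real.log (1 + x) := by
  have h := nonneg_of_deriv (f := fun x => Real.log (1 + x) - (x - x ^ 2 / 2))
    (f' := fun x => 1 / (1 + x) - (1 - 2 * x / 2)) (c := x) (by simp) ?_ ?_ x hx le_rfl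
  · linarith
  · intro y hy hyc
    have h1 : HasDerivAt (fun x : ℝ => 1 + x) 1 y := by
      simpa using (hasDerivAt_id y).const_add 1
    refine (h1.log (by linarith)).sub ?_
    refine (hasDerivAt_id y).sub ?_
    have := ((hasDerivAt_id y).pow 2).div_const 2
    simpa using this
  · intro y hy hyc
    have h1 : 0 < 1 + y := by linarith
    have : 1 / (1 + y) - (1 - 2 * y / 2) = y ^ 2 / (1 + y) := by
      field_simp
      ring
    rw [this]
    positivity

end Scal

theorem scalA : ScalAStmt := by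
  intro x P hx hxP hP
  have h1 : 0 < 1 - P := by linarith
  have h2 : 0 < 1 - x := by linarith
  have hl := Scal.log_lower hx (hxP.trans hP)
  have h3 : 0 < (1 - P) ^ 2 * (1 + P / 2) := by
    have : 0 < 1 + P / 2 := by linarith
    positivity
  have h4 : 1 / ((1 - P) ^ 2 * (1 + P / 2)) * (x + x ^ 2 / 2)
      ≤ 1 / ((1 - P) ^ 2 * (1 + P / 2)) * (-Real.log (1 - x)) :=
    mul_le_mul_of_nonneg_left hl (by positivity)
  refine le_trans ?_ h4
  rw [div_le_iff₀ (by positivity), one_div, ← div_eq_inv_mul, div_mul_eq_mul_div, le_div_iff₀ h3]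
  have h5 : (1 - P) ^ 2 * (1 + P / 2) ≤ (1 - x) ^ 2 * (1 + x / 2) := by
    have h6 : (1 - x) ^ 2 * (1 + x / 2) - (1 - P) ^ 2 * (1 + P / 2)
        = (P - x) * (3 / 2 - (P ^ 2 + P * x + x ^ 2) / 2) := by ring
    have h7 : 0 ≤ 3 / 2 - (P ^ 2 + P * x + x ^ 2) / 2 := by nlinarith
    have h8 : 0 ≤ P - x := by linarith
    nlinarith [mul_nonneg h8 h7]
  nlinarith [mul_le_mul_of_nonneg_left h5 hx]

theorem scalB : ScalBStmt := by
  intro x P hx hxP hP
  have hl := Scal.log_upper hx (hxP.trans hP)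
  have h1 : x ^ 2 ≤ x * P := by nlinarith
  have h2 : x ^ 3 ≤ x * P ^ 2 := by
    have : x ^ 2 ≤ P ^ 2 := by nlinarith
    nlinarith
  nlinarith

theorem scalC : ScalCStmt := by
  intro P h0 hP
  have h1 : 0 < 1 - P := by linarith
  have h2 : 0 < 1 + P / 2 := by linarith
  have h3 : 0 < (1 - P) ^ 3 * (1 + P / 2) ^ 2 := by positivity
  have he : 0 < eta P := by
    unfold eta
    positivity
  rw [← Real.log_le_iff_le_exp he]
  have hl : Real.log (eta P) = -(3 * Real.log (1 - P) + 2 * Real.log (1 + P / 2)) := by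
    unfold eta
    rw [one_div, Real.log_inv, Real.log_mul (by positivity) (by positivity), Real.log_pow,
      Real.log_pow]
    push_cast
    ring
  rw [hl]
  have e1 := Scal.log_upper h0 hP
  have e2 := Scal.log1p_lower (x := P / 2) (by linarith)
  have e3 : P ^ 3 ≤ P ^ 2 * (1 / 3) := by nlinarith [sq_nonneg P]
  nlinarith [sq_nonneg P]

theorem scalE : ScalEStmt := by
  intro P h0 hP
  have h1 : 0 < 1 - P := by linarith
  have h2 : 0 < 1 + P / 2 := by linarith
  have h3 : 0 < (1 - P) ^ 3 * (1 + P / 2) ^ 2 := by positivity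
  unfold eta
  constructor
  · rw [le_div_iff₀ h3, one_mul]
    have e1 : (1 - P) * (1 + P / 2) ≤ 1 := by nlinarith
    have e2 : ((1 - P) * (1 + P / 2)) ^ 2 ≤ 1 := by
      have : 0 ≤ (1 - P) * (1 + P / 2) := by positivity
      nlinarith
    have e3 : (1 - P) ^ 3 * (1 + P / 2) ^ 2 = (1 - P) * ((1 - P) * (1 + P / 2)) ^ 2 := by ring
    rw [e3]
    nlinarith [sq_nonneg ((1 - P) * (1 + P / 2))]
  · rw [div_le_iff₀ h3]
    have e1 : 7 / 9 ≤ (1 - P) * (1 + P / 2) := by nlinarith
    have e2 : 49 / 81 ≤ ((1 - P) * (1 + P / 2)) ^ 2 := by nlinarith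
    have e3 : (1 - P) ^ 3 * (1 + P / 2) ^ 2 = (1 - P) * ((1 - P) * (1 + P / 2)) ^ 2 := by ring
    rw [e3]
    nlinarith

end Pool.Agent.KempeLG
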