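import Pool.Agent.Lib.MP_26a019_lc.LG.Spec

set_option autoImplicit false

/-!
# Glauber dynamics with `Δ + 2` colours: the real inequality in two variables
-/

open Finset Classical

namespace Pool.Agent.KempeLG

open Pool.Agent.Kempe Pool.Agent.KempeMix

namespace ScalD

theorem poly1 (z : ℝ) (h0 : 0 ≤ z) (h1 : z ≤ 1 / 4) :
    3.3948 * (1 - z + z ^ 2 / 2) + (11 / 9 - z)
      + 2.3 * (3 / 11) * 3.3948 ^ 2 * z * (1 - z + z ^ 2 / 2) ^ 2 ≤ 4.9 := by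
  have hb : 0 ≤ 1 / 4 - z := by linarith
  have e0 : 0 ≤ (1 / 4 - z) ^ 5 := by positivity
  have e1 : 0 ≤ z * (1 / 4 - z) ^ 4 := by positivity
  have e2 : 0 ≤ z ^ 2 * (1 / 4 - z) ^ 3 := by positivity
  have e3 : 0 ≤ z ^ 3 * (1 / 4 - z) ^ 2 := by positivity
  have e4 : 0 ≤ z ^ 4 * (1 / 4 - z) := by positivity
  have e5 : 0 ≤ z ^ 5 := by positivity
  norm_num
  nlinarith [e0, e1, e2, e3, e4, e5]

theorem poly2 (z : ℝ) (h0 : 1 / 4 ≤ z) (h1 : z ≤ 11 / 12) :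
    3.3948 * (1 - z + z ^ 2 / 2) + (11 / 9 - z)
      + 2.3 * (3 / 11) * 3.3948 ^ 2 * z * (1 - z + z ^ 2 / 2) ^ 2 ≤ 4.9 := by
  have ha : 0 ≤ z - 1 / 4 := by linarith
  have hb : 0 ≤ 11 / 12 - z := by linarith
  have e0 : 0 ≤ (11 / 12 - z) ^ 5 := by positivity
  have e1 : 0 ≤ (z - 1 / 4) * (11 / 12 - z) ^ 4 := by positivity
  have e2 : 0 ≤ (z - 1 / 4) ^ 2 * (11 / 12 - z) ^ 3 := by positivity
  have e3 : 0 ≤ (z - 1 / 4) ^ 3 * (11 / 12 - z) ^ 2 := by positivity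
  have e4 : 0 ≤ (z - 1 / 4) ^ 4 * (11 / 12 - z) := by positivity
  have e5 : 0 ≤ (z - 1 / 4) ^ 5 := by positivity
  norm_num
  nlinarith [e0, e1, e2, e3, e4, e5]

theorem poly (z : ℝ) (h0 : 0 ≤ z) (h1 : z ≤ 11 / 12) :
    3.3948 * (1 - z + z ^ 2 / 2) + (11 / 9 - z)
      + 2.3 * (3 / 11) * 3.3948 ^ 2 * z * (1 - z + z ^ 2 / 2) ^ 2 ≤ 4.9 := by
  rcases le_total z (1 / 4) with h | h
  · exact poly1 z h0 h
  · exact poly2 z h h1

theorem exp_neg_le (z : ℝ) (h0 : 0 ≤ z) : Real.exp (-z) ≤ 1 - z + z ^ 2 / 2 := by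
  have h1 := Real.quadratic_le_exp_of_nonneg h0
  have h2 : 0 < 1 + z + z ^ 2 / 2 := by positivity
  have h3 : 0 < 1 - z + z ^ 2 / 2 := by nlinarith [sq_nonneg (z - 1)]
  rw [Real.exp_neg]
  calc (Real.exp z)⁻¹ ≤ (1 + z + z ^ 2 / 2)⁻¹ := by
        apply inv_anti₀ h2 h1
    _ ≤ 1 - z + z ^ 2 / 2 := by
        rw [inv_le_iff_one_le_mul₀ h2]
        nlinarith [sq_nonneg (z ^ 2)]

theorem exp_bd : Real.exp (11 / 9) ≤ 3.3948 := by
  have h1 : Real.exp (11 / 9) = Real.exp 1 * Real.exp (2 / 9) := by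
    rw [← Real.exp_add]
    norm_num
  have h2 : Real.exp 1 < 2.7182818286 := Real.exp_one_lt_d9
  have h3 : Real.exp (2 / 9 : ℝ) ≤ 1.24885 := by
    have := Real.exp_bound' (x := (2 / 9 : ℝ)) (by norm_num) (by norm_num) (n := 6) (by norm_num)
    refine this.trans ?_
    norm_num [Finset.sum_range_succ, Nat.factorial]
  rw [h1]
  have h4 : 0 < Real.exp (2 / 9 : ℝ) := Real.exp_pos _
  calc Real.exp 1 * Real.exp (2 / 9) ≤ 2.7182818286 * 1.24885 := by gcongr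
    _ ≤ 3.3948 := by norm_num

end ScalD

theorem scalD : ScalDStmt := by
  intro l ρ hl hρ hρl
  have hl0 : 0 < l := by linarith
  set z : ℝ := 11 / 3 / l with hz
  have hz0 : 0 ≤ z := by positivity
  have hz1 : z ≤ 11 / 12 := by
    rw [hz, div_le_iff₀ hl0]
    linarith
  have harg : 11 / 9 * (1 - 3 / l) = 11 / 9 - z := by
    rw [hz]
    ring
  rw [harg] at hρl
  have hlog : Real.log ρ ≤ 11 / 9 - z := by
    rw [Real.log_le_iff_le_exp hρ]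
    exact hρl
  have hE : ρ ≤ 3.3948 * (1 - z + z ^ 2 / 2) := by
    refine hρl.trans ?_
    have : Real.exp (11 / 9 - z) = Real.exp (11 / 9) * Real.exp (-z) := by
      rw [← Real.exp_add]
      rfl
    rw [this]
    have h1 := ScalD.exp_bd
    have h2 := ScalD.exp_neg_le z hz0
    have h3 := Real.exp_pos (-z)
    gcongr
  have hE2 : ρ ^ 2 ≤ (3.3948 * (1 - z + z ^ 2 / 2)) ^ 2 := by gcongr
  have h4 : 2.3 * ρ ^ 2 / l = 2.3 * (3 / 11) * z * ρ ^ 2 := by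
    rw [hz]
    ring
  rw [h4]
  have h5 : 2.3 * (3 / 11) * z * ρ ^ 2
      ≤ 2.3 * (3 / 11) * z * (3.3948 * (1 - z + z ^ 2 / 2)) ^ 2 := by gcongr
  have h6 := ScalD.poly z hz0 hz1
  have h7 : 2.3 * (3 / 11) * z * (3.3948 * (1 - z + z ^ 2 / 2)) ^ 2
      = 2.3 * (3 / 11) * 3.3948 ^ 2 * z * (1 - z + z ^ 2 / 2) ^ 2 := by ring
  rw [h7] at h5
  linarith

end Pool.Agent.KempeLG
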