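import Pool.Agent.Lib.MP_26a019_lc.LG.Defs

set_option autoImplicit false

/-!
# Glauber dynamics with `Δ + 2` colours on graphs of large girth: the statements

Every statement is a `Prop`; the module named in its title proves it, if necessary from the other
statements listed as hypotheses.

Overview. (1) `OneStepStmt`: one step of the tree recursion is a contraction for the norm `nrm`.
(2) `ThmAStmt`, `ThmBStmt`: decay of the total influence on forests with soft lists and slack two.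
(3) `SsmStmt`: strong spatial mixing on forests. (4) `PinTidStmt`, `PinSsmStmt`: the same for
pinned uniform colourings of a graph `G` (forest after deletion of the pinned vertices).
(5) `LevelStmt`, `SphereStmt`: decay of the total influence for families of pinnings.
(6) `RevealStmt`, `TotStmt`: total influence in a graph of large girth, all pinnings.
(7) `FinalStmt`: mixing, with `mixing_of_si`, `si_of_influence` of the folder `Mix`.
-/

open Finset Classical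

namespace Pool.Agent.KempeLG

open Pool.Agent.Kempe Pool.Agent.KempeMix

/-! ## 1. Real inequalities -/

/-- File Scal.lean (1). Proof: `-log(1-x) ≥ x + x^2/2 = x (1 + x/2)` and
`(1-P)^2 (1+P/2) ≤ (1-x)^2 (1+x/2)` since `(1-x)^2 (1+x/2)` is decreasing on `[0,1/3]`
(the difference is `(P-x)` times a positive polynomial). -/
def ScalAStmt : Prop := ∀ x P : ℝ, 0 ≤ x → x ≤ P → P ≤ 1 / 3 →
  x / (1 - x) ^ 2 ≤ 1 / ((1 - P) ^ 2 * (1 + P / 2)) * (-Real.log (1 - x))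

/-- File Scal.lean (2). Proof: it is enough for `P = x` (`x` times an increasing function of `P`).
`g(x) = x + x^2/2 + x^3/2 + log(1-x)` has `g 0 = 0` and
`g' = 1 + x + 3x^2/2 - 1/(1-x) = x^2 (1 - 3x) / (2 (1-x)) ≥ 0` on `[0,1/3]`. -/
def ScalBStmt : Prop := ∀ x P : ℝ, 0 ≤ x → x ≤ P → P ≤ 1 / 3 →
  -Real.log (1 - x) ≤ x * (1 + P / 2 + P ^ 2 / 2)

/-- File Scal.lean (3). Proof: `log (eta P) = -3 log(1-P) - 2 log(1+P/2)`; use
`-log(1-P) ≤ P + P^2/2 + P^3/3 + P^4/4 + P^5/(5(1-P))` and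
`log(1+P/2) ≥ P/2 - P^2/8 + P^3/24 - P^4/64`; it remains
`1.75 P^2 + (11/12) P^3 + (25/32) P^4 + 3 P^5/(5(1-P)) ≤ 2.3 P^2` on `[0,1/3]` (the left side
divided by `P^2` is at most `1.75 + 0.306 + 0.087 + 0.034`). Or any other way (both
logarithms can be bounded by integrating or by monotonicity of the difference). -/
def ScalCStmt : Prop := ∀ P : ℝ, 0 ≤ P → P ≤ 1 / 3 → eta P ≤ Real.exp (2 * P + 2.3 * P ^ 2)

/-- File Scal.lean (4). `(1-P)^3 (1+P/2)^2` is at most `1` and at least `(8/27)(49/36) > 2/5`. -/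
def ScalEStmt : Prop := ∀ P : ℝ, 0 ≤ P → P ≤ 1 / 3 → 1 ≤ eta P ∧ eta P ≤ 5 / 2

/-- File ScalD.lean. Proof: the left side increases with `ρ`, so take `ρ = exp y`,
`y = 11/9 * (1 - 3/l)`, `1/l = (11 - 9y)/33`, `y ∈ [11/36, 11/9]`: one has to show
`exp y + y + (2.3/33) (11 - 9 y) exp(2y) ≤ 4.9`. (Numerically the maximum is `4.7985` at
`y = 1.09`; values `4.617` at `11/9`, `1.77` at `0`.) For instance: with `x = 3/l ∈ [0,3/4]`,
`exp y = exp(11/9) exp(-11x/9)`, `exp(11/9) ≤ 3.3948`, `exp(-z) ≤ 1 - z + z^2/2` for `z ≥ 0`,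
which leaves the polynomial inequality, `z = 11x/9 ∈ [0, 11/12]`, `E = 1 - z + z^2/2`:
`3.3948 E + 11/9 - z + 2.3 * (3/11) * 3.3948^2 * z * E^2 ≤ 4.9` (maximum `4.804` near
`z = 0.15`). -/
def ScalDStmt : Prop := ∀ l ρ : ℝ, 4 ≤ l → 0 < ρ → ρ ≤ Real.exp (11 / 9 * (1 - 3 / l)) →
  ρ + Real.log ρ + 2.3 * ρ ^ 2 / l ≤ 4.9

/-! ## 2. One step -/

/-- File CS.lean, from `ScalAStmt`, `ScalBStmt`. The Cauchy-Schwarz part of the one step
inequality. Here `P_i = mx (p i) ∈ (0, 1/3]` (`p i z ≤ P_i`, attained; positive as the sum is `1`).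
Proof: let `G i z = F i z - ∑ c, p i c * F i c`, `μ i = 1/((1-P_i)^2 (1+P_i/2))`,
`b z = ∑ i, μ i * p i z * (G i z)^2`.
(a) Cauchy-Schwarz (`Finset.sum_sq_le_sum_mul_sum_of_sq_eq_mul` with
`f i = μ i * p i z * (G i z)^2`, `g i = p i z / (μ i * (1 - p i z)^2)`):
`(∑ i, p i z/(1-p i z) * G i z)^2 ≤ b z * ∑ i, p i z/(μ i (1-p i z)^2)
  ≤ b z * ∑ i, -log(1 - p i z)` by `ScalAStmt`.
(b) `∑ z, μ i p i z (G i z)^2 = μ i / eta P_i * nrm (p i) (F i) ≤ K μ i / eta P_i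
 = K (1-P_i)(1+P_i/2) = K (2 - (1 + P_i/2 + P_i^2/2)) ≤ K (2 - ∑ z, -log(1-p i z))`
by `ScalBStmt` and `∑ z, p i z = 1`. Sum over `i`. -/
def CSStmt : Prop := ∀ (ι C : Type) [Fintype ι] [Fintype C] (p F : ι → C → ℝ) (K : ℝ),
  (∀ i z, 0 ≤ p i z) → (∀ i, ∑ z, p i z = 1) → (∀ i z, p i z ≤ 1 / 3) →
  (∀ i, nrm (p i) (F i) ≤ K) → 0 ≤ K →
  ∃ b : C → ℝ, (∀ z, 0 ≤ b z) ∧
    (∀ z, (∑ i, p i z / (1 - p i z) * (F i z - ∑ c, p i c * F i c)) ^ 2 ≤
      b z * ∑ i, -Real.log (1 - p i z)) ∧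
    ∑ z, (b z + K * ∑ i, -Real.log (1 - p i z)) ≤ 2 * (Fintype.card ι : ℝ) * K

/-- File Entropy.lean, from `ScalCStmt`, `ScalDStmt`. The entropy part of the one step inequality.
Proof: let `l = ∑ φ ≥ m + 3 ≥ 4`, `Z = ∑ c, φ c exp(-Λ c) > 0`, `S = ∑ φ z Λ z`, `P = mx r`,
`r z = φ z exp(-Λ z)/Z` (a probability vector), `l ≤ card C =: q`.
(a) `∑ r z (Y z)^2 ≤ (1/Z) ∑ φ z (Λ z exp(-Λ z)) b z ≤ (1/(e Z)) ∑ φ z b z` (`x exp(-x) ≤ 1/e`)
and `∑ φ z (b z + K Λ z) ≤ ∑ (b z + K Λ z) ≤ 2mK`, so `∑ r z (Y z)^2 ≤ K (2m - S)/(e Z)`.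
(b) tangent inequality: for every `c > 0`: `-x ≤ exp(-x)/c - 1 + log c` (that is
`log t ≤ t/c - 1 + log c` for `t = exp(-x)`). With the same `c = Z/l` for all `z`:
`-S ≤ l log(Z/l)`.
(c) case `P ≤ 1/l`: by (b) `2m - S ≤ 2m + l log(Z/l) ≤ Z exp(2m/l - 1)` (again the tangent
inequality, `log(Z/l) ≤ (Z/l)/c - 1 + log c`, `log c = 1 - 2m/l`), so the left side is at most
`K eta(P) exp(2m/l - 2) ≤ K exp(2P + 2.3P^2 - 6/l) ≤ K exp((2 + 2.3/4 - 6)/l)`.
(d) case `P > 1/l`: let `P = r z0`. Tangent inequality with `c = P Z` for `z0` and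
`c' = (1-P) Z/(l-1)` for `z ≠ z0`: `-S ≤ φ z0 e^{-Λ z0}/(PZ) + (Z - φ z0 e^{-Λ z0})/c' - l
 + φ z0 log(PZ) + (l - φ z0) log c' = φ z0 log(PZ) + (l - φ z0) log c'`
(as `φ z0 e^{-Λ z0} = P Z`), and since `PZ ≥ c'` (iff `P l ≥ 1`) and `φ z0 ≤ 1` this is
`≤ log(PZ) + (l-1) log c' ≤ l log(Z/l) + log ρ + 1 - ρ`, `ρ = lP`, using
`log((1-P) l/(l-1)) = log(1 + (1-ρ)/(l-1)) ≤ (1-ρ)/(l-1)`. As in (c),
`2m - S ≤ Z exp((2m + log ρ + 1 - ρ)/l - 1)`, so the left side is at most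
`K eta(P) exp((2m - 2l + log ρ + 1 - ρ)/l) ≤ K exp((-6 + log ρ + 1 - ρ)/l + 2P + 2.3P^2)
 = K exp((ρ + log ρ + 2.3 ρ^2/l - 5)/l) ≤ K exp(-1/(10 l))` by `ScalDStmt`, where
`ρ ≤ l/Z ≤ exp(S/l) ≤ exp((11/9) m/l) ≤ exp((11/9)(1 - 3/l))` by (b) and `r z ≤ 1/Z`,
`S ≤ ∑ Λ ≤ 11 m/9`. Finally `l ≤ q`. If `K = 0` everything is `0`. -/
def EntropyStmt : Prop := ∀ (C : Type) [Fintype C] (φ Λ b Y r : C → ℝ) (m K : ℝ),
  1 ≤ m → 0 ≤ K → (∀ z, 0 ≤ φ z) → (∀ z, φ z ≤ 1) → m + 3 ≤ ∑ z, φ z →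
  (∀ z, 0 ≤ Λ z) → (∀ z, 0 ≤ b z) → ∑ z, (b z + K * Λ z) ≤ 2 * m * K →
  ∑ z, Λ z ≤ 11 / 9 * m → (∀ z, Y z ^ 2 ≤ b z * Λ z) →
  (∀ z, r z * ∑ c, φ c * Real.exp (-Λ c) = φ z * Real.exp (-Λ z)) → (∀ z, r z ≤ 1 / 3) →
  eta (mx r) * ∑ z, r z * Y z ^ 2 ≤ Real.exp (-1 / (10 * (Fintype.card C : ℝ))) * K

/-- File Third.lean. The root law. Proof: `w z = φ z ∏ (1 - p i z)`, `Z = ∑ w`. `∏ (1 - p i c) ≥
1 - ∑ i, p i c` (`Finset.one_sub_sum_le_prod_one_sub` or `one_add_sum_le_prod_one_add`-type lemma,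
induction), so `Z ≥ w z + ∑_{c ≠ z} φ c (1 - ∑ i, p i c) ≥ w z + (l - φ z) - m ≥ w z + 2`
(`∑_{c≠z} φ c ∑ i, p i c ≤ ∑ i ∑ c p i c = m`), `w z ≤ 1`, hence `w z ≤ Z/3` as
`3 w z ≤ w z + 2 ≤ Z`. In the same way `Z ≥ l - m ≥ 3`, and `w z ≤ φ z`, so `3 r z ≤ φ z`. -/
def ThirdStmt : Prop := ∀ (ι C : Type) [Fintype ι] [Fintype C] (p : ι → C → ℝ) (φ r : C → ℝ),
  (∀ i z, 0 ≤ p i z) → (∀ i, ∑ z, p i z = 1) →
  (∀ z, 0 ≤ φ z) → (∀ z, φ z ≤ 1) → (Fintype.card ι : ℝ) + 3 ≤ ∑ z, φ z →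
  (∀ z, r z * ∑ c, φ c * ∏ i, (1 - p i c) = φ z * ∏ i, (1 - p i z)) →
  0 < ∑ c, φ c * ∏ i, (1 - p i c) ∧ (∀ z, 0 ≤ r z) ∧ (∀ z, r z ≤ 1 / 3) ∧ ∑ z, r z = 1 ∧
    ∀ z, 3 * r z ≤ φ z

/-- File OneStep.lean, from `CSStmt`, `EntropyStmt`, `ThirdStmt`, `ScalBStmt`. One step of the
recursion. Proof: `Λ z = ∑ i, -log(1 - p i z) ≥ 0`, `∏ (1 - p i z) = exp(-Λ z)`, `b` from `CSStmt`
(`K ≥ 0` because `nrm ≥ 0` and there is an `i`), `∑ z, Λ z ≤ (11/9) m` by `ScalBStmt` with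
`P = 1/3` (`1 + 1/6 + 1/18 = 11/9`), `∑ z, r z (Y z - ∑ c, r c * Y c)^2 ≤ ∑ z, r z (Y z)^2`. -/
def OneStepStmt : Prop := ∀ (ι C : Type) [Fintype ι] [Fintype C] (p F : ι → C → ℝ)
  (φ r : C → ℝ) (K : ℝ), 0 < Fintype.card ι →
  (∀ i z, 0 ≤ p i z) → (∀ i, ∑ z, p i z = 1) → (∀ i z, p i z ≤ 1 / 3) →
  (∀ z, 0 ≤ φ z) → (∀ z, φ z ≤ 1) → (Fintype.card ι : ℝ) + 3 ≤ ∑ z, φ z →
  (∀ i, nrm (p i) (F i) ≤ K) →
  (∀ z, r z * ∑ c, φ c * ∏ i, (1 - p i c) = φ z * ∏ i, (1 - p i z)) →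
  nrm r (fun z => ∑ i, p i z / (1 - p i z) * (F i z - ∑ c, p i c * F i c)) ≤
    Real.exp (-1 / (10 * (Fintype.card C : ℝ))) * K

/-! ## 3. Soft list colourings of graphs -/

/-- File Greedy.lean. Greedy extension of a partial list colouring. Proof: induction on the number
of vertices outside `S`: for `v ∉ S` at most `dg H v` colours are used on the neighbours of `v`. -/
def GreedyStmt : Prop := ∀ (V C : Type) [Fintype V] [Fintype C] (H : SimpleGraph V)
  (L : V → Finset C) (S : Finset V) (p : V → C),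
  (∀ u ∈ S, ∀ w ∈ S, H.Adj u w → p u ≠ p w) → (∀ u, u ∉ S → dg H u < (L u).card) →
  ∃ f : V → C, Proper H f ∧ (∀ u ∈ S, f u = p u) ∧ ∀ u, u ∉ S → f u ∈ L u

/-- File Basic.lean, from `GreedyStmt`. Proof of `0 < Zp`: lists `{c | 0 < φ v c}` have at least
`∑ φ` elements (`φ ≤ 1`), hence more than `dg H v`. The last formula:
`mg v c * cEx v c F = Ex (1[f v = c] F)` also if `mg v c = 0` (then all the weights with `f v = c`
are zero). -/
def BasicStmt : Prop := ∀ (V C : Type) [Fintype V] [Fintype C] (H : SimpleGraph V)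
  (φ : V → C → ℝ), Good H φ →
  0 < Zp H φ ∧ (∀ v z, 0 ≤ mg H φ v z) ∧ (∀ v, ∑ z, mg H φ v z = 1) ∧
  (∀ T, Good (cut H T) φ) ∧
  (∀ v z F, mg H φ v z * cEx H φ v z F = Ex H φ (fun f => (if f v = z then 1 else 0) * F f)) ∧
  (∀ v F, ∑ c, mg H φ v c * cEx H φ v c F = Ex H φ F)

/-- File Indep.lean. Independence of unions of components. Proof: in the double sum
`∑ f ∑ g, wt f * wt g * g₁ f * g₂ g` exchange: `f' = f` on `A`, `g` off `A`; `g' = g` on `A`,
`f` off `A`. This is an involution of the pairs, `wt f' * wt g' = wt f * wt g` (no edge of `H`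
joins `A` to its complement), `g₁ f' = g₁ f`, `g₂ f' = g₂ g`. -/
def IndepStmt : Prop := ∀ (V C : Type) [Fintype V] [Fintype C] (H : SimpleGraph V)
  (φ : V → C → ℝ) (A : Set V) (g₁ g₂ : (V → C) → ℝ),
  (∀ u w, H.Adj u w → (u ∈ A ↔ w ∈ A)) →
  (∀ f f' : V → C, (∀ u ∈ A, f u = f' u) → g₁ f = g₁ f') →
  (∀ f f' : V → C, (∀ u, u ∉ A → f u = f' u) → g₂ f = g₂ f') →
  (∑ f, wt H φ f * (g₁ f * g₂ f)) * Zp H φ =
    (∑ f, wt H φ f * g₁ f) * (∑ f, wt H φ f * g₂ f)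

/-- File Forest.lean, from `IndepStmt`, `BasicStmt`. The tree recursion. Notation `H' = cut H {v}`,
`p i = mg H' φ i`, `A_z f = ∏ i ∈ nb H v, (1 - 1[f i = z])`.
Proof: in a forest the neighbours `i` of `v` lie in different components `K_i` of `H'`
(`SimpleGraph.isAcyclic_iff_path_unique` or bridges: a walk in `H'` between two neighbours of `v`
and the two edges at `v` give two different paths in `H`), `v` is isolated in `H'`.
`wt H φ f * 1[f v = z] = wt H' φ f * 1[f v = z] * A_z f` pointwise. By `IndepStmt` (repeatedly, the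
set `A` is a component) `Ex H'` of a product of functions `g_i`, each depending on `K_i` only, is
the product of the `Ex H'`, and `f v` is independent of the rest with law `φ v z/∑ φ v`. So
`Ex-sum_H(1[f v = z] F) = Zp H' * (φ v z/∑ φ v) * Ex H'(F A_z)` for `F` not depending on `f v`.
(1) `F = 1`: `Ex H' A_z = ∏ (1 - p i z)`.
(2) `F = h u (f u)`, `u ∈ K_i`: `Ex H' (h_u A_z) / Ex H' A_z = (Ex H' h_u - Ex H'(1[f i=z] h_u))
/(1 - p i z) = Ex H' h_u - (p i z/(1-p i z)) (cEx H' i z h_u - Ex H' h_u)`; for `u` in no `K_i`,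
`u ≠ v`: it is `Ex H' h_u`. For `u ∉ K_j`: `p j z * (cEx H' j z h_u - Ex H' h_u) = 0`. Sum over
`u ≠ v`; `K0 = Ex H' (∑_{u ≠ v} h_u)`; and `h_v` may be included on the right, `cEx - Ex` of it is
zero when `p i z > 0`. -/
def ForestStmt : Prop := ∀ (V C : Type) [Fintype V] [Fintype C] (H : SimpleGraph V)
  (φ : V → C → ℝ) (v : V), H.IsAcyclic → Good H φ →
  (∀ z, mg H φ v z * ∑ c, φ v c * ∏ i ∈ nb H v, (1 - mg (cut H {v}) φ i c) =
    φ v z * ∏ i ∈ nb H v, (1 - mg (cut H {v}) φ i z)) ∧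
  ∀ h : V → C → ℝ, ∃ K0 : ℝ, ∀ z, 0 < φ v z → (∀ i ∈ nb H v, mg (cut H {v}) φ i z < 1) →
    cEx H φ v z (fun f => ∑ u, h u (f u)) = h v z + K0 -
      ∑ i ∈ nb H v, mg (cut H {v}) φ i z / (1 - mg (cut H {v}) φ i z) *
        (cEx (cut H {v}) φ i z (fun f => ∑ u, h u (f u)) -
          Ex (cut H {v}) φ (fun f => ∑ u, h u (f u)))

/-- File ThmA.lean, from `OneStepStmt`, `ForestStmt`, `BasicStmt`, `ThirdStmt`, `ScalEStmt`.
Decay of the response of the root (with slack three) to additive functions at distance at least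
`k`. Let `q = card C`, `B = 40 q (20 q + 1) M`, `θ = 1/(10 q)`.
Proof: induction on the number of edges of `H` (for all `φ, v, k, h`). Let `H' = cut H {v}`,
`N = nb H v`. Every `i ∈ N` satisfies the hypotheses in `H'` (`dg H' i = dg H i - 1`, slack three
from `Good.slack`; `near H' i (k-1) u → near H v k u`; `H'` is acyclic and has fewer edges if
`N` is not empty). `mg H' φ i z ≤ 1/3` by `ForestStmt` (1) for `(H', i)` and `ThirdStmt` (index
type `{j // j ∈ nb H' i}`). `ForestStmt` for `(H, v)`: up to a constant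
`cEx H φ v z F = h v z - Y z` for all `z` with `φ v z > 0`, i.e. whenever `mg H φ v z > 0`
(`nrm` only sees those `z`, and does not change if a constant is added).
`nrm (mg v) Y ≤ exp(-θ) * max_i nrm ≤ exp(-θ) (1 - 1/(40q))^(k-1) B` by `OneStepStmt` and the
induction hypothesis, and `exp(-θ) ≤ 1/(1+θ)`, `(1+θ/2)/(1+θ) ≤ 1 - θ/4 = 1 - 1/(40q)`.
If `k ≥ 1` then `h v = 0` (`near H v k v` by the walk of length `0`). If `k = 0`:
`nrm p (h - Y) ≤ (1 + 20 q) nrm p h + (1 + θ/2) nrm p Y` (`(x-y)^2 ≤ (1+1/t) x^2 + (1+t) y^2`,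
`t = θ/2 = 1/(20q)`), `nrm p (h v) ≤ (5/2) ∑ p z (h v z)^2 ≤ (5/2) M/3 ≤ M` by `3 p z ≤ φ v z` (`ThirdStmt`). So the
total is at most `(1+20q) M + (1 - 1/(40q)) B = B`. If `N` is empty then `Y = 0`. -/
def ThmAStmt : Prop := ∀ (V C : Type) [Fintype V] [Fintype C] (H : SimpleGraph V)
  (φ : V → C → ℝ) (v : V) (k : ℕ) (h : V → C → ℝ) (M : ℝ), H.IsAcyclic → Good H φ →
  (dg H v : ℝ) + 3 ≤ ∑ c, φ v c → (∀ u, near H v k u → ∀ c, h u c = 0) →
  (∀ u, ∑ c, φ u c * (h u c) ^ 2 ≤ M) →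
  nrm (mg H φ v) (fun z => cEx H φ v z (fun f => ∑ u, h u (f u))) ≤
    (1 - 1 / (40 * (Fintype.card C : ℝ))) ^ k *
      (40 * (Fintype.card C : ℝ) * (20 * (Fintype.card C : ℝ) + 1) * M)

/-- File ThmB.lean, from `ThmAStmt`, `ForestStmt`, `BasicStmt`, `ThirdStmt`, `ScalEStmt`. Two
colours at the root. Proof: `ForestStmt` (2) for `v` (with `p i z ≤ 1/3` as in `ThmA`), `h v = 0`:
`cEx a - cEx b = -(Y a - Y b)`, `Y z = ∑ i ∈ nb H v, p i z/(1-p i z) * G i z`, and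
`(p/(1-p) G)^2 = (p/(1-p)^2) p G^2 ≤ (3/4) p G^2 ≤ (3/4) nrm ≤ (3/4) N`,
`N = (1-1/(40q))^(k-1) 40q(20q+1) M` by `ThmAStmt` for `(cut H {v}, i, k-1)` and `1 ≤ eta`. So
`|Y z| ≤ dg * sqrt(3N/4)` and `(Y a - Y b)^2 ≤ 4 dg^2 (3/4) N ≤ 4 q^2 N` (`dg + 2 ≤ ∑ φ ≤ q`). -/
def ThmBStmt : Prop := ∀ (V C : Type) [Fintype V] [Fintype C] (H : SimpleGraph V)
  (φ : V → C → ℝ) (v : V) (k : ℕ) (h : V → C → ℝ) (M : ℝ) (a b : C), 1 ≤ k → 0 ≤ M →
  H.IsAcyclic → Good H φ → 0 < φ v a → 0 < φ v b → (∀ u, near H v k u → ∀ c, h u c = 0) →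
  (∀ u, ∑ c, φ u c * (h u c) ^ 2 ≤ M) →
  (cEx H φ v a (fun f => ∑ u, h u (f u)) - cEx H φ v b (fun f => ∑ u, h u (f u))) ^ 2 ≤
    4 * (Fintype.card C : ℝ) ^ 2 * ((1 - 1 / (40 * (Fintype.card C : ℝ))) ^ (k - 1) *
      (40 * (Fintype.card C : ℝ) * (20 * (Fintype.card C : ℝ) + 1) * M))

/-- File Deriv.lean, from `BasicStmt`. The soft lists `Phi φ ψ s` are good for `s ∈ [0,1]`
(`Good` is convex), the marginals are continuous on `[0,1]` and differentiable inside.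
Proof of the formula: `d/ds wt H Phi f = wt H Phi f * ∑ u, hh u (f u)` (if a factor
`Phi u (f u)` is zero for `s ∈ (0,1)` then `φ u (f u) = ψ u (f u) = 0` and both sides are zero for
all `s`), quotient rule: `(N/Z)' = Ex(1 * ∑ hh) - Ex(1) Ex(∑ hh)`. The bound: for `s ∈ (0,1)`,
`Phi * hh^2 = tt'^2 (ψ-φ)^2/Phi ≤ tt'^2 max(1/(1-tt), 1/tt) ≤ 36`, as
`1 - tt = (1-s)^2 (1+2s)`, `tt = s^2 (3-2s)`, `tt' = 6 s (1-s)`. -/
def DerivStmt : Prop := ∀ (V C : Type) [Fintype V] [Fintype C] (H : SimpleGraph V)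
  (φ ψ : V → C → ℝ) (v : V) (z : C), Good H φ → Good H ψ →
  (∀ s, 0 ≤ s → s ≤ 1 → Good H (Phi φ ψ s)) ∧
  ContinuousOn (fun s => mg H (Phi φ ψ s) v z) (Set.Icc 0 1) ∧
  (∀ s, 0 < s → s < 1 → HasDerivAt (fun s => mg H (Phi φ ψ s) v z)
    (mg H (Phi φ ψ s) v z * (cEx H (Phi φ ψ s) v z (fun f => ∑ u, hh φ ψ s u (f u)) -
      Ex H (Phi φ ψ s) (fun f => ∑ u, hh φ ψ s u (f u)))) s) ∧
  (∀ s, 0 < s → s < 1 → ∀ u, ∑ c, Phi φ ψ s u c * (hh φ ψ s u c) ^ 2 ≤
    36 * (Fintype.card C : ℝ)) ∧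
  Phi φ ψ 0 = φ ∧ Phi φ ψ 1 = ψ

/-- File Ssm.lean, from `ThmBStmt`, `DerivStmt`, `BasicStmt`. Strong spatial mixing. Proof: mean
value inequality for `s ↦ mg H (Phi φ ψ s) v z`. The derivative is
`mg z * ∑ c, mg c * (cEx z F - cEx c F)` (`Ex F = ∑ mg c * cEx c F`), only `c` with
`Phi v c > 0` count (`mg c ≤ ...`, zero otherwise), so `ThmBStmt` with `M = 36 q` applies
(`hh u = 0` if `φ u = ψ u`). If `Phi v z = 0` then `mg z = 0`. -/
def SsmStmt : Prop := ∀ (V C : Type) [Fintype V] [Fintype C] (H : SimpleGraph V)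
  (φ ψ : V → C → ℝ) (v : V) (z : C) (k : ℕ), 1 ≤ k → H.IsAcyclic → Good H φ → Good H ψ →
  (∀ u, near H v k u → φ u = ψ u) →
  |mg H φ v z - mg H ψ v z| ≤ err (Fintype.card C) (k - 1)

/-! ## 4. Pinned colourings -/

/-- File Pin.lean, from `GreedyStmt`. Proof of `wt = 1 or 0`: for proper `p`, `f` is proper for
`cut G T` and has weight `1` iff `f = p` on `T`, `f u ≠ p w` for `u ∉ T`, `w ∈ T` adjacent, and
`f` is proper on the edges outside `T`. Slack: `∑ c, lst u c = q - |p(N(u) ∩ T)|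
≥ q - |N(u) ∩ T| ≥ dg (cut G T) u + 2` for `u ∉ T`; `u ∈ T` is isolated with `∑ = 1`. -/
def PinStmt : Prop := ∀ (V C : Type) [Fintype V] [Fintype C] (G : SimpleGraph V)
  (T : Finset V) (p : V → C), (∀ v, dg G v + 2 ≤ Fintype.card C) → p ∈ PC G C →
  Good (cut G T) (lst G T p) ∧
  (∀ f, wt (cut G T) (lst G T p) f = if f ∈ Om G T p then 1 else 0) ∧
  (∀ w c, pr G T p w c = mg (cut G T) (lst G T p) w c) ∧
  (∀ v w c, ∀ pa ∈ Om G T p, v ∉ T → pr G (insert v T) pa w c =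
    cEx (cut G T) (lst G T p) v (pa v) (fun f => if f w = c then 1 else 0)) ∧
  (∀ v, ∀ pa ∈ Om G T p, v ∉ T → 0 < lst G T p v (pa v))

/-- File PinTid.lean, from `ThmBStmt`, `PinStmt`, `BasicStmt`. Proof: `h w c = ±1` the sign of
`pr pa w c - pr pb w c` for `w` not near `v`, zero for the other `w`; then the left side is
`cEx (pa v) F - cEx (pb v) F`, `F = ∑ w, h w (f w)`, for the instance `(cut G T, lst G T p)`,
`M = q ≤ 36 q` (`lst ≤ 1`). `near (cut G T) v s w → near G v s w`. -/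
def PinTidStmt : Prop := ∀ (V C : Type) [Fintype V] [Fintype C] (G : SimpleGraph V)
  (T : Finset V) (v : V) (p pa pb : V → C) (s : ℕ), 1 ≤ s → (∀ v, dg G v + 2 ≤ Fintype.card C) →
  p ∈ PC G C → pa ∈ Om G T p → pb ∈ Om G T p → v ∉ T → (cut G T).IsAcyclic →
  ∑ w ∈ univ.filter (fun w => ¬ near G v s w), ∑ c,
    |pr G (insert v T) pa w c - pr G (insert v T) pb w c| ≤ err (Fintype.card C) (s - 1)

/-- File PinSsm.lean, from `SsmStmt`, `PinStmt`. Strong spatial mixing for pinned colourings.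
Proof: `W = {u | (near G w r u ∧ u ∈ T) ∨ ¬ near G w r u}`. Then `T ⊆ W`, `T' ⊆ W`, and
`pr G T p w c` is the mean over `p1 ∈ Om G T p` of `pr G W p1 w c` (tower), similarly for `T'`.
So it is enough to compare `pr G W p1 w c` and `pr G W p2 w c`, `p1 ∈ Om G T p`,
`p2 ∈ Om G T' p'`. Use `PinStmt` and `SsmStmt` with `H = cut G W` (a subgraph of `cut G T`, so
acyclic) and `k = r - 1`: if `near H w (r-1) u` then `lst G W p1 u = lst G W p2 u`: if `u ∈ W`
then `u` is isolated in `H`, so `u = w ∈ T` and `p1 w = p w = p' w = p2 w`; if `u ∉ W` the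
neighbours `x ∈ W` of `u` satisfy `near G w r x`, so `x ∈ T` and `p1 x = p2 x`. -/
def PinSsmStmt : Prop := ∀ (V C : Type) [Fintype V] [Fintype C] (G : SimpleGraph V)
  (T T' : Finset V) (p p' : V → C) (w : V) (c : C) (r : ℕ), 2 ≤ r →
  (∀ v, dg G v + 2 ≤ Fintype.card C) → p ∈ PC G C → p' ∈ PC G C →
  (cut G T).IsAcyclic → (cut G T').IsAcyclic →
  (∀ u, near G w r u → (u ∈ T ↔ u ∈ T') ∧ (u ∈ T → p u = p' u)) →
  |pr G T p w c - pr G T' p' w c| ≤ err (Fintype.card C) (r - 2)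

/-- File Tv.lean. Contraction of total variation. Proof: let `m = ∑ x⁺ = ∑ x⁻ = (1/2) ∑ |x|`. If
`m = 0` both sides are zero. Otherwise `∑_d x_d R_d = (1/m) ∑_{d,d'} x⁺_d x⁻_{d'} (R_d - R_{d'})`. -/
def TvStmt : Prop := ∀ (D E : Type) [Fintype D] [Fintype E] (x : D → ℝ) (R : D → E → ℝ) (ρ : ℝ),
  ∑ d, x d = 0 → (∀ d d', x d ≠ 0 → x d' ≠ 0 → ∑ e, |R d e - R d' e| ≤ ρ) →
  ∑ e, |∑ d, x d * R d e| ≤ ρ * ((1 / 2) * ∑ d, |x d|)

/-- File Chain.lean, from `TvStmt`, `IndepStmt`, `PinStmt`. Influences multiply along a separating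
vertex. Proof: for `pa ∈ Om G T p`, `P_a = pr G (insert v T) pa`:
`P_a(w=c) = ∑_d P_a(x=d) R_d(c)`, `R_d(c) = pr G (insert x T) p_d w c` where `p_d ∈ Om G T p` is
any element with `p_d x = d` (`0` if there is none): the conditional law of `f w` given
`f = pa` on `T ∪ {v}` and `f x = d` is `pr G (insert x (insert v T)) p_d w`, and it does not depend
on the pinning of `v` since in `cut G (insert x T)` the vertices `v`, `w` are in different
components (`IndepStmt` with `H = cut G (insert x T)`, `φ = lst G (insert x T) p_d`,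
`A` the component of `v`). Subtract for `pa`, `pb` and use `TvStmt`. (If `x ∈ T` or `v = x` or
`x = w` the claim is simple or excluded.) `infl` is a supremum over a finite nonempty set, the
value `del` of each pair is at most `infl` (`le_ciSup`). -/
def ChainStmt : Prop := ∀ (V C : Type) [Fintype V] [Fintype C] (G : SimpleGraph V)
  (T : Finset V) (p : V → C) (v x w : V), (∀ v, dg G v + 2 ≤ Fintype.card C) → p ∈ PC G C →
  v ∉ T → v ≠ x → w ≠ x → ¬ (cut G (insert x T)).Reachable v w →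
  infl G T p v w ≤ infl G T p v x * infl G T p x w

/-- File InflBasic.lean, from `PinStmt` (or directly). Simple facts. `infl ≤ 1` as `del ≤ 1`;
`infl = 0` if `w ∈ T` (all laws are the point mass at `p w`) and if `v ∈ T`
(`Om G (insert v T) pa = Om G T p` for all `pa ∈ Om G T p`). -/
def InflStmt : Prop := ∀ (V C : Type) [Fintype V] [Fintype C] (G : SimpleGraph V)
  (T : Finset V) (p : V → C) (v w : V), (∀ v, dg G v + 2 ≤ Fintype.card C) → p ∈ PC G C →
  0 ≤ infl G T p v w ∧ infl G T p v w ≤ 1 ∧ (w ∈ T → infl G T p v w = 0) ∧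
  (v ∈ T → infl G T p v w = 0) ∧
  (∀ pa ∈ Om G T p, ∀ pb ∈ Om G T p, del G T v w pa pb ≤ infl G T p v w)

/-! ## 5. Families of pinnings -/

/-- File Count.lean. At most `q^k` vertices at distance less than `k` if all degrees are at most
`q - 2`. Proof: induction on `k`; `near G v (k+1) u` iff `u = v` or `near G x k u` for a neighbour
`x` of `v`: `1 + (q-2) q^k ≤ q^(k+1)`; `k = 0`: empty. -/
def CountStmt : Prop := ∀ (V : Type) [Fintype V] (G : SimpleGraph V) (q : ℕ),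
  (∀ v, dg G v + 2 ≤ q) → ∀ (v : V) (k : ℕ),
  ((univ.filter (fun u => near G v k u)).card : ℝ) ≤ (q : ℝ) ^ k

/-- A family of pinnings `(T w, p w)`, one for each vertex `w` of the sphere of radius `R` around
`v0`; they agree at distance less than `R` from `v0`, and all contain `B` (outside of `B` the
graph is a forest). -/
structure Fam {V C : Type} [Fintype V] [Fintype C] (G : SimpleGraph V) (B : Finset V) (v0 : V)
    (R : ℕ) (T : V → Finset V) (p : V → (V → C)) : Prop where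
  pc : ∀ w ∈ sph G v0 R, p w ∈ PC G C
  sub : ∀ w ∈ sph G v0 R, B ⊆ T w
  v0mem : ∀ w ∈ sph G v0 R, v0 ∉ T w
  agree : ∀ w ∈ sph G v0 R, ∀ w' ∈ sph G v0 R, ∀ u, near G v0 R u →
    (u ∈ T w ↔ u ∈ T w') ∧ (u ∈ T w → p w u = p w' u)

/-- File OneLevel.lean, from `PinTidStmt`, `PinSsmStmt`, `GreedyStmt`, `PinStmt`, `CountStmt`,
`InflStmt`. Let `x` be at distance `j` of `v0` and `j + s + r ≤ R`, and let for each `y` in a set
`Y` of vertices at distance exactly `s` from `x` a member `ω y` of the sphere of radius `R` be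
given. Then the sum of the influences of `x` on `y` in the instances `ω y` is small.
Proof: if `Y` is empty trivial; fix `ω0 = ω y0`. If `x ∈ T ω0` (hence in all `T (ω y)`, by
`agree` as `near G v0 R x`): then `del = 0` for all pairs: `Om G (insert x T) pa = Om G T p`, all
the influences are zero. Otherwise, for colours `a`, `b` let `pa, pb ∈ Om G (T ω0) (p ω0)` with
values `a`, `b` at `x` if they exist. `PinTidStmt`: `∑_{y ∈ Y} ∑_c |pr G (insert x T0) pa y c -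
pr G (insert x T0) pb y c| ≤ err (s-1)`. For `y ∈ Y` and `pa', pb' ∈ Om G (T (ω y)) (p (ω y))`
there are `pa, pb ∈ Om G T0 p0` with the same colours at `x` (`GreedyStmt`: the pinned neighbours
of `x` have the same colours in both instances as `near G v0 R`), and by `PinSsmStmt` at `y` with
radius `r` (`near G y r u → near G v0 R u` since `j + s + r ≤ R`):
`|pr G (insert x (T (ω y))) pa' y c - pr G (insert x T0) pa y c| ≤ err (r-2)`. Hence
`infl (ω y) x y ≤ ∑_{a,b} (1/2) ∑_c |pr.. pa y c - pr.. pb y c| + q err(r-2)`; sum over `y`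
(`card Y ≤ q^(s+1)`). -/
def OneLevelStmt : Prop := ∀ (V C : Type) [Fintype V] [Fintype C] (G : SimpleGraph V)
  (B : Finset V) (v0 : V) (R : ℕ) (T : V → Finset V) (p : V → (V → C)),
  (∀ v, dg G v + 2 ≤ Fintype.card C) → (cut G B).IsAcyclic → Fam G B v0 R T p →
  ∀ (x : V) (j s r : ℕ), 1 ≤ s → 2 ≤ r → j + s + r ≤ R → near G v0 (j + 1) x →
  ∀ (Y : Finset V) (ω : V → V), (∀ y ∈ Y, ω y ∈ sph G v0 R ∧ near G x (s + 1) y ∧
    ¬ near G x s y) →
  ∑ y ∈ Y, infl G (T (ω y)) (p (ω y)) x y ≤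
    (Fintype.card C : ℝ) ^ 2 * err (Fintype.card C) (s - 1) +
      (Fintype.card C : ℝ) ^ (s + 2) * err (Fintype.card C) (r - 2)

/-- File Sphere.lean, from `OneLevelStmt`, `ChainStmt`, `CountStmt`, `InflStmt`. Here
`ε = q^2 err(s-1) + q^(s+2) err(r-2) ≤ 1/2`, `R = J s + r`, and no vertex of `B` is at distance
`≤ R` of `v0`. Claim: `∑_{w ∈ sph G v0 R} infl (T w) (p w) v0 w ≤ 2^{-J} q^(r+1)`.
Proof: for `x` at distance exactly `j s` from `v0` let `D x = {w ∈ sph G v0 R | near G x (R - js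
+ 1) w}` (descendants) and `E x = ∑_{w ∈ D x} infl (T w) (p w) x w`. Show by induction on
`J - j`: `E x ≤ 2^{-(J-j)} q^(r+1)` for all `j ≤ J` and all `x ∈ sph G v0 (j s)`. For `j = J`:
`infl ≤ 1` and `card (D x) ≤ q^(r+1)` by `CountStmt`. Step `j → j+1 ≤ J`: every `w ∈ D x` has a
walk of length `R - js` from `x`; let `y` be its vertex after `s` steps; then
`y ∈ sph G v0 ((j+1)s)`, `near G x (s+1) y`, `¬ near G x s y`, `w ∈ D y` (all distances are
forced, `dist(v0,w) = R`). Moreover `y ≠ x`, `y ≠ w`, and `x`, `w` are not joined in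
`cut G (insert y (T w))`: the walk `x → y → w` has length `R - js = dist(x,w)`, is a path in
`cut G B` (its vertices have distance `≤ R` from `v0`, not in `B`), `cut G B` is a forest, so
every path from `x` to `w` in `cut G B` goes through `y`. By `ChainStmt`
`infl x w ≤ infl x y * infl y w` (all in the instance `w`; if `x ∈ T w` then `infl x w = 0`).
So `E x ≤ ∑_y ∑_{w ∈ D y} infl_w(x,y) infl_w(y,w) ≤ ∑_y infl_{ω y}(x,y) E y`, `ω y ∈ D y` a
maximiser of `w ↦ infl_w(x,y)`, sum over the `y` with `D y` nonempty; use `OneLevelStmt` with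
`j s + s + r ≤ R` and the induction hypothesis. Finally `j = 0`, `x = v0`, `D v0 = sph`. -/
def SphereStmt : Prop := ∀ (V C : Type) [Fintype V] [Fintype C] (G : SimpleGraph V)
  (B : Finset V) (v0 : V) (J s r : ℕ) (T : V → Finset V) (p : V → (V → C)),
  (∀ v, dg G v + 2 ≤ Fintype.card C) → (cut G B).IsAcyclic →
  1 ≤ s → 2 ≤ r →
  (Fintype.card C : ℝ) ^ 2 * err (Fintype.card C) (s - 1) +
      (Fintype.card C : ℝ) ^ (s + 2) * err (Fintype.card C) (r - 2) ≤ 1 / 2 →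
  (∀ u ∈ B, ¬ near G v0 (J * s + r + 1) u) →
  Fam G B v0 (J * s + r) T p →
  ∑ w ∈ sph G v0 (J * s + r), infl G (T w) (p w) v0 w ≤
    (1 / 2) ^ J * (Fintype.card C : ℝ) ^ (r + 1)

/-! ## 6. Graphs of large girth -/

/-- File Girth.lean. The ball of radius `k` of a graph without cycles of length at most `2k+2`
is a forest. Proof: let `c` be a cycle in `cut G Bᶜ`; let `x` be a vertex of `c` with the largest
distance `d ≤ k` from `v` and `y ≠ z` its two neighbours on `c`. Shortest paths `P`, `Q` of `G`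
from `v` to `y` and to `z` have length `≤ d` and avoid `x` (otherwise the distance of `y` would be
at least `d + 1`). So `P + yx` and `Q + zx` are two different paths from `v` to `x` of length
`≤ k + 1`. The subgraph with the edges of these two paths is not acyclic
(`SimpleGraph.isAcyclic_iff_path_unique`), so it contains a cycle; its edges are distinct, so its
length is at most `2k + 2`; it is a cycle of `G`. -/
def GirthStmt : Prop := ∀ (V : Type) [Fintype V] (G : SimpleGraph V) (k : ℕ) (v : V),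
  (∀ (u : V) (c : G.Walk u u), c.IsCycle → 2 * k + 2 < c.length) →
  (cut G (univ.filter (fun u => ¬ near G v (k + 1) u))).IsAcyclic

/-- File Reveal.lean, from `TvStmt`, `GreedyStmt`, `PinStmt`. Revealing one vertex. `Γ` bounds the
total influence in all instances with more pinned vertices. Proof: `P_a = pr G (insert v T) pa`,
and for `d` with `P_a(w=d) > 0` let `p_{a,d} ∈ Om G (insert v T) pa` have colour `d` at `w`;
the set of such `d` is the same for `a` and `b` (`w` is not adjacent to `v`; `GreedyStmt`).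
`P_a(u=c) = ∑_d P_a(w=d) pr G (insert w (insert v T)) p_{a,d} u c`. Hence
`P_a(u=c) - P_b(u=c) = ∑_d (P_a - P_b)(w=d) R_{a,d}(u,c)
 + ∑_d P_b(w=d) (R_{a,d} - R_{b,d})(u,c)`. The first sum contributes at most
`del G T v w pa pb * Γ` by `TvStmt` with `E = V × C` and the hypothesis for
`insert v T`, `w`; the second at most the maximum over `d` of
`tot G (insert w T) v p_{a,d} p_{b,d}`. -/
def RevealStmt : Prop := ∀ (V C : Type) [Fintype V] [Fintype C] (G : SimpleGraph V)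
  (T : Finset V) (v w : V) (pa pb : V → C) (Γ : ℝ), (∀ v, dg G v + 2 ≤ Fintype.card C) →
  v ∉ T → w ∉ T → v ≠ w → ¬ G.Adj v w → pa ∈ PC G C → pb ∈ Om G T pa →
  (∀ p1 ∈ PC G C, ∀ p2 ∈ Om G (insert v T) p1, tot G (insert v T) w p1 p2 ≤ Γ) →
  ∃ pa' ∈ Om G (insert v T) pa, ∃ pb' ∈ Om G (insert v T) pb, pb' ∈ Om G (insert w T) pa' ∧
    tot G T v pa pb ≤ del G T v w pa pb * Γ + tot G (insert w T) v pa' pb'

/-- File RevealAll.lean, from `RevealStmt`, `InflStmt`. Revealing the vertices of a set `S` one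
after the other. `TT w` is the set pinned when `w` is revealed. Proof: induction on `S` (or on a
list of its elements), `RevealStmt` in each step. -/
def RevealAllStmt : Prop := ∀ (V C : Type) [Fintype V] [Fintype C] (G : SimpleGraph V)
  (v : V) (Γ : ℝ) (S : Finset V) (T : Finset V) (pa pb : V → C),
  (∀ v, dg G v + 2 ≤ Fintype.card C) → v ∉ T → (∀ w ∈ S, w ∉ T ∧ w ≠ v ∧ ¬ G.Adj v w) →
  pa ∈ PC G C → pb ∈ Om G T pa →
  (∀ T' : Finset V, T ⊆ T' → v ∉ T' → ∀ w, w ∉ T' → w ≠ v → ∀ p1 ∈ PC G C,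
    ∀ p2 ∈ Om G (insert v T') p1, tot G (insert v T') w p1 p2 ≤ Γ) →
  ∃ (TT : V → Finset V) (qa qb : V → (V → C)) (ra rb : V → C),
    (∀ w ∈ S, T ⊆ TT w ∧ TT w ⊆ T ∪ S ∧ qa w ∈ Om G (insert v T) pa ∧
      qb w ∈ Om G (insert v T) pb ∧ qb w ∈ Om G (TT w) (qa w)) ∧
    ra ∈ Om G (insert v T) pa ∧ rb ∈ Om G (insert v T) pb ∧ rb ∈ Om G (T ∪ S) ra ∧
    tot G T v pa pb ≤ (∑ w ∈ S, del G (TT w) v w (qa w) (qb w)) * Γ + tot G (T ∪ S) v ra rb

/-- File Far.lean, from `PinStmt`, `IndepStmt` (or directly). If the sphere of radius `R` is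
pinned, `v` has no influence outside the ball, so the total influence is at most twice the number
of vertices at distance less than `R`. Proof: for `u` with `¬ near G v R u`: if `u ∈ T` the
difference is `0`; otherwise `u` and `v` are in different components of `cut G T` (every walk from
`v` to `u` meets the sphere) and `pr G (insert v T) pa u c` does not depend on `pa v`:
in `IndepStmt` take `H = cut G T`, `φ = lst G T pa`, `A` the component of `v`. -/
def FarStmt : Prop := ∀ (V C : Type) [Fintype V] [Fintype C] (G : SimpleGraph V)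
  (T : Finset V) (v : V) (R : ℕ) (pa pb : V → C), (∀ v, dg G v + 2 ≤ Fintype.card C) →
  v ∉ T → pa ∈ PC G C → pb ∈ Om G T pa → sph G v R ⊆ T → 1 ≤ R →
  tot G T v pa pb ≤ 2 * ((univ.filter (fun u => near G v R u)).card : ℝ)

/-- File DelTree.lean, from `PinSsmStmt`, `GreedyStmt`, `InflStmt`. Comparison of the influence in
`G` with the influence when everything at distance `≥ R + r' + 1` of `v` is pinned too
(`B` is the set of these vertices, outside of `B` the graph is a forest). Proof: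
`pr G (insert v T) pa w c` is a mean over `p1 ∈ Om G (insert v T) pa` of
`pr G (insert v (T ∪ B)) p1 w c` (tower), and by `PinSsmStmt` (for `w` and radius `r'`;
`near G w r' u → u ∉ B`) each of these differs from
`pr G (insert v (T ∪ B)) pa w c` by at most `err (r'-2)`. Similarly for `pb`. By `GreedyStmt`
there is a proper `pb'` with `pb' = pa` on `T ∪ B` and `pb' v = pb v` (the neighbours of `v` are
not in `B`), and
`pr G (insert v (T ∪ B)) pb w c`, `pr G (insert v (T ∪ B)) pb' w c` differ by at most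
`err (r'-2)` too. Sum over `c`. -/
def DelTreeStmt : Prop := ∀ (V C : Type) [Fintype V] [Fintype C] (G : SimpleGraph V)
  (B T : Finset V) (v w : V) (R r' : ℕ) (pa pb : V → C), (∀ v, dg G v + 2 ≤ Fintype.card C) →
  2 ≤ r' → 1 ≤ R → B = univ.filter (fun u => ¬ near G v (R + r' + 1) u) → (cut G B).IsAcyclic →
  v ∉ T → pa ∈ PC G C → pb ∈ Om G T pa → w ∈ sph G v R →
  del G T v w pa pb ≤ infl G (T ∪ B) pa v w +
    2 * (Fintype.card C : ℝ) * err (Fintype.card C) (r' - 2)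

/-- File Const.lean. Choice of the constants. `err q k → 0` as `k → ∞`
(`0 < 1 - 1/(40q) < 1` for `q ≥ 1`). -/
def ConstStmt : Prop := ∀ q : ℕ, 1 ≤ q → ∃ s r J r' : ℕ, 1 ≤ s ∧ 2 ≤ r ∧ 2 ≤ r' ∧ 2 ≤ J * s + r ∧
  (q : ℝ) ^ 2 * err q (s - 1) + (q : ℝ) ^ (s + 2) * err q (r - 2) ≤ 1 / 2 ∧
  (1 / 2) ^ J * (q : ℝ) ^ (r + 1) ≤ 1 / 8 ∧
  (q : ℝ) ^ (J * s + r + 1) * (2 * q * err q (r' - 2)) ≤ 1 / 8

/-- File Tot.lean, from `ConstStmt`, `SphereStmt`, `RevealAllStmt`, `FarStmt`, `DelTreeStmt`,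
`GirthStmt`, `CountStmt`. Total influence in graphs of large girth. Proof: constants from
`ConstStmt`, `R = J s + r`, `g = 2 (R + r') + 2`, `Γ = 4 q^(R+1)`. Strong induction on the number
of vertices outside `T`. `B = {u | ¬ near G v (R + r' + 1) u}`, `cut G B` is a forest by
`GirthStmt`. `S = sph G v R \ T`: its elements are not adjacent to `v` (`R ≥ 2`).
`RevealAllStmt` (the hypothesis holds by induction, `insert v T'` is larger than `T`):
`tot G T v pa pb ≤ (∑_{w ∈ S} del G (TT w) v w (qa w) (qb w)) Γ + tot G (T ∪ S) v ra rb`. The last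
term is at most `2 q^R` by `FarStmt`, `CountStmt`. By `DelTreeStmt`
`del G (TT w) v w (qa w) (qb w) ≤ infl G (TT w ∪ B) (qa w) v w + 2 q err(r'-2)`, and
`∑_{w ∈ S} ≤ (1/2)^J q^(r+1) + q^(R+1) 2 q err(r'-2) ≤ 1/4` by `SphereStmt` for the family
`w ↦ (TT w ∪ B, qa w)` for `w ∈ S`, `w ↦ (T ∪ B, pa)` for `w ∈ sph G v R ∩ T`
(they agree at distance less than `R`: there `TT w` is `T` because `S` is on the sphere, `B` is
outside, and `qa w = pa` on `T`). Total `≤ Γ/4 + 2 q^R ≤ Γ`. -/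
def TotStmt : Prop := ∀ q : ℕ, ∃ (g : ℕ) (Γ : ℝ), 0 ≤ Γ ∧
  ∀ (V C : Type) [Fintype V] [Fintype C] (G : SimpleGraph V), Fintype.card C = q →
  (∀ v, dg G v + 2 ≤ Fintype.card C) → (∀ (u : V) (c : G.Walk u u), c.IsCycle → g < c.length) →
  ∀ (T : Finset V) (v : V) (pa pb : V → C), v ∉ T → pa ∈ PC G C → pb ∈ Om G T pa →
  tot G T v pa pb ≤ Γ

/-- File Final.lean, from `TotStmt` and `mixing_of_si`, `si_of_influence` (folder `Mix`). The
mixing time of Glauber dynamics with `q ≥ Δ + 2` colours on graphs of girth more than `g(q)` is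
polynomial. Proof: for `A = Om G W p`, `v ∉ W`, colours `a`, `b` attained at `v` by
`pa, pb ∈ A`: `cp A v a u c = pr G (insert v W) pa u c` (`A.filter (f v = a) =
Om G (insert v W) pa`), so the hypothesis of `si_of_influence` holds with the constant of
`TotStmt`. -/
def FinalStmt : Prop := ∀ q : ℕ, ∃ g A b : ℕ,
  ∀ (V : Type) [Fintype V] [Nonempty V] (G : SimpleGraph V),
  (∀ v, (univ.filter (fun u => G.Adj v u)).card + 2 ≤ q) →
  (∀ (u : V) (c : G.Walk u u), c.IsCycle → g < c.length) →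
  ∀ (t : ℕ), A * (Fintype.card V + 1) ^ b ≤ t →
  ∀ f0 : {f : V → Fin q // f ∈ PC G (Fin q)}, tvd G (Fin q) t f0 ≤ 1 / 4

end Pool.Agent.KempeLG
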