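import Pool.Agent.Lib.MP_26a019_lc.LG.Spec

set_option autoImplicit false
set_option linter.unusedSectionVars false

open Finset Classical Pool.Agent.Kempe Pool.Agent.KempeMix

namespace Pool.Agent.KempeLG

namespace SphereAux

variable {V : Type}

theorem near_mono {H : SimpleGraph V} {v u : V} {k l : ℕ} (h : near H v k u) (hkl : k ≤ l) :
    near H v l u := by
  obtain ⟨w, hw⟩ := h
  exact ⟨w, by omega⟩

theorem near_self (H : SimpleGraph V) (v : V) {k : ℕ} (hk : 0 < k) : near H v k v :=
  ⟨SimpleGraph.Walk.nil, by simpa using hk⟩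

theorem near_trans {H : SimpleGraph V} {u v w : V} {a b : ℕ} (h1 : near H u (a + 1) v)
    (h2 : near H v (b + 1) w) : near H u (a + b + 1) w := by
  obtain ⟨p, hp⟩ := h1
  obtain ⟨q, hq⟩ := h2
  exact ⟨p.append q, by rw [SimpleGraph.Walk.length_append]; omega⟩

theorem near_trans' {H : SimpleGraph V} {u v w : V} {a b : ℕ} (h1 : near H u a v)
    (h2 : near H v (b + 1) w) : near H u (a + b) w := by
  obtain ⟨p, hp⟩ := h1
  obtain ⟨q, hq⟩ := h2
  exact ⟨p.append q, by rw [SimpleGraph.Walk.length_append]; omega⟩

theorem near_trans'' {H : SimpleGraph V} {u v w : V} {a b : ℕ} (h1 : near H u (a + 1) v)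
    (h2 : near H v b w) : near H u (a + b) w := by
  obtain ⟨p, hp⟩ := h1
  obtain ⟨q, hq⟩ := h2
  exact ⟨p.append q, by rw [SimpleGraph.Walk.length_append]; omega⟩

/-- vertices of a walk in `cut G S` which starts outside `S` are not in `S` -/
theorem support_cut {G : SimpleGraph V} {S : Finset V} {x w : V} (q : (cut G S).Walk x w)
    (hx : x ∉ S) : ∀ z ∈ q.support, z ∉ S := by
  induction q with
  | nil =>
    intro z hz
    rw [SimpleGraph.Walk.support_nil, List.mem_singleton] at hz
    rw [hz]
    exact hx
  | cons h q ih =>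
    intro z hz
    rw [SimpleGraph.Walk.support_cons, List.mem_cons] at hz
    rcases hz with rfl | hz
    · exact hx
    · exact ih h.2.2 z hz

theorem cut_mono {G : SimpleGraph V} {S S' : Finset V} (h : S' ⊆ S) : cut G S ≤ cut G S' := by
  intro a b hab
  exact ⟨hab.1, fun ha => hab.2.1 (h ha), fun hb => hab.2.2 (h hb)⟩

theorem getVert_near {G : SimpleGraph V} {x w : V} (q : G.Walk x w) (i : ℕ) (hi : i ≤ q.length) :
    near G x (i + 1) (q.getVert i) :=
  ⟨q.take i, by rw [SimpleGraph.Walk.take_length]; omega⟩

theorem near_getVert {G : SimpleGraph V} {x w : V} (q : G.Walk x w) (i : ℕ)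
    (hi : i ≤ q.length) : near G (q.getVert i) (q.length - i + 1) w :=
  ⟨q.drop i, by rw [SimpleGraph.Walk.drop_length]; omega⟩

/-- A walk of `G` from `x` to `w` all of whose vertices are outside `B` is a walk of `cut G B`. -/
theorem walk_cut {G : SimpleGraph V} {B : Finset V} {x w : V} (q : G.Walk x w)
    (hq : ∀ z ∈ q.support, z ∉ B) :
    ∃ q' : (cut G B).Walk x w, q'.support = q.support := by
  induction q with
  | nil => exact ⟨SimpleGraph.Walk.nil, rfl⟩
  | cons h q ih =>
    rename_i a b c
    obtain ⟨q', hq'⟩ := ih (fun z hz => hq z (by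
      rw [SimpleGraph.Walk.support_cons]; exact List.mem_cons_of_mem _ hz))
    have ha : a ∉ B := hq a (by rw [SimpleGraph.Walk.support_cons]; exact List.mem_cons_self)
    have hb : b ∉ B := hq b (by
      rw [SimpleGraph.Walk.support_cons]
      exact List.mem_cons_of_mem _ (SimpleGraph.Walk.start_mem_support _))
    refine ⟨SimpleGraph.Walk.cons (show (cut G B).Adj a b from ⟨h, ha, hb⟩) q', ?_⟩
    rw [SimpleGraph.Walk.support_cons, SimpleGraph.Walk.support_cons, hq']

/-- The middle vertex. `x` at distance `d` from `v0`, `w` at distance `d + s + m`, joined by a walk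
of length at most `s + m`. -/
theorem middle {G : SimpleGraph V} {B : Finset V} {v0 x w : V} {d s m : ℕ}
    (hforest : (cut G B).IsAcyclic)
    (hfar : ∀ u ∈ B, ¬ near G v0 (d + s + m + 1) u)
    (hx : near G v0 (d + 1) x) (hw : ¬ near G v0 (d + s + m) w)
    (hxw : near G x (s + m + 1) w) (hs : 1 ≤ s) (hm : 1 ≤ m) :
    ∃ y, near G x (s + 1) y ∧ ¬ near G x s y ∧ near G y (m + 1) w ∧
      near G v0 (d + s + 1) y ∧ ¬ near G v0 (d + s) y ∧ y ≠ x ∧ y ≠ w ∧
      ∀ T : Finset V, B ⊆ T → x ∉ T → ¬ (cut G (insert y T)).Reachable x w := by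
  obtain ⟨q0, hq0⟩ := hxw
  have hq1 : q0.bypass.length ≤ q0.length := SimpleGraph.Walk.length_bypass_le q0
  have hpath : q0.bypass.IsPath := SimpleGraph.Walk.bypass_isPath q0
  generalize hq : q0.bypass = q at hq1 hpath
  have hlen : q.length = s + m := by
    by_contra hne
    have h1 : near G x (s + m) w := ⟨q, by omega⟩
    have h2 := near_trans'' (a := d) hx h1
    exact hw (near_mono h2 (by omega))
  have hy1 : near G x (s + 1) (q.getVert s) := getVert_near q s (by omega)
  have hy2 : near G (q.getVert s) (m + 1) w := by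
    have := near_getVert q s (by omega)
    rw [hlen] at this
    exact near_mono this (by omega)
  have hy3 : near G v0 (d + s + 1) (q.getVert s) := near_trans hx hy1
  have hy4 : ¬ near G v0 (d + s) (q.getVert s) := by
    intro h
    exact hw (near_mono (near_trans' h hy2) (by omega))
  have hy5 : ¬ near G x s (q.getVert s) := by
    intro h
    exact hy4 (near_trans'' hx h)
  refine ⟨q.getVert s, hy1, hy5, hy2, hy3, hy4, ?_, ?_, ?_⟩
  · intro h
    rw [h] at hy5
    exact hy5 (near_self G x (by omega))
  · intro h
    rw [h] at hy3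
    exact hw (near_mono hy3 (by omega))
  · intro T hBT hxT hreach
    have hxy : x ≠ q.getVert s := by
      intro h
      apply hy5
      rw [← h]
      exact near_self G x (by omega)
    have hsupp : ∀ z ∈ q.support, z ∉ B := by
      intro z hz hzB
      obtain ⟨i, hi, hi'⟩ := SimpleGraph.Walk.mem_support_iff_exists_getVert.1 hz
      have h1 := getVert_near q i hi'
      rw [hi] at h1
      exact hfar z hzB (near_mono (near_trans hx h1) (by omega))
    obtain ⟨q', hq'⟩ := walk_cut q hsupp
    have hq'path : q'.IsPath := by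
      rw [SimpleGraph.Walk.isPath_def, hq', ← SimpleGraph.Walk.isPath_def]
      exact hpath
    obtain ⟨r0⟩ := hreach
    have hr1 : r0.bypass.IsPath := SimpleGraph.Walk.bypass_isPath r0
    have hle : cut G (insert (q.getVert s) T) ≤ cut G B :=
      cut_mono (hBT.trans (subset_insert _ _))
    have hr2 : (r0.bypass.mapLe hle).IsPath := hr1.mapLe hle
    have heq : (⟨q', hq'path⟩ : (cut G B).Path x w) = ⟨r0.bypass.mapLe hle, hr2⟩ :=
      hforest.path_unique _ _
    have heq' : q' = r0.bypass.mapLe hle := congrArg Subtype.val heq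
    have hmem : q.getVert s ∈ q'.support := by
      rw [hq']
      exact SimpleGraph.Walk.getVert_mem_support q s
    rw [heq', SimpleGraph.Walk.support_mapLe_eq_support] at hmem
    have hx' : x ∉ insert (q.getVert s) T := by
      rw [mem_insert, not_or]
      exact ⟨hxy, hxT⟩
    exact support_cut r0.bypass hx' _ hmem (mem_insert_self _ _)

end SphereAux

open SphereAux

theorem sphere (h1 : OneLevelStmt) (h2 : ChainStmt) (h3 : CountStmt) (h4 : InflStmt) :
    SphereStmt := by
  intro V C _ _ G B v0 J s r T p hdeg hforest hs hr heps hfar hFam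
  set q : ℝ := (Fintype.card C : ℝ) with hq
  have hq0 : 0 ≤ q := Nat.cast_nonneg _
  set R := J * s + r with hR
  set I : V → V → V → ℝ := fun w x y => infl G (T w) (p w) x y with hI
  have hI0 : ∀ w ∈ sph G v0 R, ∀ x y, 0 ≤ I w x y := fun w hw x y =>
    (h4 V C G (T w) (p w) x y hdeg (hFam.pc w hw)).1
  have hI1 : ∀ w ∈ sph G v0 R, ∀ x y, I w x y ≤ 1 := fun w hw x y =>
    (h4 V C G (T w) (p w) x y hdeg (hFam.pc w hw)).2.1
  have hsph : ∀ {v : V} {k : ℕ} {u : V}, u ∈ sph G v k ↔ near G v (k + 1) u ∧ ¬ near G v k u := by
    intro v k u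
    unfold sph
    rw [mem_filter]
    simp only [mem_univ, true_and]
  -- the claim, by induction on the number of remaining levels
  have claim : ∀ n j : ℕ, j + n = J → ∀ x ∈ sph G v0 (j * s),
      ∑ w ∈ (sph G v0 R).filter (fun w => near G x (n * s + r + 1) w), I w x w ≤
        (1 / 2) ^ n * q ^ (r + 1) := by
    intro n
    induction n with
    | zero =>
      intro j hj x hx
      calc ∑ w ∈ (sph G v0 R).filter (fun w => near G x (0 * s + r + 1) w), I w x w
          ≤ ∑ w ∈ (sph G v0 R).filter (fun w => near G x (0 * s + r + 1) w), (1 : ℝ) :=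
            sum_le_sum (fun w hw => hI1 w (mem_filter.1 hw).1 x w)
        _ = (((sph G v0 R).filter (fun w => near G x (0 * s + r + 1) w)).card : ℝ) := by
            rw [sum_const, nsmul_eq_mul, mul_one]
        _ ≤ ((univ.filter (fun u => near G x (r + 1) u)).card : ℝ) := by
            have : (sph G v0 R).filter (fun w => near G x (0 * s + r + 1) w) ⊆
                univ.filter (fun u => near G x (r + 1) u) := by
              intro w hw
              rw [mem_filter] at hw ⊢
              refine ⟨mem_univ _, near_mono hw.2 (by omega)⟩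
            exact_mod_cast card_le_card this
        _ ≤ q ^ (r + 1) := h3 V G (Fintype.card C) hdeg x (r + 1)
        _ = (1 / 2) ^ 0 * q ^ (r + 1) := by ring
    | succ n ih =>
      intro j hj x hx
      rw [hsph] at hx
      set D := (sph G v0 R).filter (fun w => near G x ((n + 1) * s + r + 1) w) with hD
      have hRj : R = j * s + s + (n * s + r) := by
        rw [hR, ← hj]
        ring
      have hjs : (j + 1) * s = j * s + s := by ring
      have hns : (n + 1) * s + r = s + (n * s + r) := by ring
      have hmid : ∀ w ∈ D, ∃ y, near G x (s + 1) y ∧ ¬ near G x s y ∧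
          near G y (n * s + r + 1) w ∧ near G v0 (j * s + s + 1) y ∧ ¬ near G v0 (j * s + s) y ∧
          y ≠ x ∧ y ≠ w ∧ ∀ T : Finset V, B ⊆ T → x ∉ T →
            ¬ (cut G (insert y T)).Reachable x w := by
        intro w hw
        rw [hD, mem_filter, hsph] at hw
        refine middle hforest ?_ hx.1 ?_ ?_ hs (by omega)
        · intro u hu
          have := hfar u hu
          rw [hRj] at this
          exact this
        · have := hw.1.2
          rw [hRj] at this
          exact this
        · have := hw.2
          rw [hns] at this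
          exact this
      choose! yv hyv using hmid
      -- the influence of one member
      have hone : ∀ w ∈ D, I w x w ≤ I w x (yv w) * I w (yv w) w := by
        intro w hw
        have hwD := hw
        rw [hD, mem_filter] at hwD
        obtain ⟨_, _, _, _, _, hyx, hyw, hsep⟩ := hyv w hw
        by_cases hxT : x ∈ T w
        · have h0 : I w x w = 0 :=
            (h4 V C G (T w) (p w) x w hdeg (hFam.pc w hwD.1)).2.2.2.1 hxT
          rw [h0]
          exact mul_nonneg (hI0 w hwD.1 _ _) (hI0 w hwD.1 _ _)
        · exact h2 V C G (T w) (p w) x (yv w) w hdeg (hFam.pc w hwD.1) hxT (Ne.symm hyx)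
            (Ne.symm hyw) (hsep (T w) (hFam.sub w hwD.1) hxT)
      -- group by the middle vertex
      set Y := D.image yv with hY
      have hmax : ∀ y ∈ Y, ∃ ω ∈ D, yv ω = y ∧ ∀ w ∈ D, yv w = y → I w x y ≤ I ω x y := by
        intro y hy
        rw [hY, mem_image] at hy
        obtain ⟨w0, hw0, hw0y⟩ := hy
        have hne : (D.filter (fun w => yv w = y)).Nonempty :=
          ⟨w0, mem_filter.2 ⟨hw0, hw0y⟩⟩
        obtain ⟨ω, hω, hωmax⟩ := exists_max_image _ (fun w => I w x y) hne
        rw [mem_filter] at hω
        exact ⟨ω, hω.1, hω.2, fun w hw hwy => hωmax w (mem_filter.2 ⟨hw, hwy⟩)⟩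
      choose! ω hω using hmax
      have hlev : ∑ y ∈ Y, I (ω y) x y ≤ 1 / 2 := by
        refine le_trans ?_ heps
        refine h1 V C G B v0 R T p hdeg hforest hFam x (j * s) s r hs hr ?_ hx.1 Y ω ?_
        · rw [hRj]
          have : 0 ≤ n * s := Nat.zero_le _
          omega
        · intro y hy
          obtain ⟨hωD, hωy, _⟩ := hω y hy
          have hωD' := hωD
          rw [hD, mem_filter] at hωD'
          have := hyv (ω y) hωD
          rw [hωy] at this
          exact ⟨hωD'.1, this.1, this.2.1⟩
      calc ∑ w ∈ D, I w x w ≤ ∑ w ∈ D, I w x (yv w) * I w (yv w) w := sum_le_sum hone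
        _ = ∑ y ∈ Y, ∑ w ∈ D with yv w = y, I w x (yv w) * I w (yv w) w :=
            (sum_fiberwise_of_maps_to (fun w hw => mem_image_of_mem yv hw) _).symm
        _ ≤ ∑ y ∈ Y, I (ω y) x y * ((1 / 2) ^ n * q ^ (r + 1)) := by
            refine sum_le_sum (fun y hy => ?_)
            obtain ⟨hωD, hωy, hωmax⟩ := hω y hy
            have hωD' := hωD
            rw [hD, mem_filter] at hωD'
            have hyω := hyv (ω y) hωD
            rw [hωy] at hyω
            have hys : y ∈ sph G v0 ((j + 1) * s) := by
              rw [hsph, hjs]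
              exact ⟨hyω.2.2.2.1, hyω.2.2.2.2.1⟩
            have hEy := ih (j + 1) (by omega) y hys
            calc ∑ w ∈ D with yv w = y, I w x (yv w) * I w (yv w) w
                ≤ ∑ w ∈ D with yv w = y, I (ω y) x y * I w y w := by
                  refine sum_le_sum (fun w hw => ?_)
                  rw [mem_filter] at hw
                  have hwD := hw.1
                  rw [hD, mem_filter] at hwD
                  rw [hw.2]
                  exact mul_le_mul_of_nonneg_right (hωmax w hw.1 hw.2) (hI0 w hwD.1 _ _)
              _ = I (ω y) x y * ∑ w ∈ D with yv w = y, I w y w := by rw [mul_sum]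
              _ ≤ I (ω y) x y * ∑ w ∈ (sph G v0 R).filter
                    (fun w => near G y (n * s + r + 1) w), I w y w := by
                  refine mul_le_mul_of_nonneg_left ?_ (hI0 _ hωD'.1 _ _)
                  refine sum_le_sum_of_subset_of_nonneg ?_ ?_
                  · intro w hw
                    rw [mem_filter] at hw ⊢
                    have hwD := hw.1
                    rw [hD, mem_filter] at hwD
                    have := (hyv w hw.1).2.2.1
                    rw [hw.2] at this
                    exact ⟨hwD.1, this⟩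
                  · intro w hw _
                    exact hI0 w (mem_filter.1 hw).1 _ _
              _ ≤ I (ω y) x y * ((1 / 2) ^ n * q ^ (r + 1)) :=
                  mul_le_mul_of_nonneg_left hEy (hI0 _ hωD'.1 _ _)
        _ = (∑ y ∈ Y, I (ω y) x y) * ((1 / 2) ^ n * q ^ (r + 1)) := by rw [sum_mul]
        _ ≤ (1 / 2) * ((1 / 2) ^ n * q ^ (r + 1)) :=
            mul_le_mul_of_nonneg_right hlev (by positivity)
        _ = (1 / 2) ^ (n + 1) * q ^ (r + 1) := by ring
  have hfin := claim J 0 (by omega) v0 (by
    rw [hsph]
    refine ⟨near_self G v0 (by omega), ?_⟩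
    rintro ⟨w, hw⟩
    omega)
  refine le_trans (le_of_eq ?_) hfin
  refine sum_congr ?_ (fun _ _ => rfl)
  ext w
  rw [mem_filter, hsph]
  constructor
  · intro h
    exact ⟨h, h.1⟩
  · intro h
    exact h.1

end Pool.Agent.KempeLG
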