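import Pool.Agent.Lib.MP_26a019_lc.LG.Spec

set_option autoImplicit false

/-!
# Strong spatial mixing on forests with soft lists
-/

open Finset Classical

namespace Pool.Agent.KempeLG

open Pool.Agent.Kempe Pool.Agent.KempeMix

lemma ssm_mg_zero {V C : Type} [Fintype V] [Fintype C] (H : SimpleGraph V) (φ : V → C → ℝ)
    (v : V) (c : C) (h : φ v c = 0) : mg H φ v c = 0 := by
  unfold mg Ex
  have : ∑ f, wt H φ f * (if f v = c then (1 : ℝ) else 0) = 0 := by
    apply Finset.sum_eq_zero
    intro f _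
    by_cases hf : f v = c
    · unfold wt
      split_ifs with hp
      · rw [Finset.prod_eq_zero (Finset.mem_univ v) (by rw [hf, h]), zero_mul]
      · simp
    · simp [hf]
  rw [this, zero_div]

theorem ssm (h1 : ThmBStmt) (h2 : DerivStmt) (h3 : BasicStmt) : SsmStmt := by
  intro V C _ _ H φ ψ v z k hk hH hφ hψ hnear
  obtain ⟨hgood, hcont, hder, hbd, h0, h1'⟩ := h2 V C H φ ψ v z hφ hψ
  obtain ⟨s, ⟨hs0, hs1⟩, hs⟩ := exists_hasDerivAt_eq_slope
    (fun s => mg H (Phi φ ψ s) v z)
    (fun s => mg H (Phi φ ψ s) v z * (cEx H (Phi φ ψ s) v z (fun f => ∑ u, hh φ ψ s u (f u)) -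
      Ex H (Phi φ ψ s) (fun f => ∑ u, hh φ ψ s u (f u)))) (zero_lt_one) hcont
    (fun s hs => hder s hs.1 hs.2)
  simp only [h0, h1', sub_zero, div_one] at hs
  rw [abs_sub_comm, ← hs]
  have hG := hgood s hs0.le hs1.le
  obtain ⟨-, hmg0, hmg1, -, -, hEx⟩ := h3 V C H (Phi φ ψ s) hG
  set P := Phi φ ψ s with hP
  set F : (V → C) → ℝ := fun f => ∑ u, hh φ ψ s u (f u) with hF
  set q : ℝ := (Fintype.card C : ℝ) with hq
  have hq0 : 0 ≤ q := Nat.cast_nonneg _
  have herr : err (Fintype.card C) (k - 1) = Real.sqrt (4 * q ^ 2 *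
      ((1 - 1 / (40 * q)) ^ (k - 1) * (40 * q * (20 * q + 1) * (36 * q)))) := by
    unfold err
    congr 1
    ring
  have herr0 : 0 ≤ err (Fintype.card C) (k - 1) := Real.sqrt_nonneg _
  have hdiff : ∀ a b, 0 < P v a → 0 < P v b →
      |cEx H P v a F - cEx H P v b F| ≤ err (Fintype.card C) (k - 1) := by
    intro a b ha hb
    have := h1 V C H P v k (hh φ ψ s) (36 * q) a b hk (by positivity) hH hG ha hb
      (by
        intro u hu c
        unfold hh
        rw [hnear u hu]
        simp)
      (fun u => hbd s hs0 hs1 u)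
    rw [herr]
    exact Real.abs_le_sqrt this
  by_cases hz : P v z = 0
  · rw [ssm_mg_zero H P v z hz, zero_mul, abs_zero]
    exact herr0
  have hzpos : 0 < P v z := lt_of_le_of_ne (hG.nonneg v z) (Ne.symm hz)
  have hmgle : mg H P v z ≤ 1 := by
    rw [← hmg1 v]
    exact Finset.single_le_sum (f := fun c => mg H P v c) (fun c _ => hmg0 v c)
      (Finset.mem_univ z)
  have key : |cEx H P v z F - Ex H P F| ≤ err (Fintype.card C) (k - 1) := by
    have e : cEx H P v z F - Ex H P F =
        ∑ c, mg H P v c * (cEx H P v z F - cEx H P v c F) := by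
      rw [← hEx v F]
      simp_rw [mul_sub]
      rw [Finset.sum_sub_distrib, ← Finset.sum_mul, hmg1 v, one_mul]
    rw [e]
    calc |∑ c, mg H P v c * (cEx H P v z F - cEx H P v c F)|
        ≤ ∑ c, |mg H P v c * (cEx H P v z F - cEx H P v c F)| := Finset.abs_sum_le_sum_abs _ _
      _ ≤ ∑ c, mg H P v c * err (Fintype.card C) (k - 1) := by
          apply Finset.sum_le_sum
          intro c _
          rw [abs_mul, abs_of_nonneg (hmg0 v c)]
          by_cases hc : P v c = 0
          · rw [ssm_mg_zero H P v c hc]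
            simp
          · exact mul_le_mul_of_nonneg_left
              (hdiff z c hzpos (lt_of_le_of_ne (hG.nonneg v c) (Ne.symm hc))) (hmg0 v c)
      _ = err (Fintype.card C) (k - 1) := by
          rw [← Finset.sum_mul, hmg1 v, one_mul]
  rw [abs_mul, abs_of_nonneg (hmg0 v z)]
  calc mg H P v z * |cEx H P v z F - Ex H P F| ≤ 1 * err (Fintype.card C) (k - 1) :=
        mul_le_mul hmgle key (abs_nonneg _) zero_le_one
    _ = _ := one_mul _

end Pool.Agent.KempeLG
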