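import Pool.Agent.Lib.MP_26a019_lc.LG.Spec

set_option autoImplicit false

/-!
# Glauber dynamics with `Δ + 2` colours: elementary bounds of the root law
-/

open Finset Classical

namespace Pool.Agent.KempeLG

open Pool.Agent.Kempe Pool.Agent.KempeMix

namespace Third

theorem one_sub_sum_le {ι : Type} (s : Finset ι) (x : ι → ℝ) (h0 : ∀ i, 0 ≤ x i)
    (h1 : ∀ i, x i ≤ 1) : 1 - ∑ i ∈ s, x i ≤ ∏ i ∈ s, (1 - x i) := by
  induction s using Finset.induction_on with
  | empty => simp
  | insert a s ha ih =>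
    rw [Finset.sum_insert ha, Finset.prod_insert ha]
    have hs : 0 ≤ ∑ i ∈ s, x i := Finset.sum_nonneg fun i _ => h0 i
    have e1 : (1 - x a) * (1 - ∑ i ∈ s, x i) ≤ (1 - x a) * ∏ i ∈ s, (1 - x i) :=
      mul_le_mul_of_nonneg_left ih (by linarith [h1 a])
    nlinarith [mul_nonneg (h0 a) hs]

end Third

theorem third : ThirdStmt := by
  intro ι C _ _ p φ r hp0 hp1 hφ0 hφ1 hl hr
  have hp1' : ∀ i z, p i z ≤ 1 := by
    intro i z
    rw [← hp1 i]
    exact Finset.single_le_sum (fun c _ => hp0 i c) (Finset.mem_univ z)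
  set w : C → ℝ := fun z => φ z * ∏ i, (1 - p i z) with hw
  set s : C → ℝ := fun z => ∑ i, p i z with hs
  have hs0 : ∀ z, 0 ≤ s z := fun z => Finset.sum_nonneg fun i _ => hp0 i z
  have hprod0 : ∀ z, 0 ≤ ∏ i, (1 - p i z) := fun z =>
    Finset.prod_nonneg fun i _ => by linarith [hp1' i z]
  have hprod1 : ∀ z, ∏ i, (1 - p i z) ≤ 1 := fun z =>
    Finset.prod_le_one (fun i _ => by linarith [hp1' i z]) (fun i _ => by linarith [hp0 i z])
  have hw0 : ∀ z, 0 ≤ w z := fun z => mul_nonneg (hφ0 z) (hprod0 z)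
  have hwφ : ∀ z, w z ≤ φ z := fun z => by
    have := mul_le_mul_of_nonneg_left (hprod1 z) (hφ0 z)
    simpa [hw] using this
  have hlow : ∀ z, φ z - s z ≤ w z := by
    intro z
    have h1 := Third.one_sub_sum_le Finset.univ (fun i => p i z) (fun i => hp0 i z)
      (fun i => hp1' i z)
    have h2 : φ z * (1 - s z) ≤ w z := mul_le_mul_of_nonneg_left h1 (hφ0 z)
    have h3 : φ z * s z ≤ s z := by
      have := mul_le_mul_of_nonneg_right (hφ1 z) (hs0 z)
      linarith
    nlinarith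
  have hssum : ∑ z, s z = Fintype.card ι := by
    rw [hs, Finset.sum_comm]
    simp [hp1]
  have hZ3 : 3 ≤ ∑ z, w z := by
    have h1 : ∑ z, (φ z - s z) ≤ ∑ z, w z := Finset.sum_le_sum fun z _ => hlow z
    rw [Finset.sum_sub_distrib, hssum] at h1
    linarith
  have hZ : ∀ z, w z + 2 ≤ ∑ c, w c := by
    intro z
    have h1 : ∑ c ∈ Finset.univ.erase z, (φ c - s c) ≤ ∑ c ∈ Finset.univ.erase z, w c :=
      Finset.sum_le_sum fun c _ => hlow c
    have h2 : ∑ c, w c = w z + ∑ c ∈ Finset.univ.erase z, w c :=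
      (Finset.add_sum_erase Finset.univ w (Finset.mem_univ z)).symm
    have h3 : ∑ c, (φ c - s c) = (φ z - s z) + ∑ c ∈ Finset.univ.erase z, (φ c - s c) :=
      (Finset.add_sum_erase Finset.univ (fun c => φ c - s c) (Finset.mem_univ z)).symm
    rw [Finset.sum_sub_distrib, hssum] at h3
    have h4 := hφ1 z
    have h5 := hs0 z
    linarith
  have hZpos : 0 < ∑ c, w c := by linarith
  have hr' : ∀ z, r z = w z / ∑ c, w c := by
    intro z
    rw [eq_div_iff hZpos.ne']
    exact hr z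
  refine ⟨hZpos, ?_, ?_, ?_, ?_⟩
  · intro z
    rw [hr']
    exact div_nonneg (hw0 z) hZpos.le
  · intro z
    rw [hr', div_le_iff₀ hZpos]
    have := hZ z
    have := hwφ z
    have := hφ1 z
    linarith
  · simp_rw [hr']
    rw [← Finset.sum_div]
    exact div_self hZpos.ne'
  · intro z
    rw [hr', ← mul_div_assoc, div_le_iff₀ hZpos]
    have h1 := hwφ z
    have h2 := hφ0 z
    nlinarith

end Pool.Agent.KempeLG
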