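import Pool.Agent.Lib.MP_26a019_lc.LG.Spec

set_option autoImplicit false

/-!
# Glauber dynamics with `Δ + 2` colours on graphs of large girth: induction over the forest
-/

open Finset Classical

namespace Pool.Agent.KempeLG

open Pool.Agent.Kempe Pool.Agent.KempeMix

private theorem thmA_nrm_congr {C : Type} [Fintype C] (p F G : C → ℝ) (K0 : ℝ)
    (hp : ∀ z, 0 ≤ p z) (hs : ∑ z, p z = 1) (h : ∀ z, 0 < p z → F z = G z + K0) :
    nrm p F = nrm p G := by
  have h1 : ∀ z, p z * F z = p z * G z + p z * K0 := by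
    intro z
    rcases (hp z).eq_or_lt with h0 | h0
    · rw [← h0]; ring
    · rw [h z h0]; ring
  have h2 : ∑ c, p c * F c = ∑ c, p c * G c + K0 := by
    simp_rw [h1, Finset.sum_add_distrib, ← Finset.sum_mul, hs, one_mul]
  unfold nrm
  congr 1
  refine Finset.sum_congr rfl fun z _ => ?_
  rcases (hp z).eq_or_lt with h0 | h0
  · rw [← h0]; ring
  · rw [h z h0, h2]; ring

private theorem thmA_nrm_neg {C : Type} [Fintype C] (p F : C → ℝ) :
    nrm p (fun z => - F z) = nrm p F := by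
  unfold nrm
  congr 1
  have h2 : ∑ c, p c * -F c = - ∑ c, p c * F c := by
    rw [← Finset.sum_neg_distrib]
    exact Finset.sum_congr rfl fun z _ => by ring
  rw [h2]
  refine Finset.sum_congr rfl fun z _ => ?_
  ring

private theorem thmA_nrm_sub {C : Type} [Fintype C] (p F G : C → ℝ) (t : ℝ) (ht : 0 < t)
    (he : 0 ≤ eta (mx p)) (hp : ∀ z, 0 ≤ p z) :
    nrm p (fun z => F z - G z) ≤ (1 + 1 / t) * nrm p F + (1 + t) * nrm p G := by
  unfold nrm
  have h2 : ∑ c, p c * (F c - G c) = ∑ c, p c * F c - ∑ c, p c * G c := by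
    rw [← Finset.sum_sub_distrib]
    exact Finset.sum_congr rfl fun z _ => by ring
  rw [h2]
  set a := ∑ c, p c * F c
  set b := ∑ c, p c * G c
  have h3 : ∑ z, p z * (F z - G z - (a - b)) ^ 2
      ≤ (1 + 1 / t) * ∑ z, p z * (F z - a) ^ 2 + (1 + t) * ∑ z, p z * (G z - b) ^ 2 := by
    rw [Finset.mul_sum, Finset.mul_sum, ← Finset.sum_add_distrib]
    refine Finset.sum_le_sum fun z _ => ?_
    have h4 : (F z - G z - (a - b)) ^ 2 ≤ (1 + 1 / t) * (F z - a) ^ 2 + (1 + t) * (G z - b) ^ 2 := by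
      have h5 : (1 + 1 / t) * (F z - a) ^ 2 + (1 + t) * (G z - b) ^ 2 - (F z - G z - (a - b)) ^ 2
          = ((F z - a) + t * (G z - b)) ^ 2 / t := by
        field_simp
        ring
      have h6 : 0 ≤ ((F z - a) + t * (G z - b)) ^ 2 / t := by positivity
      linarith
    have := mul_le_mul_of_nonneg_left h4 (hp z)
    linarith
  have := mul_le_mul_of_nonneg_left h3 he
  linarith

private theorem thmA_nrm_le {C : Type} [Fintype C] (p F : C → ℝ) (he : 0 ≤ eta (mx p))
    (hs : ∑ z, p z = 1) : nrm p F ≤ eta (mx p) * ∑ z, p z * F z ^ 2 := by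
  unfold nrm
  apply mul_le_mul_of_nonneg_left _ he
  set a := ∑ c, p c * F c with ha
  have h1 : ∑ z, p z * (F z - a) ^ 2 = ∑ z, p z * F z ^ 2 - a ^ 2 := by
    have h2 : ∀ z, p z * (F z - a) ^ 2 = p z * F z ^ 2 - 2 * a * (p z * F z) + a ^ 2 * p z := by
      intro z; ring
    simp_rw [h2, Finset.sum_add_distrib, Finset.sum_sub_distrib, ← Finset.mul_sum, hs, ← ha]
    ring
  rw [h1]
  nlinarith [sq_nonneg a]

variable {V C : Type} [Fintype V] [Fintype C]

private theorem thmA_cut_le (H : SimpleGraph V) (T : Finset V) : cut H T ≤ H := by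
  intro u w h
  exact h.1

private theorem thmA_dg_le (H : SimpleGraph V) (T : Finset V) (u : V) :
    dg (cut H T) u ≤ dg H u := by
  unfold dg nb
  apply Finset.card_le_card
  intro w hw
  simp only [Finset.mem_filter, Finset.mem_univ, true_and] at hw ⊢
  exact hw.1

private theorem thmA_dg_root (H : SimpleGraph V) (v : V) : dg (cut H {v}) v = 0 := by
  unfold dg nb
  rw [Finset.card_eq_zero, Finset.filter_eq_empty_iff]
  intro w _ h
  exact h.2.1 (by simp)

private theorem thmA_dg_nb (H : SimpleGraph V) (v i : V) (hi : i ∈ nb H v) :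
    dg (cut H {v}) i + 1 ≤ dg H i := by
  unfold dg
  have hv : v ∈ nb H i := by
    simp only [nb, Finset.mem_filter, Finset.mem_univ, true_and] at hi ⊢
    exact hi.symm
  have hsub : nb (cut H {v}) i ⊆ (nb H i).erase v := by
    intro w hw
    simp only [nb, Finset.mem_filter, Finset.mem_univ, true_and, Finset.mem_erase] at hw ⊢
    refine ⟨?_, hw.1⟩
    rintro rfl
    exact hw.2.2 (by simp)
  have h1 := Finset.card_le_card hsub
  rw [Finset.card_erase_of_mem hv] at h1
  have h2 : 0 < (nb H i).card := Finset.card_pos.mpr ⟨v, hv⟩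
  omega

private theorem thmA_near (H : SimpleGraph V) (v i : V) (hi : i ∈ nb H v) (k : ℕ) (u : V)
    (h : near (cut H {v}) i (k - 1) u) : near H v k u := by
  obtain ⟨w, hw⟩ := h
  have hadj : H.Adj v i := by
    simpa [nb] using hi
  refine ⟨SimpleGraph.Walk.cons hadj (w.mapLe (thmA_cut_le H {v})), ?_⟩
  rw [SimpleGraph.Walk.length_cons, SimpleGraph.Walk.length_mapLe]
  omega

/-- the law of the root -/
private theorem thmA_third (h2 : ForestStmt) (h3 : BasicStmt) (h4 : ThirdStmt)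
    (H : SimpleGraph V) (φ : V → C → ℝ) (v : V) (hac : H.IsAcyclic) (hg : Good H φ)
    (hs : (dg H v : ℝ) + 3 ≤ ∑ c, φ v c) :
    (∀ z, mg H φ v z ≤ 1 / 3) ∧ ∀ z, 3 * mg H φ v z ≤ φ v z := by
  have hF := (h2 V C H φ v hac hg).1
  have hgc : Good (cut H {v}) φ := (h3 V C H φ hg).2.2.2.1 {v}
  have hB := h3 V C (cut H {v}) φ hgc
  have := h4 ↥(nb H v) C (fun i z => mg (cut H {v}) φ i z) (φ v) (mg H φ v)
    (fun i z => hB.2.1 i z) (fun i => hB.2.2.1 i) (hg.nonneg v) (hg.le_one v)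
    (by rw [Fintype.card_coe]; exact hs)
    (by
      intro z
      have h5 := hF z
      have h6 : ∀ z, ∏ i : ↥(nb H v), (1 - mg (cut H {v}) φ i z)
          = ∏ i ∈ nb H v, (1 - mg (cut H {v}) φ i z) := by
        intro z
        exact Finset.prod_coe_sort (nb H v) (fun i => 1 - mg (cut H {v}) φ i z)
      simp_rw [h6]
      exact h5)
  exact ⟨this.2.2.1, this.2.2.2.2⟩

private theorem thmA_mx {C : Type} [Fintype C] [Nonempty C] (p : C → ℝ) (hp : ∀ z, 0 ≤ p z)
    (h3 : ∀ z, p z ≤ 1 / 3) : 0 ≤ mx p ∧ mx p ≤ 1 / 3 := by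
  unfold mx
  refine ⟨?_, ciSup_le h3⟩
  obtain ⟨c⟩ := (inferInstance : Nonempty C)
  exact (hp c).trans (le_ciSup (Set.finite_range p).bddAbove c)

private theorem thmA_exp (q : ℝ) (hq : 1 ≤ q) :
    Real.exp (-1 / (10 * q)) ≤ 1 - 1 / (40 * q) ∧
    (1 + 1 / (20 * q)) * Real.exp (-1 / (10 * q)) ≤ 1 - 1 / (40 * q) := by
  set x : ℝ := 1 / (40 * q) with hx
  have hxpos : 0 < x := by positivity
  have hx1 : x ≤ 1 / 40 := by
    rw [hx]
    apply one_div_le_one_div_of_le (by norm_num)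
    linarith
  have e1 : -1 / (10 * q) = -(4 * x) := by
    rw [hx]; field_simp; norm_num
  have e2 : 1 / (20 * q) = 2 * x := by
    rw [hx]; field_simp; norm_num
  rw [e1, e2]
  have h1 : Real.exp (-(4 * x)) * (1 + 4 * x) ≤ 1 := by
    have h2 : 1 + 4 * x ≤ Real.exp (4 * x) := by linarith [Real.add_one_le_exp (4 * x)]
    calc Real.exp (-(4 * x)) * (1 + 4 * x) ≤ Real.exp (-(4 * x)) * Real.exp (4 * x) :=
          mul_le_mul_of_nonneg_left h2 (Real.exp_pos _).le
      _ = 1 := by rw [← Real.exp_add]; simp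
  have h2 : (1 + 2 * x) * Real.exp (-(4 * x)) ≤ 1 - x := by
    have h3 : 1 + 2 * x ≤ (1 + 4 * x) * (1 - x) := by nlinarith
    calc (1 + 2 * x) * Real.exp (-(4 * x)) ≤ ((1 + 4 * x) * (1 - x)) * Real.exp (-(4 * x)) :=
          mul_le_mul_of_nonneg_right h3 (Real.exp_pos _).le
      _ = (Real.exp (-(4 * x)) * (1 + 4 * x)) * (1 - x) := by ring
      _ ≤ 1 * (1 - x) := mul_le_mul_of_nonneg_right h1 (by linarith)
      _ = 1 - x := one_mul _
  refine ⟨?_, h2⟩
  refine le_trans ?_ h2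
  have := Real.exp_pos (-(4 * x))
  nlinarith

private theorem thmA_ind (h1 : OneStepStmt) (h2 : ForestStmt) (h3 : BasicStmt) (h4 : ThirdStmt)
    (h5 : ScalEStmt) (φ : V → C → ℝ) (h : V → C → ℝ) (M : ℝ)
    (hM : ∀ u, ∑ c, φ u c * (h u c) ^ 2 ≤ M) : ∀ (n : ℕ) (H : SimpleGraph V) (v : V) (k : ℕ),
    ∑ u, dg H u = n → H.IsAcyclic → Good H φ →
    (dg H v : ℝ) + 3 ≤ ∑ c, φ v c → (∀ u, near H v k u → ∀ c, h u c = 0) →
    nrm (mg H φ v) (fun z => cEx H φ v z (fun f => ∑ u, h u (f u))) ≤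
      (1 - 1 / (40 * (Fintype.card C : ℝ))) ^ k *
        (40 * (Fintype.card C : ℝ) * (20 * (Fintype.card C : ℝ) + 1) * M) := by
  intro n
  induction n using Nat.strong_induction_on with
  | _ n ih =>
  intro H v k hn hac hg hs hnear
  set q : ℝ := (Fintype.card C : ℝ) with hq
  set Fn : (V → C) → ℝ := fun f => ∑ u, h u (f u) with hFn
  have hgc : Good (cut H {v}) φ := (h3 V C H φ hg).2.2.2.1 {v}
  have hB := h3 V C H φ hg
  have hBc := h3 V C (cut H {v}) φ hgc
  have hacc : (cut H {v}).IsAcyclic := hac.anti (thmA_cut_le H {v})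
  have hCne : Nonempty C := by
    by_contra hcon
    rw [not_nonempty_iff] at hcon
    have := hg.pos v
    simp at this
  have hq1 : 1 ≤ q := by
    rw [hq]
    exact_mod_cast Fintype.card_pos
  have hM0 : 0 ≤ M := (Finset.sum_nonneg fun c _ =>
    mul_nonneg (hg.nonneg v c) (sq_nonneg (h v c))).trans (hM v)
  set r : C → ℝ := mg H φ v with hr
  have hr0 : ∀ z, 0 ≤ r z := hB.2.1 v
  have hr1 : ∑ z, r z = 1 := hB.2.2.1 v
  obtain ⟨hr3, hrφ⟩ := thmA_third h2 h3 h4 H φ v hac hg hs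
  obtain ⟨hmx0, hmx3⟩ := thmA_mx r hr0 hr3
  obtain ⟨he1, he5⟩ := h5 (mx r) hmx0 hmx3
  have he0 : 0 ≤ eta (mx r) := by linarith
  -- neighbours
  have hsn : ∀ i ∈ nb H v, (dg (cut H {v}) i : ℝ) + 3 ≤ ∑ c, φ i c := by
    intro i hi
    have h6 := thmA_dg_nb H v i hi
    have h7 := hg.slack i (by omega)
    have h8 : (dg (cut H {v}) i : ℝ) + 1 ≤ dg H i := by exact_mod_cast h6
    linarith
  have hthird : ∀ i ∈ nb H v, ∀ z, mg (cut H {v}) φ i z ≤ 1 / 3 := by
    intro i hi
    exact (thmA_third h2 h3 h4 (cut H {v}) φ i hacc hgc (hsn i hi)).1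
  obtain ⟨hF1, hF2⟩ := h2 V C H φ v hac hg
  obtain ⟨K0, hK0⟩ := hF2 h
  set Y : C → ℝ := fun z => ∑ i ∈ nb H v, mg (cut H {v}) φ i z / (1 - mg (cut H {v}) φ i z) *
        (cEx (cut H {v}) φ i z Fn - Ex (cut H {v}) φ Fn) with hY
  have hcongr : nrm r (fun z => cEx H φ v z Fn) = nrm r (fun z => h v z - Y z) := by
    apply thmA_nrm_congr r _ _ K0 hr0 hr1
    intro z hz
    have h6 : 0 < φ v z := by
      have := hrφ z
      linarith
    have h7 := hK0 z h6 (fun i hi => lt_of_le_of_lt (hthird i hi z) (by norm_num))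
    rw [hY]
    simp only
    rw [h7]
    ring
  rw [hcongr]
  set B : ℝ := 40 * q * (20 * q + 1) * M with hBdef
  have hB0 : 0 ≤ B := by positivity
  obtain ⟨hx1, hx2⟩ := thmA_exp q hq1
  have hbase : 0 ≤ 1 - 1 / (40 * q) := by
    have : 1 / (40 * q) ≤ 1 := by
      rw [div_le_one (by positivity)]
      linarith
    linarith
  -- the term at the root
  have hroot : nrm r (fun z => h v z) ≤ M := by
    refine (thmA_nrm_le r _ he0 hr1).trans ?_
    have h6 : ∑ z, r z * h v z ^ 2 ≤ M / 3 := by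
      have h7 : ∑ z, r z * h v z ^ 2 ≤ ∑ z, (φ v z * h v z ^ 2) / 3 := by
        refine Finset.sum_le_sum fun z _ => ?_
        have h8 := mul_le_mul_of_nonneg_right (hrφ z) (sq_nonneg (h v z))
        linarith
      rw [← Finset.sum_div] at h7
      have h8 := hM v
      linarith
    have h7 : 0 ≤ ∑ z, r z * h v z ^ 2 :=
      Finset.sum_nonneg fun z _ => mul_nonneg (hr0 z) (sq_nonneg _)
    calc eta (mx r) * ∑ z, r z * h v z ^ 2 ≤ 5 / 2 * (M / 3) :=
          mul_le_mul he5 h6 h7 (by norm_num)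
      _ ≤ M := by linarith
  have hkzero : 1 ≤ k → ∀ z, h v z = 0 := by
    intro hk z
    exact hnear v ⟨SimpleGraph.Walk.nil, by rw [SimpleGraph.Walk.length_nil]; omega⟩ z
  rcases (nb H v).eq_empty_or_nonempty with hemp | hne
  · -- no neighbours
    have hY0 : ∀ z, Y z = 0 := by
      intro z
      rw [hY]
      simp only
      rw [hemp, Finset.sum_empty]
    simp_rw [hY0, sub_zero]
    rcases Nat.eq_zero_or_pos k with hk | hk
    · rw [hk, pow_zero, one_mul]
      refine hroot.trans ?_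
      rw [hBdef]
      have : 1 ≤ 40 * q * (20 * q + 1) := by nlinarith
      nlinarith
    · simp_rw [hkzero hk]
      have : nrm r (fun _ => (0 : ℝ)) = 0 := by
        unfold nrm
        simp
      rw [this]
      positivity
  · -- one step
    have hcard : 0 < Fintype.card ↥(nb H v) := by
      rw [Fintype.card_coe]
      exact Finset.card_pos.mpr hne
    set K : ℝ := (1 - 1 / (40 * q)) ^ (k - 1) * B with hK
    have hlt : ∑ u, dg (cut H {v}) u < n := by
      rw [← hn]
      refine Finset.sum_lt_sum (fun u _ => thmA_dg_le H {v} u) ⟨v, Finset.mem_univ v, ?_⟩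
      rw [thmA_dg_root]
      exact Finset.card_pos.mpr hne
    have hone := h1 ↥(nb H v) C (fun i z => mg (cut H {v}) φ i z)
      (fun i z => cEx (cut H {v}) φ i z Fn) (φ v) r K hcard
      (fun i z => hBc.2.1 i z) (fun i => hBc.2.2.1 i) (fun i z => hthird i i.2 z)
      (hg.nonneg v) (hg.le_one v) (by rw [Fintype.card_coe]; exact hs)
      (fun i => ih _ hlt (cut H {v}) i (k - 1) rfl hacc hgc (hsn i i.2)
        (fun u hu => hnear u (thmA_near H v i i.2 k u hu)))
      (by
        intro z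
        have h6 : ∀ z, ∏ i : ↥(nb H v), (1 - mg (cut H {v}) φ i z)
            = ∏ i ∈ nb H v, (1 - mg (cut H {v}) φ i z) := by
          intro z
          exact Finset.prod_coe_sort (nb H v) (fun i => 1 - mg (cut H {v}) φ i z)
        simp_rw [h6]
        exact hF1 z)
    have hYeq : (fun z => ∑ i : ↥(nb H v), mg (cut H {v}) φ i z / (1 - mg (cut H {v}) φ i z) *
        (cEx (cut H {v}) φ i z Fn - ∑ c, mg (cut H {v}) φ i c * cEx (cut H {v}) φ i c Fn))
        = Y := by
      funext z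
      have h6 : ∀ i : V, ∑ c, mg (cut H {v}) φ i c * cEx (cut H {v}) φ i c Fn
          = Ex (cut H {v}) φ Fn := fun i => hBc.2.2.2.2.2 i Fn
      simp_rw [h6]
      rw [hY]
      exact Finset.sum_coe_sort (nb H v) (fun i => mg (cut H {v}) φ i z /
        (1 - mg (cut H {v}) φ i z) * (cEx (cut H {v}) φ i z Fn - Ex (cut H {v}) φ Fn))
    rw [hYeq] at hone
    have hK0' : 0 ≤ K := by positivity
    rcases Nat.eq_zero_or_pos k with hk | hk
    · have h6 := thmA_nrm_sub r (fun z => h v z) Y (1 / (20 * q)) (by positivity) he0 hr0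
      refine h6.trans ?_
      rw [hk, pow_zero, one_mul]
      have hKB : K = B := by rw [hK, hk]; simp
      rw [hKB] at hone
      have h7 : 1 + 1 / (1 / (20 * q)) = 1 + 20 * q := by
        rw [one_div_one_div]
      rw [h7]
      have h8 : (1 + 1 / (20 * q)) * nrm r Y ≤ (1 - 1 / (40 * q)) * B := by
        calc (1 + 1 / (20 * q)) * nrm r Y
            ≤ (1 + 1 / (20 * q)) * (Real.exp (-1 / (10 * q)) * B) :=
              mul_le_mul_of_nonneg_left hone (by positivity)
          _ = ((1 + 1 / (20 * q)) * Real.exp (-1 / (10 * q))) * B := by ring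
          _ ≤ (1 - 1 / (40 * q)) * B := mul_le_mul_of_nonneg_right hx2 hB0
      have h9 : (1 - 1 / (40 * q)) * B = B - (20 * q + 1) * M := by
        rw [hBdef]
        field_simp
      have h10 : (1 + 20 * q) * nrm r (fun z => h v z) ≤ (1 + 20 * q) * M :=
        mul_le_mul_of_nonneg_left hroot (by positivity)
      linarith
    · simp_rw [hkzero hk, zero_sub]
      rw [thmA_nrm_neg]
      refine hone.trans ?_
      have h7 : (1 - 1 / (40 * q)) ^ k = (1 - 1 / (40 * q)) * (1 - 1 / (40 * q)) ^ (k - 1) := by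
        rw [← pow_succ']
        congr 1
        omega
      rw [h7, mul_assoc, ← hK]
      exact mul_le_mul_of_nonneg_right hx1 hK0'

theorem thmA (h1 : OneStepStmt) (h2 : ForestStmt) (h3 : BasicStmt) (h4 : ThirdStmt)
    (h5 : ScalEStmt) : ThmAStmt := by
  intro V C _ _ H φ v k h M hac hg hs hnear hM
  exact thmA_ind h1 h2 h3 h4 h5 φ h M hM _ H v k rfl hac hg hs hnear

end Pool.Agent.KempeLG
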