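import Pool.Agent.Lib.MP_26a019_lc.LG.Spec

set_option autoImplicit false

/-!
# Glauber dynamics with `Δ + 2` colours on graphs of large girth: two colours at the root
-/

open Finset Classical

namespace Pool.Agent.KempeLG

open Pool.Agent.Kempe Pool.Agent.KempeMix

variable {V C : Type} [Fintype V] [Fintype C]

omit [Fintype V] in
private theorem thmB_cut_le (H : SimpleGraph V) (T : Finset V) : cut H T ≤ H := by
  intro u w h
  exact h.1

private theorem thmB_dg_nb (H : SimpleGraph V) (v i : V) (hi : i ∈ nb H v) :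
    dg (cut H {v}) i + 1 ≤ dg H i := by
  unfold dg
  have hv : v ∈ nb H i := by
    simp only [nb, Finset.mem_filter, Finset.mem_univ, true_and] at hi ⊢
    exact hi.symm
  have hsub : nb (cut H {v}) i ⊆ (nb H i).erase v := by
    intro w hw
    simp only [nb, Finset.mem_filter, Finset.mem_univ, true_and, Finset.mem_erase] at hw ⊢
    refine ⟨?_, hw.1⟩
    rintro rfl
    exact hw.2.2 (by simp)
  have h1 := Finset.card_le_card hsub
  rw [Finset.card_erase_of_mem hv] at h1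
  have h2 : 0 < (nb H i).card := Finset.card_pos.mpr ⟨v, hv⟩
  omega

private theorem thmB_near (H : SimpleGraph V) (v i : V) (hi : i ∈ nb H v) (k : ℕ) (u : V)
    (h : near (cut H {v}) i (k - 1) u) : near H v k u := by
  obtain ⟨w, hw⟩ := h
  have hadj : H.Adj v i := by
    simpa [nb] using hi
  refine ⟨SimpleGraph.Walk.cons hadj (w.mapLe (thmB_cut_le H {v})), ?_⟩
  rw [SimpleGraph.Walk.length_cons, SimpleGraph.Walk.length_mapLe]
  omega

/-- the law of the root -/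
private theorem thmB_third (h2 : ForestStmt) (h3 : BasicStmt) (h4 : ThirdStmt)
    (H : SimpleGraph V) (φ : V → C → ℝ) (v : V) (hac : H.IsAcyclic) (hg : Good H φ)
    (hs : (dg H v : ℝ) + 3 ≤ ∑ c, φ v c) : ∀ z, mg H φ v z ≤ 1 / 3 := by
  have hF := (h2 V C H φ v hac hg).1
  have hgc : Good (cut H {v}) φ := (h3 V C H φ hg).2.2.2.1 {v}
  have hB := h3 V C (cut H {v}) φ hgc
  have := h4 ↥(nb H v) C (fun i z => mg (cut H {v}) φ i z) (φ v) (mg H φ v)
    (fun i z => hB.2.1 i z) (fun i => hB.2.2.1 i) (hg.nonneg v) (hg.le_one v)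
    (by rw [Fintype.card_coe]; exact hs)
    (by
      intro z
      have h5 := hF z
      have h6 : ∀ z, ∏ i : ↥(nb H v), (1 - mg (cut H {v}) φ i z)
          = ∏ i ∈ nb H v, (1 - mg (cut H {v}) φ i z) := by
        intro z
        exact Finset.prod_coe_sort (nb H v) (fun i => 1 - mg (cut H {v}) φ i z)
      simp_rw [h6]
      exact h5)
  exact this.2.2.1

private theorem thmB_mx {C : Type} [Fintype C] [Nonempty C] (p : C → ℝ) (hp : ∀ z, 0 ≤ p z)
    (h3 : ∀ z, p z ≤ 1 / 3) : 0 ≤ mx p ∧ mx p ≤ 1 / 3 := by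
  unfold mx
  refine ⟨?_, ciSup_le h3⟩
  obtain ⟨c⟩ := (inferInstance : Nonempty C)
  exact (hp c).trans (le_ciSup (Set.finite_range p).bddAbove c)

/-- one term of the recursion -/
private theorem thmB_term (p G N : ℝ) (hp0 : 0 ≤ p) (hp3 : p ≤ 1 / 3) (hG : p * G ^ 2 ≤ N) :
    (p / (1 - p) * G) ^ 2 ≤ 3 / 4 * N := by
  have h1 : 0 < 1 - p := by linarith
  have h2 : (p / (1 - p) * G) ^ 2 = p / (1 - p) ^ 2 * (p * G ^ 2) := by
    field_simp
  have h3 : p / (1 - p) ^ 2 ≤ 3 / 4 := by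
    rw [div_le_iff₀ (by positivity)]
    nlinarith
  have h4 : 0 ≤ p * G ^ 2 := by positivity
  rw [h2]
  calc p / (1 - p) ^ 2 * (p * G ^ 2) ≤ 3 / 4 * (p * G ^ 2) :=
        mul_le_mul_of_nonneg_right h3 h4
    _ ≤ _ := mul_le_mul_of_nonneg_left hG (by norm_num)

theorem thmB (h1 : ThmAStmt) (h2 : ForestStmt) (h3 : BasicStmt) (h4 : ThirdStmt)
    (h5 : ScalEStmt) : ThmBStmt := by
  intro V C _ _ H φ v k h M a b hk hM0 hac hg ha hb hnear hM
  set q : ℝ := (Fintype.card C : ℝ) with hq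
  set Fn : (V → C) → ℝ := fun f => ∑ u, h u (f u) with hFn
  have hgc : Good (cut H {v}) φ := (h3 V C H φ hg).2.2.2.1 {v}
  have hBc := h3 V C (cut H {v}) φ hgc
  have hacc : (cut H {v}).IsAcyclic := hac.anti (thmB_cut_le H {v})
  have hCne : Nonempty C := ⟨a⟩
  have hq1 : 1 ≤ q := by
    rw [hq]
    exact_mod_cast Fintype.card_pos
  have hsn : ∀ i ∈ nb H v, (dg (cut H {v}) i : ℝ) + 3 ≤ ∑ c, φ i c := by
    intro i hi
    have h6 := thmB_dg_nb H v i hi
    have h7 := hg.slack i (by omega)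
    have h8 : (dg (cut H {v}) i : ℝ) + 1 ≤ dg H i := by exact_mod_cast h6
    linarith
  have hthird : ∀ i ∈ nb H v, ∀ z, mg (cut H {v}) φ i z ≤ 1 / 3 := fun i hi =>
    thmB_third h2 h3 h4 (cut H {v}) φ i hacc hgc (hsn i hi)
  obtain ⟨hF1, hF2⟩ := h2 V C H φ v hac hg
  obtain ⟨K0, hK0⟩ := hF2 h
  set Y : C → ℝ := fun z => ∑ i ∈ nb H v, mg (cut H {v}) φ i z / (1 - mg (cut H {v}) φ i z) *
        (cEx (cut H {v}) φ i z Fn - Ex (cut H {v}) φ Fn) with hY
  have hcE : ∀ z, 0 < φ v z → cEx H φ v z Fn = h v z + K0 - Y z := by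
    intro z hz
    exact hK0 z hz (fun i hi => lt_of_le_of_lt (hthird i hi z) (by norm_num))
  have hhv : ∀ c, h v c = 0 := by
    apply hnear v
    refine ⟨SimpleGraph.Walk.nil, ?_⟩
    rw [SimpleGraph.Walk.length_nil]
    omega
  rw [hcE a ha, hcE b hb, hhv, hhv]
  set N : ℝ := (1 - 1 / (40 * q)) ^ (k - 1) * (40 * q * (20 * q + 1) * M) with hN
  have hx0 : 0 ≤ 1 - 1 / (40 * q) := by
    have : 1 / (40 * q) ≤ 1 := by
      rw [div_le_one (by positivity)]
      linarith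
    linarith
  have hN0 : 0 ≤ N := by positivity
  -- every term
  have hterm : ∀ i ∈ nb H v, ∀ z, (mg (cut H {v}) φ i z / (1 - mg (cut H {v}) φ i z) *
        (cEx (cut H {v}) φ i z Fn - Ex (cut H {v}) φ Fn)) ^ 2 ≤ 3 / 4 * N := by
    intro i hi z
    have h6 := h1 V C (cut H {v}) φ i (k - 1) h M hacc hgc (hsn i hi)
      (fun u hu => hnear u (thmB_near H v i hi k u hu)) hM
    have hp0 : ∀ z, 0 ≤ mg (cut H {v}) φ i z := hBc.2.1 i
    obtain ⟨hmx0, hmx3⟩ := thmB_mx (mg (cut H {v}) φ i) hp0 (hthird i hi)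
    obtain ⟨he1, he5⟩ := h5 (mx (mg (cut H {v}) φ i)) hmx0 hmx3
    apply thmB_term _ _ _ (hp0 z) (hthird i hi z)
    have hmean : ∑ c, mg (cut H {v}) φ i c * cEx (cut H {v}) φ i c Fn
        = Ex (cut H {v}) φ Fn := hBc.2.2.2.2.2 i Fn
    unfold nrm at h6
    have h7 : ∑ z, mg (cut H {v}) φ i z *
        (cEx (cut H {v}) φ i z Fn - Ex (cut H {v}) φ Fn) ^ 2 ≤ N := by
      have h8 : 0 ≤ ∑ z, mg (cut H {v}) φ i z *
          (cEx (cut H {v}) φ i z Fn - Ex (cut H {v}) φ Fn) ^ 2 :=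
        Finset.sum_nonneg fun z _ => mul_nonneg (hp0 z) (sq_nonneg _)
      calc ∑ z, mg (cut H {v}) φ i z *
          (cEx (cut H {v}) φ i z Fn - Ex (cut H {v}) φ Fn) ^ 2
          ≤ eta (mx (mg (cut H {v}) φ i)) * ∑ z, mg (cut H {v}) φ i z *
          (cEx (cut H {v}) φ i z Fn - Ex (cut H {v}) φ Fn) ^ 2 := by nlinarith
        _ ≤ N := by
          rw [← hmean]
          exact h6
    refine le_trans ?_ h7
    exact Finset.single_le_sum (f := fun z => mg (cut H {v}) φ i z *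
          (cEx (cut H {v}) φ i z Fn - Ex (cut H {v}) φ Fn) ^ 2)
      (fun z _ => mul_nonneg (hp0 z) (sq_nonneg _)) (Finset.mem_univ z)
  have hYz : ∀ z, Y z ^ 2 ≤ (dg H v : ℝ) ^ 2 * (3 / 4 * N) := by
    intro z
    have h6 := sq_sum_le_card_mul_sum_sq (s := nb H v)
      (f := fun i => mg (cut H {v}) φ i z / (1 - mg (cut H {v}) φ i z) *
        (cEx (cut H {v}) φ i z Fn - Ex (cut H {v}) φ Fn))
    have h7 : ∑ i ∈ nb H v, (mg (cut H {v}) φ i z / (1 - mg (cut H {v}) φ i z) *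
        (cEx (cut H {v}) φ i z Fn - Ex (cut H {v}) φ Fn)) ^ 2 ≤ (dg H v : ℝ) * (3 / 4 * N) := by
      calc _ ≤ ∑ _i ∈ nb H v, (3 / 4 * N) := Finset.sum_le_sum fun i hi => hterm i hi z
        _ = _ := by rw [Finset.sum_const, nsmul_eq_mul]; rfl
    have h8 : ((nb H v).card : ℝ) = (dg H v : ℝ) := rfl
    rw [h8] at h6
    calc Y z ^ 2 ≤ _ := h6
      _ ≤ (dg H v : ℝ) * ((dg H v : ℝ) * (3 / 4 * N)) :=
        mul_le_mul_of_nonneg_left h7 (Nat.cast_nonneg _)
      _ = _ := by ring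
  have hdq : (dg H v : ℝ) ≤ q := by
    rcases Nat.eq_zero_or_pos (dg H v) with h0 | h0
    · rw [h0]
      simp only [Nat.cast_zero]
      linarith
    · have h6 := hg.slack v h0
      have h7 : ∑ c, φ v c ≤ q := by
        calc ∑ c, φ v c ≤ ∑ _c : C, (1 : ℝ) := Finset.sum_le_sum fun c _ => hg.le_one v c
          _ = q := by simp [hq]
      linarith
  have hd2 : (dg H v : ℝ) ^ 2 ≤ q ^ 2 := pow_le_pow_left₀ (Nat.cast_nonneg _) hdq 2
  have hYa := hYz a
  have hYb := hYz b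
  have h9 : (0 + K0 - Y a - (0 + K0 - Y b)) ^ 2 ≤ 2 * Y a ^ 2 + 2 * Y b ^ 2 := by
    nlinarith [sq_nonneg (Y a + Y b)]
  have h10 : (dg H v : ℝ) ^ 2 * (3 / 4 * N) ≤ q ^ 2 * (3 / 4 * N) :=
    mul_le_mul_of_nonneg_right hd2 (by positivity)
  have h11 : 0 ≤ q ^ 2 * N := by positivity
  calc _ ≤ 2 * Y a ^ 2 + 2 * Y b ^ 2 := h9
    _ ≤ 4 * (q ^ 2 * (3 / 4 * N)) := by linarith
    _ ≤ 4 * q ^ 2 * N := by linarith

end Pool.Agent.KempeLG
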