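import Pool.Agent.Lib.MP_26a019_lc.LG.Spec

set_option autoImplicit false
set_option linter.unusedSectionVars false

open Finset Classical Pool.Agent.Kempe Pool.Agent.KempeMix

namespace Pool.Agent.KempeLG

namespace TotAux

theorem near_mono {V : Type} {H : SimpleGraph V} {v u : V} {k l : ℕ} (h : near H v k u)
    (hkl : k ≤ l) : near H v l u := by
  obtain ⟨w, hw⟩ := h
  exact ⟨w, by omega⟩

theorem near_self {V : Type} (H : SimpleGraph V) (v : V) {k : ℕ} (hk : 0 < k) : near H v k v :=
  ⟨SimpleGraph.Walk.nil, by simpa using hk⟩

variable {V C : Type} [Fintype V] [Fintype C]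

theorem mem_sph {G : SimpleGraph V} {v : V} {k : ℕ} {u : V} :
    u ∈ sph G v k ↔ near G v (k + 1) u ∧ ¬ near G v k u := by
  unfold sph
  rw [mem_filter]
  simp only [mem_univ, true_and]

theorem mem_Om {G : SimpleGraph V} {W : Finset V} {p f : V → C} :
    f ∈ Om G W p ↔ Proper G f ∧ ∀ z ∈ W, f z = p z := by
  unfold Om
  rw [mem_filter]
  simp only [mem_univ, true_and]

theorem mem_PC {G : SimpleGraph V} {f : V → C} : f ∈ PC G C ↔ Proper G f := by
  unfold PC
  rw [mem_filter]
  simp only [mem_univ, true_and]

theorem infl_nonneg (G : SimpleGraph V) (T : Finset V) (p : V → C) (v w : V) :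
    0 ≤ infl G T p v w := by
  unfold infl
  refine Real.iSup_nonneg (fun x => ?_)
  unfold del
  have : 0 ≤ ∑ c, |pr G (insert v T) x.1.1 w c - pr G (insert v T) x.1.2 w c| :=
    sum_nonneg (fun _ _ => abs_nonneg _)
  linarith

end TotAux

open TotAux

theorem total (h1 : ConstStmt) (h2 : SphereStmt) (h3 : RevealAllStmt) (h4 : FarStmt)
    (h5 : DelTreeStmt) (h6 : GirthStmt) (h7 : CountStmt) : TotStmt := by
  intro q
  rcases Nat.eq_zero_or_pos q with hq0 | hq1
  · refine ⟨0, 0, le_rfl, ?_⟩
    intro V C _ _ G hC hdeg _ T v pa pb _ _ _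
    have := hdeg v
    omega
  obtain ⟨s, r, J, r', hs, hr, hr', hR2, hε, hJ, hr'2⟩ := h1 q hq1
  set R := J * s + r with hR
  refine ⟨2 * (R + r') + 2, 4 * (q : ℝ) ^ (R + 1), by positivity, ?_⟩
  intro V C _ _ G hC hdeg hgirth
  set Γ : ℝ := 4 * (q : ℝ) ^ (R + 1) with hΓ
  have hΓ0 : 0 ≤ Γ := by positivity
  have hqR : (1 : ℝ) ≤ q := by exact_mod_cast hq1
  have key : ∀ n : ℕ, ∀ (T : Finset V) (v : V) (pa pb : V → C), (Tᶜ).card = n → v ∉ T →
      pa ∈ PC G C → pb ∈ Om G T pa → tot G T v pa pb ≤ Γ := by
    intro n
    induction n using Nat.strong_induction_on with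
    | _ n ih =>
      intro T v pa pb hn hv hpa hpb
      set B := univ.filter (fun u => ¬ near G v (R + r' + 1) u) with hB
      have hBac : (cut G B).IsAcyclic := h6 V G (R + r') v hgirth
      set S := (sph G v R).filter (fun w => w ∉ T) with hS
      have hSprop : ∀ w ∈ S, w ∉ T ∧ w ≠ v ∧ ¬ G.Adj v w := by
        intro w hw
        rw [hS, mem_filter, mem_sph] at hw
        refine ⟨hw.2, ?_, ?_⟩
        · rintro rfl
          exact hw.1.2 (near_self G w (by omega))
        · intro hadj
          apply hw.1.2
          exact ⟨SimpleGraph.Walk.cons hadj SimpleGraph.Walk.nil, by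
            rw [SimpleGraph.Walk.length_cons, SimpleGraph.Walk.length_nil]; omega⟩
      have hvS : v ∉ S := fun h => (hSprop v h).2.1 rfl
      obtain ⟨TT, qa, qb, ra, rb, hall, hra, hrb, hrab, htot⟩ :=
        h3 V C G v Γ S T pa pb hdeg hv hSprop hpa hpb (by
          intro T' hTT' hvT' w hw hwv p1 hp1 p2 hp2
          have hlt : ((insert v T')ᶜ).card < n := by
            rw [← hn]
            apply card_lt_card
            rw [ssubset_iff_subset_ne]
            constructor
            · intro x hx
              rw [mem_compl, mem_insert, not_or] at hx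
              rw [mem_compl]
              exact fun h => hx.2 (hTT' h)
            · intro heq
              have : v ∈ Tᶜ := mem_compl.2 hv
              rw [← heq, mem_compl] at this
              exact this (mem_insert_self _ _)
          refine ih _ hlt (insert v T') w p1 p2 rfl ?_ hp1 hp2
          rw [mem_insert, not_or]
          exact ⟨hwv, hw⟩)
      -- the end term
      have hvTS : v ∉ T ∪ S := by
        rw [mem_union, not_or]
        exact ⟨hv, hvS⟩
      have hraPC : ra ∈ PC G C := mem_PC.2 (mem_Om.1 hra).1
      have hend : tot G (T ∪ S) v ra rb ≤ 2 * (q : ℝ) ^ R := by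
        have hsub : sph G v R ⊆ T ∪ S := by
          intro w hw
          rw [mem_union]
          by_cases hwT : w ∈ T
          · exact Or.inl hwT
          · exact Or.inr (mem_filter.2 ⟨hw, hwT⟩)
        have e1 := h4 V C G (T ∪ S) v R ra rb hdeg hvTS hraPC hrab hsub (by omega)
        have e2 := h7 V G q (by rw [← hC]; exact hdeg) v R
        linarith
      -- the family
      set T' : V → Finset V := fun w => if w ∈ T then T ∪ B else TT w ∪ B with hT'
      set p' : V → (V → C) := fun w => if w ∈ T then pa else qa w with hp'
      have hSmem : ∀ w ∈ sph G v R, w ∉ T → w ∈ S := fun w hw hwT => mem_filter.2 ⟨hw, hwT⟩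
      have hnearS : ∀ u, near G v R u → u ∉ S := by
        intro u hu huS
        rw [hS, mem_filter, mem_sph] at huS
        exact huS.1.2 hu
      have hnearB : ∀ u, near G v R u → u ∉ B := by
        intro u hu huB
        rw [hB, mem_filter] at huB
        exact huB.2 (near_mono hu (by omega))
      have hT'iff : ∀ w ∈ sph G v R, ∀ u, near G v R u → (u ∈ T' w ↔ u ∈ T) := by
        intro w hw u hu
        by_cases hwT : w ∈ T
        · simp only [hT', if_pos hwT, mem_union]
          exact ⟨fun h => h.resolve_right (hnearB u hu), Or.inl⟩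
        · simp only [hT', if_neg hwT, mem_union]
          have hw' := hall w (hSmem w hw hwT)
          constructor
          · intro h
            have h' := h.resolve_right (hnearB u hu)
            have h'' := hw'.2.1 h'
            rw [mem_union] at h''
            exact h''.resolve_right (hnearS u hu)
          · intro h
            exact Or.inl (hw'.1 h)
      have hp'eq : ∀ w ∈ sph G v R, ∀ u ∈ T, p' w u = pa u := by
        intro w hw u hu
        by_cases hwT : w ∈ T
        · simp only [hp', if_pos hwT]
        · simp only [hp', if_neg hwT]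
          have hw' := hall w (hSmem w hw hwT)
          exact (mem_Om.1 hw'.2.2.1).2 u (mem_insert_of_mem hu)
      have hFam : Fam G B v (J * s + r) T' p' := by
        refine ⟨?_, ?_, ?_, ?_⟩
        · intro w hw
          by_cases hwT : w ∈ T
          · simp only [hp', if_pos hwT]
            exact hpa
          · simp only [hp', if_neg hwT]
            exact mem_PC.2 (mem_Om.1 (hall w (hSmem w hw hwT)).2.2.1).1
        · intro w hw
          by_cases hwT : w ∈ T
          · simp only [hT', if_pos hwT]
            exact subset_union_right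
          · simp only [hT', if_neg hwT]
            exact subset_union_right
        · intro w hw
          have hnv : near G v R v := near_self G v (by omega)
          rw [hT'iff w hw v hnv]
          exact hv
        · intro w hw w' hw' u hu
          rw [hT'iff w hw u hu, hT'iff w' hw' u hu]
          refine ⟨Iff.rfl, fun huT => ?_⟩
          rw [hp'eq w hw u huT, hp'eq w' hw' u huT]
      have hsphere : ∑ w ∈ sph G v R, infl G (T' w) (p' w) v w ≤ 1 / 8 := by
        refine le_trans (h2 V C G B v J s r T' p' hdeg hBac hs hr ?_ ?_ hFam) ?_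
        · rw [hC]
          exact hε
        · intro u hu hnu
          rw [hB, mem_filter] at hu
          exact hu.2 (near_mono hnu (by omega))
        · rw [hC]
          exact hJ
      have hcardS : (S.card : ℝ) ≤ (q : ℝ) ^ (R + 1) := by
        refine le_trans ?_ (h7 V G q (by rw [← hC]; exact hdeg) v (R + 1))
        have : S ⊆ univ.filter (fun u => near G v (R + 1) u) := by
          intro w hw
          rw [hS, mem_filter, mem_sph] at hw
          exact mem_filter.2 ⟨mem_univ _, hw.1.1⟩
        exact_mod_cast card_le_card this
      have herr0 : 0 ≤ err q (r' - 2) := by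
        unfold err
        exact Real.sqrt_nonneg _
      have hsum : ∑ w ∈ S, del G (TT w) v w (qa w) (qb w) ≤ 1 / 4 := by
        calc ∑ w ∈ S, del G (TT w) v w (qa w) (qb w)
            ≤ ∑ w ∈ S, (infl G (T' w) (p' w) v w + 2 * (q : ℝ) * err q (r' - 2)) := by
              refine sum_le_sum (fun w hw => ?_)
              have hw' := hall w hw
              have hwS := hw
              rw [hS, mem_filter] at hwS
              have hvTT : v ∉ TT w := fun h => hvTS (hw'.2.1 h)
              have e := h5 V C G B (TT w) v w R r' (qa w) (qb w) hdeg hr' (by omega) hB hBac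
                hvTT (mem_PC.2 (mem_Om.1 hw'.2.2.1).1) hw'.2.2.2.2 hwS.1
              rw [hC] at e
              simp only [hT', hp', if_neg hwS.2]
              exact e
          _ = ∑ w ∈ S, infl G (T' w) (p' w) v w + (S.card : ℝ) * (2 * (q : ℝ) * err q (r' - 2)) := by
              rw [sum_add_distrib, sum_const, nsmul_eq_mul]
          _ ≤ ∑ w ∈ sph G v R, infl G (T' w) (p' w) v w +
                (q : ℝ) ^ (R + 1) * (2 * (q : ℝ) * err q (r' - 2)) := by
              refine add_le_add ?_ ?_
              · exact sum_le_sum_of_subset_of_nonneg (filter_subset _ _)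
                  (fun w _ _ => infl_nonneg G _ _ _ _)
              · exact mul_le_mul_of_nonneg_right hcardS (by positivity)
          _ ≤ 1 / 8 + 1 / 8 := add_le_add hsphere hr'2
          _ = 1 / 4 := by norm_num
      have hpow : (q : ℝ) ^ R ≤ (q : ℝ) ^ (R + 1) := pow_le_pow_right₀ hqR (by omega)
      calc tot G T v pa pb
          ≤ (∑ w ∈ S, del G (TT w) v w (qa w) (qb w)) * Γ + tot G (T ∪ S) v ra rb := htot
        _ ≤ 1 / 4 * Γ + 2 * (q : ℝ) ^ R :=
            add_le_add (mul_le_mul_of_nonneg_right hsum hΓ0) hend
        _ ≤ Γ := by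
            rw [hΓ]
            have : 0 ≤ (q : ℝ) ^ (R + 1) := by positivity
            linarith
  intro T v pa pb hv hpa hpb
  exact key _ T v pa pb rfl hv hpa hpb

end Pool.Agent.KempeLG
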