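import Pool.Agent.Lib.MP_26a019_lc.LG.Spec

/-!
# Contraction of total variation
-/

set_option autoImplicit false

namespace Pool.Agent.KempeLG

open Finset Classical Pool.Agent.Kempe Pool.Agent.KempeMix

/-- Contraction of total variation. -/
theorem tv : TvStmt := by
  intro D E _ _ x R ρ hx hR
  have hsub : ∀ d, max (x d) 0 - max (-x d) 0 = x d := fun d => by
    rcases le_total (x d) 0 with h | h
    · rw [max_eq_right h, max_eq_left (by linarith)]; ring
    · rw [max_eq_left h, max_eq_right (by linarith)]; ring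
  have hadd : ∀ d, max (x d) 0 + max (-x d) 0 = |x d| := fun d => by
    rcases le_total (x d) 0 with h | h
    · rw [max_eq_right h, max_eq_left (by linarith), abs_of_nonpos h]; ring
    · rw [max_eq_left h, max_eq_right (by linarith), abs_of_nonneg h]; ring
  have hp0 : ∀ d, 0 ≤ max (x d) 0 := fun d => le_max_right _ _
  have hm0 : ∀ d, 0 ≤ max (-x d) 0 := fun d => le_max_right _ _
  obtain ⟨m, hm⟩ : ∃ m, m = ∑ d, max (x d) 0 := ⟨_, rfl⟩
  have hm' : ∑ d, max (-x d) 0 = m := by
    have h1 : ∑ d, max (x d) 0 - ∑ d, max (-x d) 0 = 0 := by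
      rw [← Finset.sum_sub_distrib, Finset.sum_congr rfl fun d _ => hsub d, hx]
    linarith
  have habs : (1 / 2) * ∑ d, |x d| = m := by
    have h1 : ∑ d, |x d| = ∑ d, max (x d) 0 + ∑ d, max (-x d) 0 := by
      rw [← Finset.sum_add_distrib, Finset.sum_congr rfl fun d _ => hadd d]
    rw [h1, hm', ← hm]; ring
  have hmn : 0 ≤ m := by rw [hm]; exact Finset.sum_nonneg fun d _ => hp0 d
  rw [habs]
  rcases hmn.eq_or_lt with h0 | hpos
  · have hz : ∀ d, x d = 0 := fun d => by
      have h1 : ∑ d, |x d| = 0 := by linarith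
      have h2 := (Finset.sum_eq_zero_iff_of_nonneg fun d _ => abs_nonneg (x d)).1 h1 d
        (Finset.mem_univ d)
      exact abs_eq_zero.1 h2
    simp [hz, ← h0]
  · have hid : ∀ e, m * ∑ d, x d * R d e
        = ∑ d, ∑ d', max (x d) 0 * max (-x d') 0 * (R d e - R d' e) := by
      intro e
      have h1 : ∀ d, ∑ d', max (x d) 0 * max (-x d') 0 * (R d e - R d' e)
          = max (x d) 0 * R d e * m - max (x d) 0 * ∑ d', max (-x d') 0 * R d' e := by
        intro d
        rw [← hm', Finset.mul_sum, Finset.mul_sum, ← Finset.sum_sub_distrib]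
        refine Finset.sum_congr rfl fun d' _ => ?_
        ring
      rw [Finset.sum_congr rfl fun d _ => h1 d, Finset.sum_sub_distrib, ← Finset.sum_mul,
        ← Finset.sum_mul, ← hm, mul_comm _ m, ← mul_sub, ← Finset.sum_sub_distrib]
      congr 1
      refine Finset.sum_congr rfl fun d _ => ?_
      rw [← sub_mul, hsub d]
    have hb : m * ∑ e, |∑ d, x d * R d e| ≤ m * (ρ * m) := by
      calc m * ∑ e, |∑ d, x d * R d e|
          = ∑ e, |∑ d, ∑ d', max (x d) 0 * max (-x d') 0 * (R d e - R d' e)| := by
            rw [Finset.mul_sum]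
            refine Finset.sum_congr rfl fun e _ => ?_
            rw [← hid e, abs_mul, abs_of_pos hpos]
        _ ≤ ∑ e, ∑ d, ∑ d', max (x d) 0 * max (-x d') 0 * |R d e - R d' e| := by
            refine Finset.sum_le_sum fun e _ => ?_
            refine (Finset.abs_sum_le_sum_abs _ _).trans (Finset.sum_le_sum fun d _ => ?_)
            refine (Finset.abs_sum_le_sum_abs _ _).trans (Finset.sum_le_sum fun d' _ => ?_)
            rw [abs_mul, abs_of_nonneg (mul_nonneg (hp0 d) (hm0 d'))]
        _ = ∑ d, ∑ d', max (x d) 0 * max (-x d') 0 * ∑ e, |R d e - R d' e| := by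
            rw [Finset.sum_comm]
            refine Finset.sum_congr rfl fun d _ => ?_
            rw [Finset.sum_comm]
            refine Finset.sum_congr rfl fun d' _ => ?_
            rw [Finset.mul_sum]
        _ ≤ ∑ d, ∑ d', max (x d) 0 * max (-x d') 0 * ρ := by
            refine Finset.sum_le_sum fun d _ => Finset.sum_le_sum fun d' _ => ?_
            by_cases h1 : x d = 0
            · simp [h1]
            by_cases h2 : x d' = 0
            · simp [h2]
            exact mul_le_mul_of_nonneg_left (hR d d' h1 h2) (mul_nonneg (hp0 d) (hm0 d'))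
        _ = m * (ρ * m) := by
            have h1 : ∀ d, ∑ d', max (x d) 0 * max (-x d') 0 * ρ = max (x d) 0 * (ρ * m) := by
              intro d
              rw [← Finset.sum_mul, ← Finset.mul_sum, hm']
              ring
            rw [Finset.sum_congr rfl fun d _ => h1 d, ← Finset.sum_mul, ← hm]
    exact le_of_mul_le_mul_left hb hpos

end Pool.Agent.KempeLG
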